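import Mathlib

/-!
# Analytic functions: critical points and the propagation of smallness
-/

open Filter Topology Metric

namespace Pool.Agent.T2H01.LN

set_option linter.unusedSectionVars false
set_option linter.unusedVariables false

/-- a function which vanishes exactly beyond a point is not analytic there -/
lemma crit {g : ℝ → ℝ} {b0 b1 : ℝ} (hb0 : 0 < b0) (hb1 : 0 < b1)
    (h0 : ∀ b, 0 < b → b < b0 → g b ≠ 0) (h1 : ∀ b, b1 ≤ b → g b = 0) :
    ∃ bc, b0 ≤ bc ∧ bc ≤ b1 ∧ (∀ b, bc < b → g b = 0) ∧ ¬AnalyticAt ℝ g bc := by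
  obtain ⟨S, hS⟩ : ∃ S : Set ℝ, S = {b | 0 < b ∧ ∀ b', b < b' → g b' = 0} := ⟨_, rfl⟩
  have hmem : b1 ∈ S := by
    rw [hS]
    exact ⟨hb1, fun b' hb' => h1 b' hb'.le⟩
  have hlow : ∀ b ∈ S, b0 ≤ b := by
    intro b hb
    rw [hS] at hb
    by_contra hlt
    push Not at hlt
    obtain ⟨c, hc1, hc2⟩ := exists_between hlt
    exact h0 c (hb.1.trans hc1) hc2 (hb.2 c hc1)
  have hbdd : BddBelow S := ⟨b0, hlow⟩
  have hne : S.Nonempty := ⟨b1, hmem⟩
  have hz : ∀ b, sInf S < b → g b = 0 := by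
    intro b hb
    obtain ⟨s, hs, hsb⟩ := exists_lt_of_csInf_lt hne hb
    rw [hS] at hs
    exact hs.2 b hsb
  have hge : b0 ≤ sInf S := le_csInf hne hlow
  refine ⟨sInf S, hge, csInf_le hbdd hmem, hz, fun han => ?_⟩
  rcases han.eventually_eq_zero_or_eventually_ne_zero with h | h
  · obtain ⟨ε, hε, h⟩ := Metric.eventually_nhds_iff.1 h
    obtain ⟨δ, hδ⟩ : ∃ δ, δ = min (ε / 2) (sInf S / 2) := ⟨_, rfl⟩
    have hpos : 0 < sInf S := hb0.trans_le hge
    have hδ0 : 0 < δ := by rw [hδ]; exact lt_min (by linarith) (by linarith)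
    have hδ1 : δ ≤ ε / 2 := by rw [hδ]; exact min_le_left _ _
    have hδ2 : δ ≤ sInf S / 2 := by rw [hδ]; exact min_le_right _ _
    have h2 : sInf S - δ ∈ S := by
      rw [hS]
      rw [hS] at hδ2 hz h hpos
      refine ⟨by linarith, fun b' hb' => ?_⟩
      rcases lt_or_ge (sInf {b | 0 < b ∧ ∀ b', b < b' → g b' = 0}) b' with hb | hb
      · exact hz b' hb
      · refine h ?_
        rw [Real.dist_eq, abs_lt]
        constructor <;> linarith
    have := csInf_le hbdd h2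
    linarith
  · have h2 : ∀ᶠ z in 𝓝[>] (sInf S), g z ≠ 0 :=
      h.filter_mono (nhdsWithin_mono _ fun z hz => ne_of_gt hz)
    have h3 : ∀ᶠ z in 𝓝[>] (sInf S), sInf S < z := eventually_mem_nhdsWithin
    obtain ⟨z, hz1, hz2⟩ := (h2.and h3).exists
    exact hz1 (hz z hz2)

/-- bounded analytic functions are locally Lipschitz, uniformly -/
lemma lip {f : ℂ → ℂ} {z0 : ℂ} {r M : ℝ} (hr : 0 < r) (hf : DifferentiableOn ℂ f (ball z0 (2 * r)))
    (hM : ∀ z ∈ ball z0 (2 * r), ‖f z‖ ≤ M) {z w : ℂ} (hz : z ∈ ball z0 r) (hw : w ∈ ball z0 r) :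
    ‖f z - f w‖ ≤ 2 * M / r * ‖z - w‖ := by
  have hd : ∀ y ∈ ball z0 r, ‖deriv f y‖ ≤ 2 * M / r := by
    intro y hy
    have hsub : closedBall y (r / 2) ⊆ ball z0 (2 * r) := by
      intro u hu
      rw [mem_closedBall] at hu
      rw [mem_ball] at hy ⊢
      calc dist u z0 ≤ dist u y + dist y z0 := dist_triangle _ _ _
        _ < 2 * r := by linarith
    have h1 : DiffContOnCl ℂ f (ball y (r / 2)) :=
      DifferentiableOn.diffContOnCl (hf.mono (by
        rw [closure_ball y (by linarith : r / 2 ≠ 0)]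
        exact hsub))
    have h2 := Complex.norm_deriv_le_of_forall_mem_sphere_norm_le (by linarith : 0 < r / 2) h1
      fun z hz => hM z (hsub (sphere_subset_closedBall hz))
    refine h2.trans (le_of_eq ?_)
    field_simp
  have hsub : ball z0 r ⊆ ball z0 (2 * r) := ball_subset_ball (by linarith)
  exact (convex_ball z0 r).norm_image_sub_le_of_norm_deriv_le
    (fun y hy => (hf y (hsub hy)).differentiableAt (isOpen_ball.mem_nhds (hsub hy))) hd hw hz

/-- **Vitali's theorem**, in the form of the propagation of smallness. -/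
lemma vitali {Ω : Set ℂ} (hΩ : IsOpen Ω) (hc : IsPreconnected Ω) {h : ℕ → ℂ → ℂ} {M : ℝ}
    (hd : ∀ k, DifferentiableOn ℂ (h k) Ω) (hM : ∀ k, ∀ z ∈ Ω, ‖h k z‖ ≤ M) {b1 : ℝ}
    (hb1 : (b1 : ℂ) ∈ Ω)
    (hz : ∀ b : ℝ, b1 ≤ b → (b : ℂ) ∈ Ω → Tendsto (fun k => h k (b : ℂ)) atTop (𝓝 0)) {z0 : ℂ}
    (hz0 : z0 ∈ Ω) : Tendsto (fun k => h k z0) atTop (𝓝 0) := by
  rw [tendsto_iff_ultrafilter]
  intro 𝒰 h𝒰
  have hM0 : 0 ≤ M := (norm_nonneg _).trans (hM 0 z0 hz0)
  have hlim : ∀ z : ℂ, ∃ y : ℂ, z ∈ Ω → Tendsto (fun k => h k z) 𝒰 (𝓝 y) := by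
    intro z
    by_cases hzΩ : z ∈ Ω
    · obtain ⟨y, -, hy⟩ := (isCompact_closedBall (0 : ℂ) M).ultrafilter_le_nhds
        (𝒰.map fun k => h k z) (by
          rw [Ultrafilter.coe_map]
          refine le_principal_iff.2 ?_
          refine mem_map.2 (Filter.Eventually.of_forall fun k => ?_)
          show h k z ∈ closedBall 0 M
          rw [mem_closedBall_zero_iff]
          exact hM k z hzΩ)
      exact ⟨y, fun _ => hy⟩
    · exact ⟨0, fun hh => absurd hh hzΩ⟩
  choose H hH using hlim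
  have hloc : TendstoLocallyUniformlyOn h H 𝒰 Ω := by
    rw [Metric.tendstoLocallyUniformlyOn_iff]
    intro ε hε z hzΩ
    obtain ⟨ρ, hρ, hball⟩ := Metric.isOpen_iff.1 hΩ z hzΩ
    obtain ⟨r, hr⟩ : ∃ r, r = ρ / 2 := ⟨_, rfl⟩
    have hr0 : 0 < r := by rw [hr]; linarith
    have hball' : ball z (2 * r) ⊆ Ω := by
      have : 2 * r = ρ := by rw [hr]; ring
      rw [this]; exact hball
    obtain ⟨A, hA⟩ : ∃ A, A = 2 * M / r + 1 := ⟨_, rfl⟩
    have hA0 : 0 < A := by rw [hA]; positivity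
    obtain ⟨δ, hδ⟩ : ∃ δ, δ = min r (ε / (4 * A)) := ⟨_, rfl⟩
    have hδ0 : 0 < δ := by rw [hδ]; exact lt_min hr0 (by positivity)
    have hδr : δ ≤ r := by rw [hδ]; exact min_le_left _ _
    have hδε : A * δ ≤ ε / 4 := by
      have : δ ≤ ε / (4 * A) := by rw [hδ]; exact min_le_right _ _
      calc A * δ ≤ A * (ε / (4 * A)) := mul_le_mul_of_nonneg_left this hA0.le
        _ = ε / 4 := by field_simp
    have hlip : ∀ k, ∀ w ∈ ball z δ, ‖h k w - h k z‖ ≤ ε / 4 := by
      intro k w hw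
      have h1 := lip hr0 ((hd k).mono hball') (fun y hy => hM k y (hball' hy))
        (ball_subset_ball hδr hw) (mem_ball_self hr0)
      rw [mem_ball, dist_eq_norm] at hw
      refine h1.trans (le_trans ?_ hδε)
      refine mul_le_mul (by rw [hA]; linarith) hw.le (norm_nonneg _) hA0.le
    have hlipH : ∀ w ∈ ball z δ, ‖H w - H z‖ ≤ ε / 4 := by
      intro w hw
      have hwΩ : w ∈ Ω := hball' (ball_subset_ball (by linarith) hw)
      exact le_of_tendsto ((hH w hwΩ).sub (hH z hzΩ)).norm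
        (Eventually.of_forall fun k => hlip k w hw)
    have hz1 : ∀ᶠ k in (𝒰 : Filter ℕ), ‖h k z - H z‖ < ε / 4 := by
      have := (hH z hzΩ)
      rw [Metric.tendsto_nhds] at this
      filter_upwards [this (ε / 4) (by linarith)] with k hk
      rwa [dist_eq_norm] at hk
    refine ⟨ball z δ, mem_nhdsWithin_of_mem_nhds (ball_mem_nhds z hδ0), ?_⟩
    filter_upwards [hz1] with k hk w hw
    have e1 := hlip k w hw
    have e2 := hlipH w hw
    rw [dist_eq_norm]
    have e3 : H w - h k w = (H w - H z) - (h k z - H z) - (h k w - h k z) := by ring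
    rw [e3]
    calc ‖(H w - H z) - (h k z - H z) - (h k w - h k z)‖
        ≤ ‖(H w - H z) - (h k z - H z)‖ + ‖h k w - h k z‖ := norm_sub_le _ _
      _ ≤ ‖H w - H z‖ + ‖h k z - H z‖ + ‖h k w - h k z‖ := by
          gcongr
          exact norm_sub_le _ _
      _ < ε := by linarith
  have hHd : DifferentiableOn ℂ H Ω := hloc.differentiableOn (Eventually.of_forall hd) hΩ
  have hHa : AnalyticOnNhd ℂ H Ω := hHd.analyticOnNhd hΩ
  have hfreq : ∃ᶠ z in 𝓝[≠] (b1 : ℂ), H z = 0 := by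
    have h1 : Tendsto (fun t : ℝ => (t : ℂ)) (𝓝[>] b1) (𝓝[≠] (b1 : ℂ)) := by
      refine tendsto_nhdsWithin_iff.2 ⟨?_, ?_⟩
      · exact (Complex.continuous_ofReal.tendsto b1).mono_left nhdsWithin_le_nhds
      · filter_upwards [self_mem_nhdsWithin] with t ht
        intro hh
        have : (t : ℂ) = (b1 : ℂ) := hh
        have : t = b1 := by exact_mod_cast this
        exact absurd this (ne_of_gt ht)
    refine h1.frequently (Eventually.frequently ?_)
    have h2 : ∀ᶠ t : ℝ in 𝓝[>] b1, (t : ℂ) ∈ Ω :=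
      ((Complex.continuous_ofReal.tendsto b1).mono_left nhdsWithin_le_nhds).eventually
        (hΩ.mem_nhds hb1)
    filter_upwards [h2, self_mem_nhdsWithin] with t ht ht'
    exact tendsto_nhds_unique (hH _ ht) ((hz t (le_of_lt ht') ht).mono_left h𝒰)
  have h0 := hHa.eqOn_zero_of_preconnected_of_frequently_eq_zero hc hb1 hfreq
  have h1 := hH z0 hz0
  rw [h0 hz0] at h1
  exact h1

end Pool.Agent.T2H01.LN
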