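import Mathlib
import Pool.Agent.Y14.NoiseRP

/-!
# Exponential Gaussian domination across a plane of reflection
-/

open MeasureTheory Matrix Filter ProbabilityTheory
open scoped Matrix.Norms.Frobenius ContDiff Topology
open Pool.Agent.H906R3.YM Pool.Agent.W793.YM Pool.Agent.Y14

namespace Pool.Agent.T2H01.LN

set_option linter.unusedSectionVars false
set_option linter.unusedVariables false

noncomputable section

section gauss

variable {ι : Type*} [Fintype ι]

/-- the product of centred Gaussian measures of variance `v` -/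
def gm (ι : Type*) [Fintype ι] (v : NNReal) : Measure (ι → ℝ) :=
  Measure.pi fun _ => gaussianReal 0 v

instance (v : NNReal) : IsProbabilityMeasure (gm ι v) := by
  unfold gm; infer_instance

lemma cos_gm (v : NNReal) (z : ι → ℝ) :
    ∫ k, Real.cos (∑ i, k i * z i) ∂(gm ι v) = Real.exp (-((v : ℝ) / 2 * ∑ i, z i ^ 2)) := by
  have h1 : ∫ k, Complex.exp ((∑ i, k i * z i : ℝ) * Complex.I) ∂(gm ι v) =
      Complex.exp (-((v : ℝ) / 2 * ∑ i, z i ^ 2 : ℝ)) := by
    have e1 : ∀ k : ι → ℝ, Complex.exp ((∑ i, k i * z i : ℝ) * Complex.I) =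
        ∏ i, Complex.exp ((z i : ℂ) * (k i : ℂ) * Complex.I) := by
      intro k
      rw [← Complex.exp_sum]
      congr 1
      push_cast
      rw [Finset.sum_mul]
      exact Finset.sum_congr rfl fun i _ => by ring
    simp only [e1]
    unfold gm
    have h2 := integral_fintype_prod_eq_prod (ι := ι) (𝕜 := ℂ)
      (f := fun i (x : ℝ) => Complex.exp ((z i : ℂ) * (x : ℂ) * Complex.I))
      (μ := fun _ => gaussianReal 0 v)
    rw [h2]
    have h3 : ∀ i, ∫ x : ℝ, Complex.exp ((z i : ℂ) * (x : ℂ) * Complex.I) ∂(gaussianReal 0 v) =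
        Complex.exp (-((v : ℝ) / 2 * z i ^ 2 : ℝ)) := by
      intro i
      rw [← charFun_apply_real, charFun_gaussianReal]
      congr 1
      push_cast
      ring
    simp only [h3]
    rw [← Complex.exp_sum]
    congr 1
    push_cast
    rw [Finset.mul_sum, Finset.sum_neg_distrib]
  have h2 := congrArg Complex.re h1
  rw [← Complex.ofReal_neg, ← Complex.ofReal_exp, Complex.ofReal_re] at h2
  rw [← h2]
  have hi : Integrable (fun k : ι → ℝ => Complex.exp ((∑ i, k i * z i : ℝ) * Complex.I))
      (gm ι v) := by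
    refine Integrable.of_bound (C := 1) ?_ (Filter.Eventually.of_forall fun k => ?_)
    · refine Continuous.aestronglyMeasurable ?_
      fun_prop
    · rw [Complex.norm_exp_ofReal_mul_I]
  have h3 := (Complex.reCLM.integral_comp_comm hi)
  simp only [Complex.reCLM_apply] at h3
  rw [← h3]
  refine integral_congr_ae (Filter.Eventually.of_forall fun k => ?_)
  simp only
  rw [Complex.exp_ofReal_mul_I_re]

end gauss

variable {E : Type*} [Fintype E] [DecidableEq E] {G : Type*} [Group G] [TopologicalSpace G]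
  [IsTopologicalGroup G] [CompactSpace G] [SecondCountableTopology G] [MeasurableSpace G]
  [BorelSpace G] (μ : Measure G) [IsProbabilityMeasure μ] [μ.IsMulLeftInvariant]
  [μ.IsMulRightInvariant] [μ.IsInvInvariant] {N n : ℕ} {L : LD G N n} (T : Refl E)

lemma cv_tU' (U : E → G) : cv L T (T.tU (T.tU U)) = cv L T U := by rw [T.tU_tU]

/-- the Fourier transform of the measure is nonnegative -/
lemma four {w : (E → G) → ℝ} (hw : Continuous w) (hd : Dep T.R w) (k : Ix T N → ℝ) (a : ℝ) :
    ∫ U, w U * w (T.tU U) * Real.cos (∑ i, k i * (cv L T U i - cv L T (T.tU U) i) - a) ∂(ME μ E) ≤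
      ∫ U, w U * w (T.tU U) * Real.cos (∑ i, k i * (cv L T U i - cv L T (T.tU U) i)) ∂(ME μ E) := by
  obtain ⟨p, hp⟩ : ∃ p : (E → G) → ℝ, p = fun U => ∑ i, k i * cv L T U i := ⟨_, rfl⟩
  have hpc : Continuous p := by
    rw [hp]
    exact continuous_finsetSum _ fun i _ =>
      continuous_const.mul ((continuous_apply i).comp (cv_cont T))
  have hpd : ∀ U U', (∀ e, T.R e → U e = U' e) → p U = p U' := by
    intro U U' h
    rw [hp]
    simp only
    rw [cv_dep T U U' h]
  have hA : ∀ {f : ℝ → ℝ}, Continuous f → Continuous (fun U => w U * f (p U)) := fun hf =>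
    hw.mul (hf.comp hpc)
  have hAd : ∀ {f : ℝ → ℝ}, Dep T.R (fun U => w U * f (p U)) := by
    intro f U U' h
    show w U * f (p U) = w U' * f (p U')
    rw [hd U U' h, hpd U U' h]
  have hc := hA Real.continuous_cos
  have hs := hA Real.continuous_sin
  have e0 : ∀ U, ∑ i, k i * (cv L T U i - cv L T (T.tU U) i) = p U - p (T.tU U) := by
    intro U
    rw [hp]
    simp only
    rw [← Finset.sum_sub_distrib]
    exact Finset.sum_congr rfl fun i _ => by ring
  simp only [e0]
  have q1 := T.sq μ (A := fun U => w U * Real.cos (p U)) hAd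
  have q2 := T.sq μ (A := fun U => w U * Real.sin (p U)) hAd
  have q3 : ∫ U, (w U * Real.sin (p U)) * (w (T.tU U) * Real.cos (p (T.tU U))) ∂(ME μ E) =
      (∫ U, w U * Real.sin (p U) ∂(ME μ E)) * ∫ U, w U * Real.cos (p U) ∂(ME μ E) := by
    rw [integral_indep μ T.R (hAd (f := Real.sin))
      (T.dep (A := fun U => w U * Real.cos (p U)) hAd),
      T.integral μ (fun U => w U * Real.cos (p U))]
  have q4 : ∫ U, (w U * Real.cos (p U)) * (w (T.tU U) * Real.sin (p (T.tU U))) ∂(ME μ E) =
      (∫ U, w U * Real.cos (p U) ∂(ME μ E)) * ∫ U, w U * Real.sin (p U) ∂(ME μ E) := by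
    rw [integral_indep μ T.R (hAd (f := Real.cos))
      (T.dep (A := fun U => w U * Real.sin (p U)) hAd),
      T.integral μ (fun U => w U * Real.sin (p U))]
  obtain ⟨I, hI⟩ : ∃ I, I = (∫ U, w U * Real.cos (p U) ∂(ME μ E)) ^ 2 +
    (∫ U, w U * Real.sin (p U) ∂(ME μ E)) ^ 2 := ⟨_, rfl⟩
  have hI0 : 0 ≤ I := by rw [hI]; positivity
  have i1 : Integrable (fun U => (w U * Real.cos (p U)) * (w (T.tU U) * Real.cos (p (T.tU U))))
      (ME μ E) := integrable_cont μ (hc.mul (hc.comp T.tU_cont))
  have i2 : Integrable (fun U => (w U * Real.sin (p U)) * (w (T.tU U) * Real.sin (p (T.tU U))))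
      (ME μ E) := integrable_cont μ (hs.mul (hs.comp T.tU_cont))
  have i3 : Integrable (fun U => (w U * Real.sin (p U)) * (w (T.tU U) * Real.cos (p (T.tU U))))
      (ME μ E) := integrable_cont μ (hs.mul (hc.comp T.tU_cont))
  have i4 : Integrable (fun U => (w U * Real.cos (p U)) * (w (T.tU U) * Real.sin (p (T.tU U))))
      (ME μ E) := integrable_cont μ (hc.mul (hs.comp T.tU_cont))
  have key : ∀ a : ℝ, ∫ U, w U * w (T.tU U) * Real.cos (p U - p (T.tU U) - a) ∂(ME μ E) =
      Real.cos a * I := by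
    intro a
    have e1 : ∀ U, w U * w (T.tU U) * Real.cos (p U - p (T.tU U) - a) =
        Real.cos a * ((w U * Real.cos (p U)) * (w (T.tU U) * Real.cos (p (T.tU U))) +
          (w U * Real.sin (p U)) * (w (T.tU U) * Real.sin (p (T.tU U)))) +
        Real.sin a * ((w U * Real.sin (p U)) * (w (T.tU U) * Real.cos (p (T.tU U))) -
          (w U * Real.cos (p U)) * (w (T.tU U) * Real.sin (p (T.tU U)))) := by
      intro U
      rw [Real.cos_sub (p U - p (T.tU U)) a, Real.cos_sub, Real.sin_sub]
      ring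
    simp only [e1]
    have i5 : Integrable (fun U => Real.cos a * ((w U * Real.cos (p U)) * (w (T.tU U) *
        Real.cos (p (T.tU U))) + (w U * Real.sin (p U)) * (w (T.tU U) * Real.sin (p (T.tU U)))))
        (ME μ E) := (i1.add i2).const_mul _
    have i6 : Integrable (fun U => Real.sin a * ((w U * Real.sin (p U)) * (w (T.tU U) *
        Real.cos (p (T.tU U))) - (w U * Real.cos (p U)) * (w (T.tU U) * Real.sin (p (T.tU U)))))
        (ME μ E) := (i3.sub i4).const_mul _
    rw [integral_add i5 i6, integral_const_mul,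
      integral_const_mul, integral_add i1 i2, integral_sub i3 i4, q1, q2, q3, q4, hI]
    ring
  have k0 := key 0
  simp only [sub_zero, Real.cos_zero, one_mul] at k0
  rw [key a, k0]
  have := Real.cos_le_one a
  nlinarith

/-- Gaussian domination in terms of the shifted kernel -/
lemma gd_kernel (β : NNReal) {w : (E → G) → ℝ} (hw : Continuous w) (hd : Dep T.R w)
    (h : Ix T N → ℝ) :
    ∫ U, w U * w (T.tU U) * Real.exp (-((β : ℝ) / 2 *
      ∑ i, (cv L T U i - cv L T (T.tU U) i - h i) ^ 2)) ∂(ME μ E) ≤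
    ∫ U, w U * w (T.tU U) * Real.exp (-((β : ℝ) / 2 *
      ∑ i, (cv L T U i - cv L T (T.tU U) i) ^ 2)) ∂(ME μ E) := by
  have cx : ∀ i, Continuous fun U : E → G => cv L T U i - cv L T (T.tU U) i := fun i =>
    ((continuous_apply i).comp (cv_cont T)).sub
      ((continuous_apply i).comp ((cv_cont T).comp T.tU_cont))
  obtain ⟨B, hB⟩ : ∃ B, ∀ U, |w U| ≤ B := by
    obtain ⟨B, hB⟩ := (isCompact_univ.image hw.norm).bddAbove
    exact ⟨B, fun U => hB ⟨U, trivial, rfl⟩⟩
  have hB0 : 0 ≤ B := (abs_nonneg _).trans (hB 1)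
  have key : ∀ h : Ix T N → ℝ, ∫ U, w U * w (T.tU U) * Real.exp (-((β : ℝ) / 2 *
      ∑ i, (cv L T U i - cv L T (T.tU U) i - h i) ^ 2)) ∂(ME μ E) =
      ∫ k, ∫ U, w U * w (T.tU U) * Real.cos (∑ i, k i * (cv L T U i - cv L T (T.tU U) i) -
        ∑ i, k i * h i) ∂(ME μ E) ∂(gm (Ix T N) β) := by
    intro h
    have hint : Integrable (fun z : (Ix T N → ℝ) × (E → G) => w z.2 * w (T.tU z.2) *
        Real.cos (∑ i, z.1 i * (cv L T z.2 i - cv L T (T.tU z.2) i) - ∑ i, z.1 i * h i))
        ((gm (Ix T N) β).prod (ME μ E)) := by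
      refine Integrable.of_bound (C := B * B) ?_ (Filter.Eventually.of_forall fun z => ?_)
      · refine Continuous.aestronglyMeasurable ?_
        refine ((hw.comp continuous_snd).mul ((hw.comp T.tU_cont).comp continuous_snd)).mul ?_
        refine Real.continuous_cos.comp (Continuous.sub ?_ ?_)
        · exact continuous_finsetSum _ fun i _ =>
            ((continuous_apply i).comp continuous_fst).mul ((cx i).comp continuous_snd)
        · exact continuous_finsetSum _ fun i _ =>
            ((continuous_apply i).comp continuous_fst).mul continuous_const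
      · rw [norm_mul, norm_mul, Real.norm_eq_abs, Real.norm_eq_abs, Real.norm_eq_abs]
        have h1 := Real.abs_cos_le_one (∑ i, z.1 i * (cv L T z.2 i - cv L T (T.tU z.2) i) -
          ∑ i, z.1 i * h i)
        have h2 : |w z.2| * |w (T.tU z.2)| ≤ B * B :=
          mul_le_mul (hB _) (hB _) (abs_nonneg _) hB0
        calc _ ≤ B * B * 1 := mul_le_mul h2 h1 (abs_nonneg _) (by positivity)
          _ = _ := mul_one _
    rw [integral_integral_swap hint]
    refine integral_congr_ae (Filter.Eventually.of_forall fun U => ?_)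
    simp only
    rw [integral_const_mul]
    congr 1
    rw [← cos_gm]
    refine integral_congr_ae (Filter.Eventually.of_forall fun k => ?_)
    simp only
    rw [← Finset.sum_sub_distrib]
    congr 1
    exact Finset.sum_congr rfl fun i _ => by ring
  have k0 := key 0
  simp only [Pi.zero_apply, sub_zero, mul_zero, Finset.sum_const_zero] at k0
  rw [key h, k0]
  have hm : ∀ h : Ix T N → ℝ, Integrable (fun k : Ix T N → ℝ => ∫ U, w U * w (T.tU U) *
      Real.cos (∑ i, k i * (cv L T U i - cv L T (T.tU U) i) -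
        ∑ i, k i * h i) ∂(ME μ E)) (gm (Ix T N) β) := by
    intro h
    have hint : Integrable (fun z : (Ix T N → ℝ) × (E → G) => w z.2 * w (T.tU z.2) *
        Real.cos (∑ i, z.1 i * (cv L T z.2 i - cv L T (T.tU z.2) i) - ∑ i, z.1 i * h i))
        ((gm (Ix T N) β).prod (ME μ E)) := by
      refine Integrable.of_bound (C := B * B) ?_ (Filter.Eventually.of_forall fun z => ?_)
      · refine Continuous.aestronglyMeasurable ?_
        refine ((hw.comp continuous_snd).mul ((hw.comp T.tU_cont).comp continuous_snd)).mul ?_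
        refine Real.continuous_cos.comp (Continuous.sub ?_ ?_)
        · exact continuous_finsetSum _ fun i _ =>
            ((continuous_apply i).comp continuous_fst).mul ((cx i).comp continuous_snd)
        · exact continuous_finsetSum _ fun i _ =>
            ((continuous_apply i).comp continuous_fst).mul continuous_const
      · rw [norm_mul, norm_mul, Real.norm_eq_abs, Real.norm_eq_abs, Real.norm_eq_abs]
        have h1 := Real.abs_cos_le_one (∑ i, z.1 i * (cv L T z.2 i - cv L T (T.tU z.2) i) -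
          ∑ i, z.1 i * h i)
        have h2 : |w z.2| * |w (T.tU z.2)| ≤ B * B :=
          mul_le_mul (hB _) (hB _) (abs_nonneg _) hB0
        calc _ ≤ B * B * 1 := mul_le_mul h2 h1 (abs_nonneg _) (by positivity)
          _ = _ := mul_one _
    exact hint.integral_prod_left
  have hm0 := hm 0
  simp only [Pi.zero_apply, mul_zero, Finset.sum_const_zero, sub_zero] at hm0
  exact integral_mono (hm h) hm0 fun k => four μ T hw hd k _

/-- the coordinates of unitary matrices lie on a sphere -/
lemma cv_sq (U : E → G) : ∑ i, cv L T U i ^ 2 = (T.J.card : ℝ) * N := by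
  rw [Fintype.sum_prod_type]
  have h1 : ∀ e : {e // e ∈ T.J}, ∑ c, cv L T U (e, c) ^ 2 = N := by
    intro e
    have h2 := sum_co_sq (L.rho (U e.1))
    have h3 : (trace ((L.rho (U e.1))ᴴ * L.rho (U e.1))).re = N := by
      rw [L.unit', trace_one]; simp
    rw [h3] at h2
    exact h2
  simp only [h1]
  rw [Finset.sum_const, nsmul_eq_mul]
  simp

/-- **Exponential Gaussian domination**: the difference of the matrices on the two sides of a plane
of reflection is sub-Gaussian with the variance factor `1 / β` in every direction. -/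
theorem gd_exp {β : ℝ} (hβ : 0 ≤ β) {w : (E → G) → ℝ} (hw : Continuous w) (hd : Dep T.R w)
    (h : Ix T N → ℝ) :
    T.Ew μ L β w (fun U => Real.exp (β * ∑ i, h i * (cv L T U i - cv L T (T.tU U) i))) ≤
      Real.exp (β / 2 * ∑ i, h i ^ 2) * T.Ew μ L β w (fun _ => 1) := by
  obtain ⟨b, hb⟩ : ∃ b : NNReal, (b : ℝ) = β := ⟨⟨β, hβ⟩, rfl⟩
  have h1 := gd_kernel μ (L := L) T b hw hd h
  rw [hb] at h1
  obtain ⟨R, hR⟩ : ∃ R : ℝ, R = (T.J.card : ℝ) * N := ⟨_, rfl⟩
  have e1 : ∀ U : E → G, ∑ i, (cv L T U i - cv L T (T.tU U) i) ^ 2 = 2 * R - 2 * T.ker L U := by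
    intro U
    rw [ker_cv, hR]
    have q : ∑ i, (cv L T U i - cv L T (T.tU U) i) ^ 2 = ∑ i, cv L T U i ^ 2 +
        ∑ i, cv L T (T.tU U) i ^ 2 - 2 * ∑ i, cv L T U i * cv L T (T.tU U) i := by
      rw [Finset.mul_sum, ← Finset.sum_add_distrib, ← Finset.sum_sub_distrib]
      exact Finset.sum_congr rfl fun i _ => by ring
    rw [q, cv_sq, cv_sq]
    ring
  have e2 : ∀ U : E → G, ∑ i, (cv L T U i - cv L T (T.tU U) i - h i) ^ 2 =
      2 * R - 2 * T.ker L U - 2 * ∑ i, h i * (cv L T U i - cv L T (T.tU U) i) +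
        ∑ i, h i ^ 2 := by
    intro U
    rw [← e1 U, Finset.mul_sum, ← Finset.sum_sub_distrib, ← Finset.sum_add_distrib]
    exact Finset.sum_congr rfl fun i _ => by ring
  simp only [e1, e2] at h1
  obtain ⟨H, hH⟩ : ∃ H, H = ∑ i, h i ^ 2 := ⟨_, rfl⟩
  rw [← hH] at h1 ⊢
  have e3 : ∀ U : E → G, w U * w (T.tU U) * Real.exp (-(β / 2 * (2 * R - 2 * T.ker L U -
      2 * ∑ i, h i * (cv L T U i - cv L T (T.tU U) i) + H))) =
      (Real.exp (-(β * R)) * Real.exp (-(β / 2 * H))) *
      (Real.exp (β * ∑ i, h i * (cv L T U i - cv L T (T.tU U) i)) *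
        (w U * w (T.tU U) * Real.exp (β * T.ker L U))) := by
    intro U
    have : Real.exp (-(β / 2 * (2 * R - 2 * T.ker L U -
      2 * ∑ i, h i * (cv L T U i - cv L T (T.tU U) i) + H))) =
      Real.exp (-(β * R)) * Real.exp (-(β / 2 * H)) *
        Real.exp (β * ∑ i, h i * (cv L T U i - cv L T (T.tU U) i)) *
        Real.exp (β * T.ker L U) := by
      rw [← Real.exp_add, ← Real.exp_add, ← Real.exp_add]
      congr 1; ring
    rw [this]; ring
  have e4 : ∀ U : E → G, w U * w (T.tU U) * Real.exp (-(β / 2 * (2 * R - 2 * T.ker L U))) =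
      Real.exp (-(β * R)) * (1 * (w U * w (T.tU U) * Real.exp (β * T.ker L U))) := by
    intro U
    have : Real.exp (-(β / 2 * (2 * R - 2 * T.ker L U))) =
        Real.exp (-(β * R)) * Real.exp (β * T.ker L U) := by
      rw [← Real.exp_add]
      congr 1; ring
    rw [this]; ring
  simp only [e3, e4] at h1
  rw [integral_const_mul, integral_const_mul] at h1
  unfold Refl.Ew
  rw [mul_assoc] at h1
  have h2 := le_of_mul_le_mul_left h1 (Real.exp_pos _)
  have h3 := mul_le_mul_of_nonneg_left h2 (Real.exp_pos (β / 2 * H)).le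
  rw [← mul_assoc, ← Real.exp_add] at h3
  simpa using h3

end

end Pool.Agent.T2H01.LN
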