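import Mathlib
import Pool.Agent.H906R3.YM.Phi

/-!
# Operator norms and nets
-/

open Matrix Filter Module
open scoped Matrix.Norms.Frobenius Topology InnerProductSpace
open Pool.Agent.H906R3.YM

namespace Pool.Agent.T2H01.LN

set_option linter.unusedSectionVars false
set_option linter.unusedVariables false

noncomputable section

lemma exists_net (E : Type*) [NormedAddCommGroup E] [NormedSpace ℝ E] [FiniteDimensional ℝ E] :
    ∃ S : Finset E, S.card ≤ 5 ^ finrank ℝ E ∧ (∀ s ∈ S, ‖s‖ ≤ 1) ∧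
      ∀ v : E, ‖v‖ ≤ 1 → ∃ s ∈ S, ‖v - s‖ ≤ 1 / 2 := by
  classical
  obtain ⟨P, hP⟩ : ∃ P : ℕ → Prop, P = fun m => ∃ S : Finset E, S.card = m ∧ (∀ s ∈ S, ‖s‖ ≤ 1) ∧
    ∀ c ∈ S, ∀ d ∈ S, c ≠ d → 1 / 2 ≤ ‖c - d‖ := ⟨_, rfl⟩
  have hbd : ∀ S : Finset E, (∀ s ∈ S, ‖s‖ ≤ 1) →
      (∀ c ∈ S, ∀ d ∈ S, c ≠ d → 1 / 2 ≤ ‖c - d‖) → S.card ≤ 5 ^ finrank ℝ E := by
    intro S h1 h2
    have hinj : Function.Injective fun x : E => (2 : ℝ) • x := fun x y h =>
      smul_right_injective E (by norm_num : (2 : ℝ) ≠ 0) h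
    have h3 := Besicovitch.card_le_of_separated (S.image fun x : E => (2 : ℝ) • x) (by
      intro c hc
      obtain ⟨x, hx, rfl⟩ := Finset.mem_image.1 hc
      rw [norm_smul, Real.norm_of_nonneg (by norm_num : (0 : ℝ) ≤ 2)]
      have := h1 x hx
      linarith) (by
      intro c hc d hd hcd
      obtain ⟨x, hx, rfl⟩ := Finset.mem_image.1 hc
      obtain ⟨y, hy, rfl⟩ := Finset.mem_image.1 hd
      rw [← smul_sub, norm_smul, Real.norm_of_nonneg (by norm_num : (0 : ℝ) ≤ 2)]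
      have := h2 x hx y hy (fun h => hcd (by rw [h]))
      linarith)
    rwa [Finset.card_image_of_injective _ hinj] at h3
  have h0 : P 0 := by
    rw [hP]
    exact ⟨∅, rfl, fun s hs => absurd hs (Finset.notMem_empty s),
      fun s hs => absurd hs (Finset.notMem_empty s)⟩
  have hspec : P (Nat.findGreatest P (5 ^ finrank ℝ E)) :=
    Nat.findGreatest_spec (Nat.zero_le _) h0
  obtain ⟨m, hm⟩ : ∃ m, m = Nat.findGreatest P (5 ^ finrank ℝ E) := ⟨_, rfl⟩
  rw [← hm] at hspec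
  have hmax : ∀ k, P k → k ≤ m := by
    intro k hk
    rw [hm]
    refine Nat.le_findGreatest ?_ hk
    rw [hP] at hk
    obtain ⟨S, h1, h2, h3⟩ := hk
    rw [← h1]
    exact hbd S h2 h3
  rw [hP] at hspec
  obtain ⟨S, h1, h2, h3⟩ := hspec
  refine ⟨S, hbd S h2 h3, h2, fun v hv => ?_⟩
  by_contra hcon
  push Not at hcon
  have hvS : v ∉ S := by
    intro hvS
    have := hcon v hvS
    rw [sub_self, norm_zero] at this
    linarith
  have h4 : P (m + 1) := by
    rw [hP]
    refine ⟨insert v S, by rw [Finset.card_insert_of_notMem hvS, h1], ?_, ?_⟩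
    · intro s hs
      rcases Finset.mem_insert.1 hs with h | h
      · rw [h]; exact hv
      · exact h2 s h
    · intro c hc d hd hcd
      rcases Finset.mem_insert.1 hc with h | h
      · rcases Finset.mem_insert.1 hd with h' | h'
        · exact absurd (h.trans h'.symm) hcd
        · rw [h]; exact (hcon d h').le
      · rcases Finset.mem_insert.1 hd with h' | h'
        · rw [h', norm_sub_rev]; exact (hcon c h).le
        · exact h3 c h d h' hcd
  have := hmax _ h4
  omega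

variable {N : ℕ}

/-- vectors -/
abbrev Ec (N : ℕ) := EuclideanSpace ℂ (Fin N)

/-- the operator of a matrix -/
def op (A : Mat N) : Ec N →L[ℂ] Ec N := Matrix.toEuclideanCLM (n := Fin N) (𝕜 := ℂ) A

/-- the operator norm -/
def opn (A : Mat N) : ℝ := ‖op A‖

lemma op_cont : Continuous (op : Mat N → _) := by
  have h : Continuous ((Matrix.toEuclideanCLM (n := Fin N) (𝕜 := ℂ)).toAlgEquiv.toLinearMap :
      Mat N → Ec N →L[ℂ] Ec N) := LinearMap.continuous_of_finiteDimensional _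
  exact h

lemma opn_cont : Continuous (opn : Mat N → ℝ) := op_cont.norm

lemma op_mul (A B : Mat N) : op (A * B) = op A * op B := map_mul _ _ _

lemma op_sub (A B : Mat N) : op (A - B) = op A - op B := map_sub _ _ _

lemma opn_nonneg (A : Mat N) : 0 ≤ opn A := norm_nonneg _

lemma opn_add (A B : Mat N) : opn (A + B) ≤ opn A + opn B := by
  unfold opn op
  rw [map_add]
  exact norm_add_le _ _

lemma opn_mul (A B : Mat N) : opn (A * B) ≤ opn A * opn B := by
  unfold opn
  rw [op_mul]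
  exact norm_mul_le _ _

lemma opn_unit {U : Mat N} (hU : Uᴴ * U = 1) : opn U ≤ 1 := by
  unfold opn
  refine ContinuousLinearMap.opNorm_le_bound _ zero_le_one fun v => ?_
  rw [one_mul]
  have h1 : star (op U) * op U = 1 := by
    unfold op
    rw [← map_star, ← map_mul, Matrix.star_eq_conjTranspose, hU, map_one]
  have h2 : ⟪op U v, op U v⟫_ℂ = ⟪v, v⟫_ℂ := by
    rw [← ContinuousLinearMap.adjoint_inner_left]
    have : (ContinuousLinearMap.adjoint (op U)) (op U v) = (star (op U) * op U) v := rfl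
    rw [this, h1]
    rfl
  have h3 : ‖op U v‖ ^ 2 = ‖v‖ ^ 2 := by
    have := congrArg Complex.re h2
    rw [← inner_self_eq_norm_sq (𝕜 := ℂ), ← inner_self_eq_norm_sq (𝕜 := ℂ)]
    exact this
  exact (pow_le_pow_iff_left₀ (norm_nonneg _) (norm_nonneg _) two_ne_zero).1 h3.le

lemma opn_mul_unit {A U : Mat N} (hU : Uᴴ * U = 1) (hU' : U * Uᴴ = 1) : opn (A * U) = opn A := by
  refine le_antisymm ?_ ?_
  · calc opn (A * U) ≤ opn A * opn U := opn_mul _ _
      _ ≤ opn A * 1 := mul_le_mul_of_nonneg_left (opn_unit hU) (opn_nonneg _)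
      _ = _ := mul_one _
  · have h1 : A = A * U * Uᴴ := by rw [mul_assoc, hU', mul_one]
    have h2 : opn Uᴴ ≤ 1 := opn_unit (by rw [conjTranspose_conjTranspose]; exact hU')
    calc opn A = opn (A * U * Uᴴ) := by rw [← h1]
      _ ≤ opn (A * U) * opn Uᴴ := opn_mul _ _
      _ ≤ opn (A * U) * 1 := mul_le_mul_of_nonneg_left h2 (opn_nonneg _)
      _ = _ := mul_one _

lemma opn_unit_mul {A U : Mat N} (hU : Uᴴ * U = 1) (hU' : U * Uᴴ = 1) : opn (U * A) = opn A := by
  refine le_antisymm ?_ ?_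
  · calc opn (U * A) ≤ opn U * opn A := opn_mul _ _
      _ ≤ 1 * opn A := mul_le_mul_of_nonneg_right (opn_unit hU) (opn_nonneg _)
      _ = _ := one_mul _
  · have h1 : A = Uᴴ * (U * A) := by rw [← mul_assoc, hU, one_mul]
    have h2 : opn Uᴴ ≤ 1 := opn_unit (by rw [conjTranspose_conjTranspose]; exact hU')
    calc opn A = opn (Uᴴ * (U * A)) := by rw [← h1]
      _ ≤ opn Uᴴ * opn (U * A) := opn_mul _ _
      _ ≤ 1 * opn (U * A) := mul_le_mul_of_nonneg_right h2 (opn_nonneg _)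
      _ = _ := one_mul _

lemma opn_neg (A : Mat N) : opn (-A) = opn A := by
  unfold opn op
  rw [map_neg, norm_neg]

/-- matrix elements in the net -/
lemma opn_net {S : Finset (Ec N)} (hS : ∀ v : Ec N, ‖v‖ ≤ 1 → ∃ s ∈ S, ‖v - s‖ ≤ 1 / 2)
    (A : Mat N) : ∃ v ∈ S, ∃ w ∈ S, opn A / 4 ≤ (⟪w, op A v⟫_ℂ).re := by
  obtain ⟨s0, hs0, _⟩ := hS 0 (by simp)
  obtain ⟨v, hv, hmax⟩ := S.exists_max_image (fun v => ‖op A v‖) ⟨s0, hs0⟩
  have h1 : opn A ≤ ‖op A v‖ + opn A / 2 := by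
    unfold opn
    refine ContinuousLinearMap.opNorm_le_bound _ (by positivity) fun u => ?_
    rcases eq_or_ne u 0 with hu | hu
    · subst hu; simp
    · have hu0 : 0 < ‖u‖ := norm_pos_iff.2 hu
      obtain ⟨u', hu'⟩ : ∃ u' : Ec N, u' = ((‖u‖⁻¹ : ℝ) : ℂ) • u := ⟨_, rfl⟩
      have hn : ‖u'‖ = 1 := by
        rw [hu', norm_smul, Complex.norm_real, norm_inv, norm_norm, inv_mul_cancel₀ hu0.ne']
      obtain ⟨s, hs, hd⟩ := hS u' hn.le
      have h2 : ‖op A u'‖ ≤ ‖op A v‖ + ‖op A‖ / 2 := by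
        have e : op A u' = op A s + op A (u' - s) := by rw [map_sub]; abel
        rw [e]
        refine (norm_add_le _ _).trans (add_le_add (hmax s hs) ?_)
        refine ((op A).le_opNorm _).trans ?_
        have := mul_le_mul_of_nonneg_left hd (norm_nonneg (op A))
        linarith
      have h3 : op A u = ((‖u‖ : ℝ) : ℂ) • op A u' := by
        rw [hu', map_smul, smul_smul, ← Complex.ofReal_mul, mul_inv_cancel₀ hu0.ne',
          Complex.ofReal_one, one_smul]
      rw [h3, norm_smul, Complex.norm_real, norm_norm, mul_comm]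
      exact mul_le_mul_of_nonneg_right h2 hu0.le
  have h2 : opn A / 2 ≤ ‖op A v‖ := by linarith
  obtain ⟨y, hy⟩ : ∃ y, y = op A v := ⟨_, rfl⟩
  rw [← hy] at h2
  rcases eq_or_ne y 0 with h0 | h0
  · refine ⟨v, hv, v, hv, ?_⟩
    rw [← hy, h0]
    rw [h0, norm_zero] at h2
    simp only [inner_zero_right, Complex.zero_re]
    linarith
  · have hy0 : 0 < ‖y‖ := norm_pos_iff.2 h0
    obtain ⟨u, hu⟩ : ∃ u : Ec N, u = ((‖y‖⁻¹ : ℝ) : ℂ) • y := ⟨_, rfl⟩
    have hn : ‖u‖ = 1 := by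
      rw [hu, norm_smul, Complex.norm_real, norm_inv, norm_norm, inv_mul_cancel₀ hy0.ne']
    obtain ⟨w, hw, hd⟩ := hS u hn.le
    refine ⟨v, hv, w, hw, ?_⟩
    rw [← hy]
    have e : (⟪w, y⟫_ℂ).re = (⟪u, y⟫_ℂ).re - (⟪u - w, y⟫_ℂ).re := by
      rw [inner_sub_left, Complex.sub_re]; ring
    have e2 : (⟪u, y⟫_ℂ).re = ‖y‖ := by
      rw [hu, inner_smul_left, Complex.conj_ofReal, Complex.re_ofReal_mul]
      have : (⟪y, y⟫_ℂ).re = ‖y‖ ^ 2 := inner_self_eq_norm_sq (𝕜 := ℂ) y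
      rw [this]
      field_simp
    have e3 : (⟪u - w, y⟫_ℂ).re ≤ ‖y‖ / 2 := by
      refine (Complex.re_le_norm _).trans ((norm_inner_le_norm _ _).trans ?_)
      have := mul_le_mul_of_nonneg_right hd hy0.le
      linarith
    rw [e, e2]
    linarith

/-- the matrix of a matrix element -/
def Hm (v w : Ec N) : Mat N := fun k l => w k * (starRingEnd ℂ) (v l)

lemma inner_op (v w : Ec N) (A : Mat N) :
    (⟪w, op A v⟫_ℂ).re = ∑ c, co c (Hm v w) * co c A := by
  have h1 : ∀ c (M : Mat N), co c M = if c.2.2 then (M c.1 c.2.1).re else (M c.1 c.2.1).im :=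
    fun c M => rfl
  simp only [h1]
  rw [Fintype.sum_prod_type]
  simp only [Fintype.sum_prod_type, Fintype.sum_bool, if_true, Bool.false_eq_true, if_false]
  rw [PiLp.inner_apply, Complex.re_sum]
  refine Finset.sum_congr rfl fun k _ => ?_
  have h2 : (op A v) k = ∑ l, A k l * v l := by
    unfold op
    rw [Matrix.ofLp_toEuclideanCLM]
    rfl
  rw [h2]
  simp only [RCLike.inner_apply]
  rw [Finset.sum_mul, Complex.re_sum]
  refine Finset.sum_congr rfl fun l _ => ?_
  unfold Hm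
  simp only [Complex.mul_re, Complex.mul_im, Complex.conj_re, Complex.conj_im]
  ring

lemma Hm_sq (v w : Ec N) : ∑ c, co c (Hm v w) ^ 2 = ‖w‖ ^ 2 * ‖v‖ ^ 2 := by
  have h1 : ∀ c (M : Mat N), co c M = if c.2.2 then (M c.1 c.2.1).re else (M c.1 c.2.1).im :=
    fun c M => rfl
  simp only [h1]
  rw [Fintype.sum_prod_type]
  simp only [Fintype.sum_prod_type, Fintype.sum_bool, if_true, Bool.false_eq_true, if_false]
  rw [EuclideanSpace.norm_sq_eq, EuclideanSpace.norm_sq_eq, Finset.sum_mul_sum]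
  refine Finset.sum_congr rfl fun k _ => Finset.sum_congr rfl fun l _ => ?_
  unfold Hm
  rw [← Complex.normSq_eq_norm_sq, ← Complex.normSq_eq_norm_sq, Complex.normSq_apply,
    Complex.normSq_apply]
  simp only [Complex.mul_re, Complex.mul_im, Complex.conj_re, Complex.conj_im]
  ring

end

end Pool.Agent.T2H01.LN
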