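import Mathlib
import Pool.Agent.T2H01.LN.GD
import Pool.Agent.T2H01.LN.Net
import Pool.Agent.Y14.PlaqB

/-!
# The operator norm of one plaquette variable
-/

open MeasureTheory Matrix Filter Module
open scoped Matrix.Norms.Frobenius Topology InnerProductSpace
open Pool.Agent.H906R3.YM hiding Pl
open Pool.Agent.W793.YM Pool.Agent.TH618.YM Pool.Agent.Y14

namespace Pool.Agent.T2H01.LN

set_option linter.unusedSectionVars false
set_option linter.unusedVariables false

noncomputable section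

variable {G : Type*} [Group G] [TopologicalSpace G] [IsTopologicalGroup G] [CompactSpace G]
  [SecondCountableTopology G] [MeasurableSpace G] [BorelSpace G] (μ : Measure G)
  [IsProbabilityMeasure μ] [μ.IsMulLeftInvariant] [μ.IsMulRightInvariant] [μ.IsInvInvariant]
  {N n : ℕ} {L : LD G N n}

section refl

variable {E : Type*} [Fintype E] [DecidableEq E] (T : Refl E)

/-- the matrix elements of the difference across the plane -/
lemma gd_inner {β : ℝ} (hβ : 0 ≤ β) {w : (E → G) → ℝ} (hw : Continuous w) (hd : Dep T.R w)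
    {e : E} (he : e ∈ T.J) (a b : Ec N) (s : ℝ) :
    T.Ew μ L β w (fun U => Real.exp (β * (s * (⟪b, op (L.rho (U e) - L.rho (U (T.th e))) a⟫_ℂ).re))) ≤
      Real.exp (β / 2 * (s ^ 2 * (‖b‖ ^ 2 * ‖a‖ ^ 2))) * T.Ew μ L β w (fun _ => 1) := by
  have h1 := gd_exp μ (L := L) T hβ hw hd
    (fun i => if i.1 = ⟨e, he⟩ then s * co i.2 (Hm a b) else 0)
  have e1 : ∀ U : E → G, ∑ i : Ix T N, (if i.1 = ⟨e, he⟩ then s * co i.2 (Hm a b) else 0) *
      (cv L T U i - cv L T (T.tU U) i) =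
      s * (⟪b, op (L.rho (U e) - L.rho (U (T.th e))) a⟫_ℂ).re := by
    intro U
    rw [Fintype.sum_prod_type, Finset.sum_eq_single (⟨e, he⟩ : {e // e ∈ T.J})]
    · rw [inner_op, Finset.mul_sum]
      refine Finset.sum_congr rfl fun c _ => ?_
      have h2 : cv L T (T.tU U) (⟨e, he⟩, c) = co c (L.rho (U (T.th e))) := by
        show co c (L.rho (T.tU U e)) = _
        unfold Refl.tU
        rw [if_neg (T.J_iv e he)]
      have h3 : cv L T U (⟨e, he⟩, c) = co c (L.rho (U e)) := rfl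
      rw [if_pos rfl, h2, h3, map_sub]
      ring
    · intro e' _ hne
      refine Finset.sum_eq_zero fun c _ => ?_
      rw [if_neg hne, zero_mul]
    · intro h; exact absurd (Finset.mem_univ _) h
  have e2 : ∑ i : Ix T N, (if i.1 = ⟨e, he⟩ then s * co i.2 (Hm a b) else 0) ^ 2 =
      s ^ 2 * (‖b‖ ^ 2 * ‖a‖ ^ 2) := by
    rw [Fintype.sum_prod_type, Finset.sum_eq_single (⟨e, he⟩ : {e // e ∈ T.J})]
    · rw [← Hm_sq, Finset.mul_sum]
      refine Finset.sum_congr rfl fun c _ => ?_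
      rw [if_pos rfl]
      ring
    · intro e' _ hne
      refine Finset.sum_eq_zero fun c _ => ?_
      rw [if_neg hne]
      ring
    · intro h; exact absurd (Finset.mem_univ _) h
  simp only [e1, e2] at h1
  exact h1

/-- the operator norm of the difference across the plane -/
lemma gd_opn {β : ℝ} (hβ : 0 ≤ β) {w : (E → G) → ℝ} (hw : Continuous w) (hd : Dep T.R w)
    (hw0 : ∀ U, 0 ≤ w U) {e : E} (he : e ∈ T.J) {F : (E → G) → ℝ} (hF : Continuous F) {t : ℝ}
    (ht : 0 ≤ t) (h1 : ∀ U, F U ≤ 1)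
    (h0 : ∀ U, opn (L.rho (U e) - L.rho (U (T.th e))) ≤ t → F U ≤ 0) :
    T.Ew μ L β w F ≤ 5 ^ (4 * N) * Real.exp (-(β * t ^ 2 / 32)) * T.Ew μ L β w (fun _ => 1) := by
  classical
  obtain ⟨S, hcard, hS1, hS⟩ := exists_net (Ec N)
  have hfin : finrank ℝ (Ec N) = 2 * N := by
    rw [finrank_real_of_complex, finrank_euclideanSpace_fin]
  rw [hfin] at hcard
  obtain ⟨s, hs⟩ : ∃ s, s = t / 4 := ⟨_, rfl⟩
  obtain ⟨X, hX⟩ : ∃ X : Ec N × Ec N → (E → G) → ℝ, X = fun p U =>
    Real.exp (-(β * (s * (t / 4)))) * Real.exp (β * (s *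
      (⟪p.2, op (L.rho (U e) - L.rho (U (T.th e))) p.1⟫_ℂ).re)) := ⟨_, rfl⟩
  have hXc : ∀ p, Continuous (X p) := by
    intro p
    rw [hX]
    refine continuous_const.mul (Real.continuous_exp.comp (continuous_const.mul
      (continuous_const.mul (Complex.continuous_re.comp ?_))))
    have c1 : Continuous fun U : E → G => op (L.rho (U e) - L.rho (U (T.th e))) :=
      op_cont.comp ((L.cont.comp (continuous_apply e)).sub (L.cont.comp (continuous_apply _)))
    exact Continuous.inner continuous_const (c1.clm_apply continuous_const)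
  have hpt : ∀ U, F U ≤ ∑ p ∈ S ×ˢ S, X p U := by
    intro U
    have hX0 : ∀ p ∈ S ×ˢ S, 0 ≤ X p U := fun p _ => by rw [hX]; positivity
    rcases le_or_gt (opn (L.rho (U e) - L.rho (U (T.th e)))) t with hc | hc
    · exact (h0 U hc).trans (Finset.sum_nonneg hX0)
    · obtain ⟨v, hv, u, hu, hvu⟩ := opn_net hS (L.rho (U e) - L.rho (U (T.th e)))
      refine (h1 U).trans (le_trans ?_ (Finset.single_le_sum hX0
        (Finset.mem_product.2 ⟨hv, hu⟩ : (v, u) ∈ S ×ˢ S)))
      rw [hX]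
      simp only
      rw [← Real.exp_add]
      refine Real.one_le_exp ?_
      have h2 : t / 4 ≤ (⟪u, op (L.rho (U e) - L.rho (U (T.th e))) v⟫_ℂ).re := by linarith
      have hs0 : 0 ≤ s := by rw [hs]; positivity
      have h3 := mul_le_mul_of_nonneg_left (mul_le_mul_of_nonneg_left h2 hs0) hβ
      linarith
  have hE1 : 0 ≤ T.Ew μ L β w (fun _ => 1) := by
    unfold Refl.Ew
    exact integral_nonneg fun U => by
      have := hw0 U
      have := hw0 (T.tU U)
      simp only [Pi.zero_apply]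
      positivity
  have hterm : ∀ p ∈ S ×ˢ S, T.Ew μ L β w (X p) ≤
      Real.exp (-(β * t ^ 2 / 32)) * T.Ew μ L β w (fun _ => 1) := by
    intro p hp
    rw [Finset.mem_product] at hp
    have h2 := gd_inner μ (L := L) T hβ hw hd he p.1 p.2 s
    rw [hX]
    simp only
    rw [T.Ew_smul μ (Real.exp (-(β * (s * (t / 4))))) (F := fun U : E → G => Real.exp (β * (s *
      (⟪p.2, op (L.rho (U e) - L.rho (U (T.th e))) p.1⟫_ℂ).re)))]
    have h3 := mul_le_mul_of_nonneg_left h2 (Real.exp_pos (-(β * (s * (t / 4))))).le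
    refine h3.trans ?_
    rw [← mul_assoc, ← Real.exp_add]
    refine mul_le_mul_of_nonneg_right (Real.exp_le_exp.2 ?_) hE1
    have h4 : ‖p.2‖ ^ 2 * ‖p.1‖ ^ 2 ≤ 1 := by
      have a1 : ‖p.2‖ ^ 2 ≤ 1 := pow_le_one₀ (norm_nonneg _) (hS1 _ hp.2)
      have a2 : ‖p.1‖ ^ 2 ≤ 1 := pow_le_one₀ (norm_nonneg _) (hS1 _ hp.1)
      exact mul_le_one₀ a1 (by positivity) a2
    have h5 : β / 2 * (s ^ 2 * (‖p.2‖ ^ 2 * ‖p.1‖ ^ 2)) ≤ β / 2 * s ^ 2 := by
      refine mul_le_mul_of_nonneg_left ?_ (by positivity)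
      exact mul_le_of_le_one_right (by positivity) h4
    rw [hs] at h5 ⊢
    nlinarith
  calc T.Ew μ L β w F ≤ T.Ew μ L β w (fun U => ∑ p ∈ S ×ˢ S, X p U) :=
        T.Ew_mono μ hw hw0 hF (continuous_finsetSum _ fun p _ => hXc p) hpt
    _ = ∑ p ∈ S ×ˢ S, T.Ew μ L β w (X p) := by
        rw [Ew_sum μ (L := L) T hw (S ×ˢ S) (F := X) hXc]
    _ ≤ ∑ p ∈ S ×ˢ S, Real.exp (-(β * t ^ 2 / 32)) * T.Ew μ L β w (fun _ => 1) :=
        Finset.sum_le_sum hterm
    _ = ((S ×ˢ S).card : ℝ) * (Real.exp (-(β * t ^ 2 / 32)) * T.Ew μ L β w (fun _ => 1)) := by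
        rw [Finset.sum_const, nsmul_eq_mul]
    _ ≤ 5 ^ (4 * N) * (Real.exp (-(β * t ^ 2 / 32)) * T.Ew μ L β w (fun _ => 1)) := by
        refine mul_le_mul_of_nonneg_right ?_ (mul_nonneg (Real.exp_pos _).le hE1)
        rw [Finset.card_product]
        push_cast
        have h2 : (S.card : ℝ) ≤ 5 ^ (2 * N) := by exact_mod_cast hcard
        calc (S.card : ℝ) * S.card ≤ 5 ^ (2 * N) * 5 ^ (2 * N) :=
              mul_le_mul h2 h2 (Nat.cast_nonneg _) (by positivity)
          _ = 5 ^ (4 * N) := by rw [← pow_add]; congr 1; ring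
    _ = _ := by ring

end refl

variable {d m : ℕ} [NeZero m]

/-- **The operator norm of a plaquette**: large deviations at the speed `N`. -/
theorem plaq_op (hm : 2 ≤ m) {β : ℝ} (hβ : 0 ≤ β) {i j : Fin d} (hij : i ≠ j)
    (x : Fin d → ZMod (2 * m)) {ψ : ℝ → ℝ} (hψ : Continuous ψ) {t : ℝ} (ht : 0 ≤ t)
    (h1 : ∀ r, ψ r ≤ 1) (h0 : ∀ r, r ≤ t → ψ r ≤ 0) :
    EX μ L β (fun U : Ed d (2 * m) → G => ψ (opn (1 - L.rho (plqT U x i j)))) ≤
      5 ^ (4 * N) * Real.exp (-(β * t ^ 2 / 32)) := by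
  have hx : EX μ L β (fun U : Ed d (2 * m) → G => ψ (opn (1 - L.rho (plqT U x i j)))) =
      EX μ L β (fun U : Ed d (2 * m) → G => ψ (opn (1 - L.rho (plqT U 0 i j)))) := by
    rw [← EX_tr μ x (fun U : Ed d (2 * m) → G => ψ (opn (1 - L.rho (plqT U 0 i j))))]
    simp only [plqT_tr, zero_add]
  rw [hx]
  obtain ⟨c, hc, hred⟩ := Zt_red μ (L := L) hm j β
  have hplc : Continuous fun U : Ed d (2 * m) → G => plqT U 0 i j := by
    unfold plqT
    fun_prop
  have hcont : Continuous fun U : Ed d (2 * m) → G => ψ (opn (1 - L.rho (plqT U 0 i j))) :=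
    hψ.comp (opn_cont.comp (continuous_const.sub (L.cont.comp hplc)))
  have hgi : GI fun U : Ed d (2 * m) → G => ψ (opn (1 - L.rho (plqT U 0 i j))) := fun γ U => by
    show ψ (opn (1 - L.rho (plqT (gt γ U) 0 i j))) = _
    rw [plqT_gt]
    congr 1
    have e1 : ∀ g h : G, (1 : Mat N) - L.rho (g * h * g⁻¹) =
        L.rho g * (1 - L.rho h) * L.rho g⁻¹ := by
      intro g h
      rw [mul_sub, sub_mul, mul_one, ← map_mul, mul_inv_cancel, map_one, map_mul, map_mul]
    rw [e1, opn_mul_unit (L.unit' _) (L.unit _), opn_unit_mul (L.unit' _) (L.unit _)]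
  have hgi1 : GI fun _ : Ed d (2 * m) → G => (1 : ℝ) := fun γ U => rfl
  unfold EX
  rw [div_le_iff₀ (Zt_pos μ β), hred _ hcont hgi, hred _ continuous_const hgi1]
  obtain ⟨e, he⟩ : ∃ e : Ed d (2 * m), e = ((0 + eT j : Fin d → ZMod (2 * m)), i) := ⟨_, rfl⟩
  have hJ : e ∈ (TR hm j).J := by
    rw [he]
    show _ ∈ Finset.univ.filter _
    rw [Finset.mem_filter]
    refine ⟨Finset.mem_univ _, hij, Or.inl ?_⟩
    simp only [add_same, Pi.zero_apply, zero_add]
  have h2 : ∀ U : Ed d (2 * m) → G, opn (1 - L.rho (plqT (fix j U) 0 i j)) =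
      opn (L.rho (U e) - L.rho (U ((TR hm j).th e))) := by
    intro U
    have h3 : plqT (fix j U) 0 i j = ((TR hm j).W U e)⁻¹ := by
      have h5 : rB j (0 : Fin d → ZMod (2 * m)) = 0 := by
        unfold rB
        simp
      have h4 : (TR hm j).W U e = U (0 + eT j, i) * (U (rA j (0 + eT j), i))⁻¹ := by
        rw [he]
        unfold Refl.W TR
        simp [hij]
      rw [h4, rA_eq', h5]
      unfold plqT
      rw [fix_i0' U 0 (Or.inl rfl), fix_i0' U _ (Or.inl (add_ne 0 hij)),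
        fix_ne _ _ hij, fix_ne _ _ hij]
      group
    rw [h3]
    have e1 : (1 : Mat N) - L.rho ((TR hm j).W U e)⁻¹ =
        (L.rho (U e) - L.rho (U ((TR hm j).th e))) * L.rho (U e)⁻¹ := by
      unfold Refl.W
      rw [sub_mul, ← map_mul, mul_inv_cancel, map_one, ← map_mul]
      congr 2
      group
    rw [e1, opn_mul_unit (L.unit' _) (L.unit _)]
  have h6 := gd_opn μ (L := L) (TR hm j) hβ (Sm_cont (wR L β m j)) (wR_dep hm β j)
    (wR_nonneg β j) hJ (F := fun U => ψ (opn (L.rho (U e) - L.rho (U ((TR hm j).th e)))))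
    (hψ.comp (opn_cont.comp ((L.cont.comp (continuous_apply e)).sub
      (L.cont.comp (continuous_apply _))))) ht (fun U => h1 _) (fun U hU => h0 _ hU)
  simp only [h2]
  calc _ ≤ c * (5 ^ (4 * N) * Real.exp (-(β * t ^ 2 / 32)) *
        (TR hm j).Ew μ L β (wR L β m j).1 (fun _ => 1)) := mul_le_mul_of_nonneg_left h6 hc.le
    _ = _ := by ring

end

end Pool.Agent.T2H01.LN
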