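import Mathlib
import Pool.Agent.T2H01.LN.PlaqOp
import Pool.Agent.T2H01.YM.Inf

/-!
# Infinite volume: the eigenvalues of the Wilson loops at weak coupling
-/

open MeasureTheory Matrix Filter Module
open scoped Matrix.Norms.Frobenius Topology InnerProductSpace ENNReal
open Pool.Agent.H906R3.YM hiding Pl
open Pool.Agent.W793.YM Pool.Agent.TH618.YM Pool.Agent.Y14 Pool.Agent.T2H01.YM

namespace Pool.Agent.T2H01.LN

set_option linter.unusedSectionVars false
set_option linter.unusedVariables false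

noncomputable section

/-! ### eigenvalues -/

section eig

variable {N : ℕ}

/-- eigenvectors of the roots of the characteristic polynomial -/
lemma exists_eigvec {A : Mat N} {z : ℂ} (hz : z ∈ A.charpoly.roots) :
    ∃ v : Ec N, v ≠ 0 ∧ op A v = z • v := by
  have h1 : A.charpoly.eval z = 0 := (Polynomial.mem_roots'.1 hz).2
  rw [Matrix.eval_charpoly] at h1
  obtain ⟨v, hv, h2⟩ := Matrix.exists_mulVec_eq_zero_iff.2 h1
  refine ⟨WithLp.toLp 2 v, ?_, ?_⟩
  · intro h
    apply hv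
    have := congrArg (WithLp.ofLp) h
    simpa using this
  · rw [Matrix.sub_mulVec, sub_eq_zero] at h2
    have h3 : (Matrix.scalar (Fin N) z) *ᵥ v = z • v := by
      funext a
      rw [Matrix.scalar_apply, Matrix.mulVec_diagonal]
      rfl
    unfold op
    rw [Matrix.toEuclideanCLM_toLp, ← h2, h3]
    rfl

lemma op_isom {U : Mat N} (hU : Uᴴ * U = 1) (v : Ec N) : ‖op U v‖ = ‖v‖ := by
  have h1 : star (op U) * op U = 1 := by
    unfold op
    rw [← map_star, ← map_mul, Matrix.star_eq_conjTranspose, hU, map_one]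
  have h2 : ⟪op U v, op U v⟫_ℂ = ⟪v, v⟫_ℂ := by
    rw [← ContinuousLinearMap.adjoint_inner_left]
    have : (ContinuousLinearMap.adjoint (op U)) (op U v) = (star (op U) * op U) v := rfl
    rw [this, h1]
    rfl
  have h3 : ‖op U v‖ ^ 2 = ‖v‖ ^ 2 := by
    have := congrArg Complex.re h2
    rw [← inner_self_eq_norm_sq (𝕜 := ℂ), ← inner_self_eq_norm_sq (𝕜 := ℂ)]
    exact this
  exact (pow_left_inj₀ (norm_nonneg _) (norm_nonneg _) two_ne_zero).1 h3

lemma eig_norm {U : Mat N} (hU : Uᴴ * U = 1) {z : ℂ} (hz : z ∈ U.charpoly.roots) : ‖z‖ = 1 := by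
  obtain ⟨v, hv, h⟩ := exists_eigvec hz
  have h1 := op_isom hU v
  rw [h, norm_smul] at h1
  have h2 : 0 < ‖v‖ := norm_pos_iff.2 hv
  exact mul_right_cancel₀ h2.ne' (by rw [h1, one_mul])

lemma eig_dist {U : Mat N} {z : ℂ} (hz : z ∈ U.charpoly.roots) : ‖1 - z‖ ≤ opn (1 - U) := by
  obtain ⟨v, hv, h⟩ := exists_eigvec hz
  have h2 : 0 < ‖v‖ := norm_pos_iff.2 hv
  have h3 : op (1 - U) v = (1 - z) • v := by
    rw [op_sub, _root_.sub_apply, h, sub_smul, one_smul]
    congr 1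
    unfold op
    rw [map_one]
    rfl
  have h4 := (op (1 - U)).le_opNorm v
  rw [h3, norm_smul] at h4
  exact le_of_mul_le_mul_right h4 h2

/-- the real part of an eigenvalue near 1 -/
lemma eig_re {U : Mat N} (hU : Uᴴ * U = 1) {z : ℂ} (hz : z ∈ U.charpoly.roots)
    (h : ‖1 - z‖ ^ 2 < 1) : 1 / 2 < z.re := by
  have h1 := eig_norm hU hz
  have h2 : ‖z‖ ^ 2 = z.re ^ 2 + z.im ^ 2 := by
    rw [← Complex.normSq_eq_norm_sq, Complex.normSq_apply]; ring
  have h3 : ‖1 - z‖ ^ 2 = (1 - z.re) ^ 2 + z.im ^ 2 := by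
    rw [← Complex.normSq_eq_norm_sq, Complex.normSq_apply]
    simp only [Complex.sub_re, Complex.one_re, Complex.sub_im, Complex.one_im]
    ring
  rw [h1] at h2
  rw [h3] at h
  nlinarith

/-- the number of the eigenvalues with the real part less than 1/2 -/
def cnt2 (U : Mat N) : ℕ := U.charpoly.roots.countP fun z => z.re < 1 / 2

lemma multi_re (s : Multiset ℂ) (hs : ∀ z ∈ s, ‖z‖ ≤ 1) :
    (Multiset.card s : ℝ) / 2 - 3 / 2 * (s.countP fun z => z.re < 1 / 2 : ℕ) ≤ s.sum.re := by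
  induction s using Multiset.induction with
  | empty => simp
  | cons a s ih =>
    have h1 := ih fun z hz => hs z (Multiset.mem_cons_of_mem hz)
    have h2 := hs a (Multiset.mem_cons_self a s)
    have h3 : -1 ≤ a.re := by
      have := Complex.abs_re_le_norm a
      have := abs_le.1 (this.trans h2)
      exact this.1
    rw [Multiset.card_cons, Multiset.sum_cons, Complex.add_re, Multiset.countP_cons]
    push_cast
    split_ifs with h
    · linarith
    · push Not at h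
      linarith

lemma card_roots (U : Mat N) : Multiset.card U.charpoly.roots = N := by
  have h1 : U.charpoly.Splits := IsAlgClosed.splits _
  have h2 := (Polynomial.splits_iff_card_roots.1 h1)
  rw [h2, Matrix.charpoly_natDegree_eq_dim, Fintype.card_fin]

lemma cnt2_le (U : Mat N) : cnt2 U ≤ N := by
  unfold cnt2
  refine (Multiset.countP_le_card _ _).trans ?_
  rw [card_roots]

lemma tr_cnt2 {U : Mat N} (hU : Uᴴ * U = 1) :
    (N : ℝ) / 2 - 3 / 2 * cnt2 U ≤ (trace U).re := by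
  have h1 := multi_re U.charpoly.roots fun z hz => (eig_norm hU hz).le
  rw [card_roots, ← Matrix.trace_eq_sum_roots_charpoly] at h1
  exact h1

lemma cnt2_zero {U : Mat N} (hU : Uᴴ * U = 1) (h : ∀ z ∈ U.charpoly.roots, ‖1 - z‖ ^ 2 < 1) :
    cnt2 U = 0 := by
  unfold cnt2
  rw [Multiset.countP_eq_zero]
  intro z hz
  have := eig_re hU hz (h z hz)
  exact not_lt.2 this.le

end eig

/-! ### loops -/

section loop

variable {G : Type*} [Group G] {d : ℕ}

/-- lines on `ℤ^d` -/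
def lnZ (V : LZ d → G) (i : Fin d) : ℕ → (Fin d → ℤ) → G
  | 0, _ => 1
  | k + 1, x => V (x, i) * lnZ V i k (x + Pi.single i 1)

/-- rectangular loops on `ℤ^d` -/
def lpZ (V : LZ d → G) (x : Fin d → ℤ) (i j : Fin d) (R T : ℕ) : G :=
  lnZ V i R x * lnZ V j T (x + Pi.single i (R : ℤ)) *
    (lnZ V i R (x + Pi.single j (T : ℤ)))⁻¹ * (lnZ V j T x)⁻¹

lemma single_add' (i : Fin d) (a b : ℤ) :
    (Pi.single i (a + b) : Fin d → ℤ) = Pi.single i a + Pi.single i b :=
  Pi.single_add (f := fun _ : Fin d => ℤ) i a b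

lemma lnZ_succ' (V : LZ d → G) (i : Fin d) (k : ℕ) (x : Fin d → ℤ) :
    lnZ V i (k + 1) x = lnZ V i k x * V (x + Pi.single i (k : ℤ), i) := by
  induction k generalizing x with
  | zero => simp [lnZ]
  | succ k ih =>
    rw [lnZ, ih]
    conv_rhs => rw [lnZ]
    rw [mul_assoc]
    congr 3
    rw [add_assoc, ← single_add']
    push_cast
    rw [add_comm (1 : ℤ)]

lemma lpZ_R (V : LZ d → G) (x : Fin d → ℤ) (i j : Fin d) (R T : ℕ) :
    lpZ V x i j (R + 1) T = (lnZ V i R x * lpZ V (x + Pi.single i (R : ℤ)) i j 1 T *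
      (lnZ V i R x)⁻¹) * lpZ V x i j R T := by
  unfold lpZ
  rw [lnZ_succ', lnZ_succ']
  have h1 : ∀ y, lnZ V i 1 y = V (y, i) := fun y => by simp [lnZ]
  rw [h1, h1]
  have h2 : x + Pi.single i ((R : ℤ)) + Pi.single i (((1 : ℕ) : ℤ)) =
      x + Pi.single i (((R + 1 : ℕ)) : ℤ) := by
    rw [add_assoc, ← single_add']; push_cast; rfl
  have h3 : x + Pi.single i ((R : ℤ)) + Pi.single j ((T : ℤ)) =
      x + Pi.single j ((T : ℤ)) + Pi.single i ((R : ℤ)) := by abel
  rw [h2, h3]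
  group

lemma lpZ_T (V : LZ d → G) (x : Fin d → ℤ) (i j : Fin d) (T : ℕ) :
    lpZ V x i j 1 (T + 1) = lpZ V x i j 1 T * (lnZ V j T x *
      plZ V (x + Pi.single j (T : ℤ)) i j * (lnZ V j T x)⁻¹) := by
  unfold lpZ plZ
  rw [lnZ_succ' V j T, lnZ_succ' V j T]
  have h1 : ∀ y, lnZ V i 1 y = V (y, i) := fun y => by simp [lnZ]
  rw [h1, h1, h1]
  have h2 : x + Pi.single j ((T : ℤ)) + Pi.single j (1 : ℤ) =
      x + Pi.single j (((T + 1 : ℕ)) : ℤ) := by
    rw [add_assoc, ← single_add']; push_cast; rfl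
  have h3 : x + Pi.single i (((1 : ℕ)) : ℤ) + Pi.single j ((T : ℤ)) =
      x + Pi.single j ((T : ℤ)) + Pi.single i 1 := by push_cast; abel
  rw [h2, h3]
  group

end loop

section dist

variable {G : Type*} [Group G] [TopologicalSpace G] {N n d : ℕ} (L : LD G N n)

/-- the distance to 1 -/
def D1 (g : G) : ℝ := opn (1 - L.rho g)

lemma D1_one : D1 L 1 = 0 := by
  unfold D1
  rw [map_one, sub_self]
  unfold opn op
  rw [map_zero, norm_zero]

lemma D1_nonneg (g : G) : 0 ≤ D1 L g := opn_nonneg _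

lemma D1_mul (g h : G) : D1 L (g * h) ≤ D1 L g + D1 L h := by
  unfold D1
  have e1 : (1 : Mat N) - L.rho (g * h) = (1 - L.rho g) + L.rho g * (1 - L.rho h) := by
    rw [map_mul, mul_sub, mul_one]; abel
  rw [e1]
  refine (opn_add _ _).trans ?_
  rw [opn_unit_mul (L.unit' _) (L.unit _)]

lemma D1_conj (g h : G) : D1 L (g * h * g⁻¹) = D1 L h := by
  unfold D1
  have e1 : (1 : Mat N) - L.rho (g * h * g⁻¹) = L.rho g * (1 - L.rho h) * L.rho g⁻¹ := by
    rw [mul_sub, sub_mul, mul_one, ← map_mul, mul_inv_cancel, map_one, map_mul, map_mul]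
  rw [e1, opn_mul_unit (L.unit' _) (L.unit _), opn_unit_mul (L.unit' _) (L.unit _)]

lemma D1_lp1 (V : LZ d → G) (x : Fin d → ℤ) (i j : Fin d) (T : ℕ) :
    D1 L (lpZ V x i j 1 T) ≤ ∑ b ∈ Finset.range T, D1 L (plZ V (x + Pi.single j (b : ℤ)) i j) := by
  induction T with
  | zero =>
    rw [Finset.range_zero, Finset.sum_empty]
    have : lpZ V x i j 1 0 = 1 := by
      unfold lpZ
      simp [lnZ]
    rw [this, D1_one]
  | succ T ih =>
    rw [lpZ_T, Finset.sum_range_succ]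
    refine (D1_mul L _ _).trans ?_
    rw [D1_conj]
    exact add_le_add_left ih _

lemma D1_lp (V : LZ d → G) (x : Fin d → ℤ) (i j : Fin d) (R T : ℕ) :
    D1 L (lpZ V x i j R T) ≤ ∑ a ∈ Finset.range R, ∑ b ∈ Finset.range T,
      D1 L (plZ V (x + Pi.single i (a : ℤ) + Pi.single j (b : ℤ)) i j) := by
  induction R with
  | zero =>
    rw [Finset.range_zero, Finset.sum_empty]
    have : lpZ V x i j 0 T = 1 := by
      unfold lpZ
      simp [lnZ]
    rw [this, D1_one]
  | succ R ih =>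
    rw [lpZ_R, Finset.sum_range_succ]
    refine (D1_mul L _ _).trans ?_
    rw [D1_conj, add_comm]
    exact add_le_add ih (D1_lp1 L V _ i j T)

end dist

/-! ### infinite volume -/

section inf

variable {G : Type*} [Group G] [TopologicalSpace G] [IsTopologicalGroup G] [CompactSpace G]
  [SecondCountableTopology G] [MeasurableSpace G] [BorelSpace G] (μ : Measure G)
  [IsProbabilityMeasure μ] [μ.IsMulLeftInvariant] [μ.IsMulRightInvariant] [μ.IsInvInvariant]
  {N n d : ℕ} {L : LD G N n}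

variable (L) in
lemma D1_cont (x : Fin d → ℤ) (i j : Fin d) : Continuous fun V : LZ d → G => D1 L (plZ V x i j) :=
  opn_cont.comp (continuous_const.sub (L.cont.comp (plZ_cont x i j)))

lemma tail_aux {β : ℝ} {ν : Measure (LZ d → G)} (hI : IV μ L β ν) (hβ : 0 ≤ β) {i j : Fin d}
    (hij : i ≠ j) (x : Fin d → ℤ) {s t : ℝ} (hs : 0 ≤ s) (hst : s < t) :
    ν {V | t ≤ D1 L (plZ V x i j)} ≤
      ENNReal.ofReal (5 ^ (4 * N) * Real.exp (-(β * s ^ 2 / 32))) := by
  have := hI.prob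
  obtain ⟨ψ, hψ⟩ : ∃ ψ : ℝ → ℝ, ψ = fun r => min 1 (max 0 ((r - s) / (t - s))) := ⟨_, rfl⟩
  have hψc : Continuous ψ := by
    rw [hψ]
    fun_prop
  have hψ1 : ∀ r, ψ r ≤ 1 := fun r => by rw [hψ]; exact min_le_left _ _
  have hψ0 : ∀ r, r ≤ s → ψ r ≤ 0 := fun r hr => by
    rw [hψ]
    refine (min_le_right _ _).trans (max_le le_rfl ?_)
    exact div_nonpos_of_nonpos_of_nonneg (by linarith) (by linarith)
  have hψn : ∀ r, 0 ≤ ψ r := fun r => by
    rw [hψ]
    exact le_min zero_le_one (le_max_left _ _)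
  have hψt : ∀ r, t ≤ r → ψ r = 1 := fun r hr => by
    rw [hψ]
    refine min_eq_left (le_max_of_le_right ?_)
    rw [le_div_iff₀ (by linarith)]
    linarith
  have hcont : Continuous fun V : LZ d → G => ψ (D1 L (plZ V x i j)) :=
    hψc.comp (D1_cont L x i j)
  obtain ⟨q, hq, hlim⟩ := hI.lim
  have h1 : ∫ V, ψ (D1 L (plZ V x i j)) ∂ν ≤ 5 ^ (4 * N) * Real.exp (-(β * s ^ 2 / 32)) := by
    refine le_of_tendsto (hlim _ hcont) ?_
    filter_upwards [hq.eventually_ge_atTop 1] with k hk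
    have h2 := plaq_op μ (L := L) (m := q k + 1) (by omega) hβ hij (cs (2 * (q k + 1)) x) hψc hs
      hψ1 hψ0
    simp only [plZ_pe]
    exact h2
  have hint : Integrable (fun V : LZ d → G => ψ (D1 L (plZ V x i j))) ν :=
    hcont.integrable_of_hasCompactSupport (HasCompactSupport.of_compactSpace _)
  have h3 : ν {V | t ≤ D1 L (plZ V x i j)} ≤
      ∫⁻ V, ENNReal.ofReal (ψ (D1 L (plZ V x i j))) ∂ν := by
    refine meas_le_lintegral₀ (hcont.measurable.ennreal_ofReal.aemeasurable) fun V hV => ?_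
    rw [hψt _ hV, ENNReal.ofReal_one]
  refine h3.trans ?_
  rw [← ofReal_integral_eq_lintegral_ofReal hint (Eventually.of_forall fun V => hψn _)]
  exact ENNReal.ofReal_le_ofReal h1

lemma plZ_tail {β : ℝ} {ν : Measure (LZ d → G)} (hI : IV μ L β ν) (hβ : 0 ≤ β) {i j : Fin d}
    (hij : i ≠ j) (x : Fin d → ℤ) {t : ℝ} (ht : 0 < t) :
    ν {V | t ≤ D1 L (plZ V x i j)} ≤
      ENNReal.ofReal (5 ^ (4 * N) * Real.exp (-(β * t ^ 2 / 32))) := by
  have h1 : Tendsto (fun s : ℝ => ENNReal.ofReal (5 ^ (4 * N) * Real.exp (-(β * s ^ 2 / 32))))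
      (𝓝[<] t) (𝓝 (ENNReal.ofReal (5 ^ (4 * N) * Real.exp (-(β * t ^ 2 / 32))))) := by
    have h2 : Continuous fun s : ℝ =>
        ENNReal.ofReal (5 ^ (4 * N) * Real.exp (-(β * s ^ 2 / 32))) := by
      refine ENNReal.continuous_ofReal.comp ?_
      fun_prop
    exact (h2.tendsto t).mono_left nhdsWithin_le_nhds
  refine ge_of_tendsto h1 ?_
  have h3 : Set.Ioo 0 t ∈ 𝓝[<] t := Ioo_mem_nhdsLT ht
  filter_upwards [h3] with s hs
  exact tail_aux μ hI hβ hij x hs.1.le hs.2

/-- **Wilson loops**: the operator norm at the speed `N`. -/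
lemma lpZ_tail {β : ℝ} {ν : Measure (LZ d → G)} (hI : IV μ L β ν) (hβ : 0 ≤ β) {i j : Fin d}
    (hij : i ≠ j) (x : Fin d → ℤ) {R T : ℕ} (hR : 1 ≤ R) (hT : 1 ≤ T) {t : ℝ} (ht : 0 < t) :
    ν {V | R * T * t ≤ D1 L (lpZ V x i j R T)} ≤
      ENNReal.ofReal (R * T * (5 ^ (4 * N) * Real.exp (-(β * t ^ 2 / 32)))) := by
  have h1 : {V : LZ d → G | R * T * t ≤ D1 L (lpZ V x i j R T)} ⊆
      ⋃ p ∈ Finset.range R ×ˢ Finset.range T,
        {V | t ≤ D1 L (plZ V (x + Pi.single i (p.1 : ℤ) + Pi.single j (p.2 : ℤ)) i j)} := by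
    intro V hV
    rw [Set.mem_ofPred_eq] at hV
    by_contra hcon
    simp only [Set.mem_iUnion, Set.mem_ofPred_eq, not_exists, not_le] at hcon
    have h2 := D1_lp L V x i j R T
    rw [← Finset.sum_product'] at h2
    have hne : (Finset.range R ×ˢ Finset.range T).Nonempty := by
      refine ⟨(0, 0), Finset.mem_product.2 ⟨Finset.mem_range.2 (by omega),
        Finset.mem_range.2 (by omega)⟩⟩
    have h3 := Finset.sum_lt_sum_of_nonempty hne fun p hp => hcon p hp
    rw [Finset.sum_const, Finset.card_product, Finset.card_range, Finset.card_range,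
      nsmul_eq_mul] at h3
    push_cast at h3
    linarith
  refine (measure_mono h1).trans ((measure_biUnion_finset_le _ _).trans ?_)
  refine (Finset.sum_le_sum fun p _ => plZ_tail μ hI hβ hij _ ht).trans ?_
  rw [Finset.sum_const, Finset.card_product, Finset.card_range, Finset.card_range, nsmul_eq_mul,
    ENNReal.ofReal_mul (p := (R : ℝ) * T) (by positivity), ← Nat.cast_mul,
    ENNReal.ofReal_natCast]

/-- the numerical constants -/
lemma num_bound (N : ℕ) {K : ℝ} (hK : 1 ≤ K) :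
    (5 : ℝ) ^ (4 * N) * Real.exp (-(15 / 2 * K * N)) ≤ Real.exp (-(K * N)) := by
  have h1 : (5 : ℝ) ^ 4 ≤ Real.exp (13 / 2) := by
    have h2 : Real.exp (13 / 2) ^ 2 = Real.exp 1 ^ 13 := by
      rw [← Real.exp_nat_mul, ← Real.exp_nat_mul]
      norm_num
    have h3 := Real.exp_one_gt_d9
    have h4 : (2.7182818283 : ℝ) ^ 13 ≤ Real.exp 1 ^ 13 :=
      pow_le_pow_left₀ (by norm_num) h3.le 13
    have h5 : ((5 : ℝ) ^ 4) ^ 2 ≤ Real.exp (13 / 2) ^ 2 := by
      rw [h2]
      refine le_trans ?_ h4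
      norm_num
    exact (pow_le_pow_iff_left₀ (by norm_num) (Real.exp_pos _).le two_ne_zero).1 h5
  have h2 : (5 : ℝ) ^ (4 * N) ≤ Real.exp (13 / 2 * N) := by
    rw [pow_mul]
    refine (pow_le_pow_left₀ (by norm_num) h1 N).trans ?_
    rw [← Real.exp_nat_mul]
    refine Real.exp_le_exp.2 (le_of_eq (by ring))
  calc (5 : ℝ) ^ (4 * N) * Real.exp (-(15 / 2 * K * N))
      ≤ Real.exp (13 / 2 * N) * Real.exp (-(15 / 2 * K * N)) :=
        mul_le_mul_of_nonneg_right h2 (Real.exp_pos _).le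
    _ = Real.exp (13 / 2 * N + -(15 / 2 * K * N)) := (Real.exp_add _ _).symm
    _ ≤ Real.exp (-(K * N)) := by
        refine Real.exp_le_exp.2 ?_
        have hN : (0 : ℝ) ≤ N := Nat.cast_nonneg N
        nlinarith

/-- **The edge of the spectrum.** -/
theorem loop_gap {b : ℝ} {ν : Measure (LZ d → G)} (hb : 0 < b) (hI : IV μ L (N * b) ν)
    {i j : Fin d} (hij : i ≠ j) (x : Fin d → ℤ) {R T : ℕ} (hR : 1 ≤ R) (hT : 1 ≤ T) {K : ℝ}
    (hK : 1 ≤ K) :
    ν {V | ∃ z ∈ (L.rho (lpZ V x i j R T)).charpoly.roots,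
      240 * K * (R * T) ^ 2 / b ≤ ‖1 - z‖ ^ 2} ≤ ENNReal.ofReal (R * T * Real.exp (-(K * N))) := by
  obtain ⟨t, ht⟩ : ∃ t, t = √(240 * K / b) := ⟨_, rfl⟩
  have ht0 : 0 < t := by rw [ht]; exact Real.sqrt_pos.2 (by positivity)
  have ht2 : t ^ 2 = 240 * K / b := by rw [ht]; exact Real.sq_sqrt (by positivity)
  have hRT : (0 : ℝ) < R * T := by
    have : (0 : ℝ) < R := by exact_mod_cast hR
    have : (0 : ℝ) < T := by exact_mod_cast hT
    positivity
  have h1 := lpZ_tail μ hI (by positivity) hij x hR hT ht0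
  refine (measure_mono ?_).trans (h1.trans (ENNReal.ofReal_le_ofReal ?_))
  · rintro V ⟨z, hz, h2⟩
    rw [Set.mem_ofPred_eq]
    refine le_trans ?_ (eig_dist hz)
    have h3 : (R * T * t) ^ 2 ≤ ‖1 - z‖ ^ 2 := by
      rw [mul_pow, ht2]
      refine le_trans (le_of_eq ?_) h2
      ring
    exact (pow_le_pow_iff_left₀ (by positivity) (norm_nonneg _) two_ne_zero).1 h3
  · refine mul_le_mul_of_nonneg_left ?_ hRT.le
    rw [ht2]
    refine le_trans (le_of_eq ?_) (num_bound N hK)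
    congr 2
    field_simp
    ring

end inf

end

end Pool.Agent.T2H01.LN
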