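import Mathlib
import Pool.Agent.TH618.YM.Loop

/-!
# The Schwinger-Dyson equation for one link
-/

open MeasureTheory Matrix Filter
open scoped Matrix.Norms.Frobenius Topology
open Pool.Agent.H906R3.YM Pool.Agent.W793.YM Pool.Agent.TH618.YM

namespace Pool.Agent.T2H01.LN

set_option linter.unusedSectionVars false
set_option linter.unusedVariables false

noncomputable section

/-! ### integration by parts -/

section ibp

variable {G : Type*} [Group G] {E : Type*} [DecidableEq E]

/-- left translation of the variable of one link -/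
def sh (e : E) (g : G) (U : E → G) : E → G := (Pi.mulSingle e g : E → G) * U

lemma sh_same (e : E) (g : G) (U : E → G) : sh e g U e = g * U e := by
  unfold sh
  rw [Pi.mul_apply, Pi.mulSingle_eq_same]

lemma sh_ne {e e' : E} (h : e' ≠ e) (g : G) (U : E → G) : sh e g U e' = U e' := by
  unfold sh
  rw [Pi.mul_apply, Pi.mulSingle_eq_of_ne h, one_mul]

lemma sh_sh (e : E) (g h : G) (U : E → G) : sh e g (sh e h U) = sh e (g * h) U := by
  funext e'
  by_cases he : e' = e
  · subst he
    rw [sh_same, sh_same, sh_same, mul_assoc]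
  · rw [sh_ne he, sh_ne he, sh_ne he]

lemma sh_one (e : E) (U : E → G) : sh e 1 U = U := by
  unfold sh
  rw [Pi.mulSingle_one, one_mul]

variable [TopologicalSpace G] [IsTopologicalGroup G] [CompactSpace G]
  [SecondCountableTopology G] [MeasurableSpace G] [BorelSpace G] (μ : Measure G)
  [IsProbabilityMeasure μ] [μ.IsMulLeftInvariant] [Fintype E]

omit [CompactSpace G] [SecondCountableTopology G] [MeasurableSpace G] [BorelSpace G]
  [Fintype E] in
lemma sh_cont (e : E) (g : G) : Continuous (sh e g : (E → G) → E → G) :=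
  continuous_const.mul continuous_id

lemma ibp {c : ℝ → G} (hc : ∀ s t, c (s + t) = c s * c t) (e : E) {F F' : (E → G) → ℝ}
    (hF : Continuous F) (hF' : Continuous F')
    (hd : ∀ U, HasDerivAt (fun t => F (sh e (c t) U)) (F' U) 0) : ∫ U, F' U ∂ME μ E = 0 := by
  obtain ⟨C, hC⟩ : ∃ C, ∀ U, |F' U| ≤ C := by
    obtain ⟨C, hC⟩ := (isCompact_univ.image hF'.norm).bddAbove
    exact ⟨C, fun U => hC ⟨U, trivial, rfl⟩⟩
  have c0 : c 0 = 1 := by
    have := hc 0 0
    rw [add_zero] at this
    exact (mul_eq_left.mp this.symm)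
  have hconst : ∀ t, ∫ U, F (sh e (c t) U) ∂(ME μ E) = ∫ U, F U ∂(ME μ E) := by
    intro t
    exact integral_mul_left_eq_self (μ := ME μ E) F (Pi.mulSingle e (c t))
  have hdt : ∀ (U : E → G) (t : ℝ),
      HasDerivAt (fun t => F (sh e (c t) U)) (F' (sh e (c t) U)) t := by
    intro U t
    have h1 := hd (sh e (c t) U)
    have h2 : HasDerivAt (fun s : ℝ => s - t) 1 t := (hasDerivAt_id t).sub_const t
    have h3 : HasDerivAt (fun s => F (sh e (c s) (sh e (c t) U))) (F' (sh e (c t) U)) (t - t) := by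
      rw [sub_self]; exact h1
    have h4 := HasDerivAt.scomp (h := fun s : ℝ => s - t) t h3 h2
    rw [one_smul] at h4
    refine h4.congr_of_eventuallyEq (Eventually.of_forall fun s => ?_)
    show F (sh e (c s) U) = F (sh e (c (s - t)) (sh e (c t) U))
    rw [sh_sh, ← hc, sub_add_cancel]
  have hder := hasDerivAt_integral_of_dominated_loc_of_deriv_le (μ := ME μ E)
    (F := fun t U => F (sh e (c t) U))
    (F' := fun t U => F' (sh e (c t) U)) (x₀ := (0 : ℝ)) (s := Set.univ)
    (bound := fun _ => C) Filter.univ_mem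
    (Filter.Eventually.of_forall fun t => (hF.comp (sh_cont e (c t))).aestronglyMeasurable)
    (integrable_cont μ (hF.comp (sh_cont e (c 0))))
    ((hF'.comp (sh_cont e (c 0))).aestronglyMeasurable)
    (Filter.Eventually.of_forall fun U t _ => hC _) (integrable_const _)
    (Filter.Eventually.of_forall fun U t _ => hdt U t)
  have h1 := hder.2.deriv
  have h2 : (fun t => ∫ U, F (sh e (c t) U) ∂(ME μ E)) =
      fun _ => ∫ U, F U ∂(ME μ E) := funext hconst
  rw [h2, deriv_const] at h1
  rw [h1]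
  simp only [c0, sh_one]

end ibp

/-! ### the off-diagonal generators -/

section gens

variable {N : ℕ}

/-- the generators `E_jk - E_kj` and `i (E_jk + E_kj)` -/
def gen (q : (Fin N × Fin N) × Bool) : Mat N :=
  if q.2 then Complex.I • (Matrix.single q.1.1 q.1.2 1 + Matrix.single q.1.2 q.1.1 1)
  else Matrix.single q.1.1 q.1.2 1 - Matrix.single q.1.2 q.1.1 1

/-- the index set of the generators -/
def gi (N : ℕ) : Finset ((Fin N × Fin N) × Bool) := Finset.univ.filter fun q => q.1.1 ≠ q.1.2

lemma gen_skew (q : (Fin N × Fin N) × Bool) : (gen q)ᴴ = -gen q := by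
  unfold gen
  obtain ⟨⟨j, k⟩, b⟩ := q
  cases b
  · simp [conjTranspose_sub, Matrix.conjTranspose_single]
  · simp only [if_true]
    rw [conjTranspose_smul, conjTranspose_add, Matrix.conjTranspose_single,
      Matrix.conjTranspose_single, star_one, ← neg_smul, add_comm]
    congr 1
    exact Complex.conj_I

lemma gen_sq {j k : Fin N} (h : j ≠ k) (b : Bool) :
    gen ((j, k), b) * gen ((j, k), b) = -(Matrix.single j j 1 + Matrix.single k k 1) := by
  unfold gen
  cases b
  · simp only [Bool.false_eq_true, if_false]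
    rw [sub_mul, mul_sub, mul_sub, Matrix.single_mul_single_of_ne (h := h.symm),
      Matrix.single_mul_single_same, Matrix.single_mul_single_same,
      Matrix.single_mul_single_of_ne (h := h)]
    simp only [mul_one]
    abel
  · simp only [if_true]
    rw [smul_mul_smul_comm, Complex.I_mul_I, add_mul, mul_add, mul_add,
      Matrix.single_mul_single_of_ne (h := h.symm),
      Matrix.single_mul_single_same, Matrix.single_mul_single_same,
      Matrix.single_mul_single_of_ne (h := h)]
    simp only [mul_one, zero_add, add_zero, neg_smul, one_smul]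

lemma sum_single : ∑ j : Fin N, Matrix.single j j (1 : ℂ) = 1 := by
  ext a b
  rw [Matrix.sum_apply]
  by_cases h : a = b
  · subst h
    rw [Finset.sum_eq_single a]
    · simp
    · intro c _ hc
      simp [Matrix.single, hc]
    · simp
  · rw [Matrix.one_apply_ne h]
    refine Finset.sum_eq_zero fun c _ => ?_
    simp only [Matrix.single, of_apply]
    rw [if_neg]
    rintro ⟨rfl, rfl⟩
    exact h rfl

lemma gen_sum : ∑ q ∈ gi N, gen q * gen q = (-(4 * ((N : ℂ) - 1))) • (1 : Mat N) := by
  have e1 : ∑ q ∈ gi N, gen q * gen q =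
      ∑ j : Fin N, ∑ k : Fin N, ∑ b : Bool, if j ≠ k then gen ((j, k), b) * gen ((j, k), b)
        else 0 := by
    unfold gi
    rw [Finset.sum_filter, Fintype.sum_prod_type, Fintype.sum_prod_type]
  rw [e1]
  have e2 : ∀ j k : Fin N, (∑ b : Bool, if j ≠ k then gen ((j, k), b) * gen ((j, k), b)
      else 0) = (-2 : ℂ) • (if j ≠ k then (Matrix.single j j (1 : ℂ) + Matrix.single k k 1)
        else 0) := by
    intro j k
    by_cases h : j = k
    · simp [h]
    · simp only [ne_eq, h, not_false_eq_true, if_true, gen_sq h, Fintype.sum_bool]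
      rw [neg_smul, two_smul]
      abel
  simp only [e2]
  simp only [← Finset.smul_sum]
  have e3 : ∀ j k : Fin N, (if j ≠ k then (Matrix.single j j (1 : ℂ) + Matrix.single k k 1)
      else 0) = Matrix.single j j (1 : ℂ) + Matrix.single k k 1 -
        (if j = k then (2 : ℂ) • Matrix.single j j (1 : ℂ) else 0) := by
    intro j k
    by_cases h : j = k
    · subst h
      simp only [ne_eq, not_true_eq_false, if_false, if_true]
      rw [two_smul, sub_self]
    · simp [h]
  have e4 : ∑ j : Fin N, ∑ k : Fin N, (if j ≠ k then (Matrix.single j j (1 : ℂ) +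
      Matrix.single k k 1) else 0) = (2 * ((N : ℂ) - 1)) • (1 : Mat N) := by
    simp only [e3, Finset.sum_sub_distrib, Finset.sum_add_distrib, Finset.sum_const,
      Finset.card_univ, Fintype.card_fin, Finset.sum_ite_eq, Finset.mem_univ, if_true,
      ← Finset.smul_sum, sum_single]
    rw [← Nat.cast_smul_eq_nsmul ℂ, ← add_smul, ← sub_smul]
    congr 1
    ring
  rw [e4, smul_smul]
  congr 1
  ring

/-- the coefficient of a generator -/
def gc (q : (Fin N × Fin N) × Bool) (W : Mat N) : ℝ := (trace (gen q * W)).re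

lemma gc_false (j k : Fin N) (W : Mat N) : gc ((j, k), false) W = (W k j).re - (W j k).re := by
  unfold gc gen
  simp only [Bool.false_eq_true, if_false]
  rw [sub_mul, trace_sub]
  have h1 : ∀ a b : Fin N, trace (Matrix.single a b (1 : ℂ) * W) = W b a := by
    intro a b
    rw [Matrix.trace_single_mul, one_smul]
  rw [h1, h1, Complex.sub_re]

lemma gc_true (j k : Fin N) (W : Mat N) : gc ((j, k), true) W = -((W k j).im + (W j k).im) := by
  unfold gc gen
  simp only [if_true]
  have h1 : ∀ a b : Fin N, trace (Matrix.single a b (1 : ℂ) * W) = W b a := by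
    intro a b
    rw [Matrix.trace_single_mul, one_smul]
  rw [smul_mul_assoc, trace_smul, add_mul, trace_add, h1, h1, smul_eq_mul]
  simp

lemma frob_sq (W : Mat N) : ‖W‖ ^ 2 = ∑ j : Fin N, ∑ k : Fin N, ((W j k).re ^ 2 + (W j k).im ^ 2) := by
  rw [Matrix.frobenius_norm_def, ← Real.sqrt_eq_rpow, Real.sq_sqrt]
  · refine Finset.sum_congr rfl fun j _ => Finset.sum_congr rfl fun k _ => ?_
    rw [Real.rpow_two, ← Complex.normSq_eq_norm_sq, Complex.normSq_apply]
    ring
  · positivity

lemma gc_sq (W : Mat N) : ∑ q ∈ gi N, gc q W ^ 2 ≤ 4 * ‖W‖ ^ 2 := by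
  have h1 : ∑ q ∈ gi N, gc q W ^ 2 ≤ ∑ q : (Fin N × Fin N) × Bool, gc q W ^ 2 :=
    Finset.sum_le_sum_of_subset_of_nonneg (Finset.subset_univ _) fun q _ _ => sq_nonneg _
  refine h1.trans ?_
  rw [Fintype.sum_prod_type, Fintype.sum_prod_type]
  simp only [Fintype.sum_bool, gc_true, gc_false]
  have h2 : ∀ j k : Fin N, (-((W k j).im + (W j k).im)) ^ 2 + ((W k j).re - (W j k).re) ^ 2 ≤
      2 * ((W k j).re ^ 2 + (W k j).im ^ 2) + 2 * ((W j k).re ^ 2 + (W j k).im ^ 2) := by
    intro j k
    nlinarith [sq_nonneg ((W k j).im - (W j k).im), sq_nonneg ((W k j).re + (W j k).re)]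
  refine (Finset.sum_le_sum fun j _ => Finset.sum_le_sum fun k _ => h2 j k).trans ?_
  simp only [Finset.sum_add_distrib, ← Finset.mul_sum]
  rw [frob_sq]
  have h3 : ∑ x : Fin N, ∑ i : Fin N, (W i x).re ^ 2 = ∑ x : Fin N, ∑ i : Fin N, (W x i).re ^ 2 :=
    Finset.sum_comm
  have h4 : ∑ x : Fin N, ∑ i : Fin N, (W i x).im ^ 2 = ∑ x : Fin N, ∑ i : Fin N, (W x i).im ^ 2 :=
    Finset.sum_comm
  simp only [Finset.sum_add_distrib]
  rw [h3, h4]
  linarith

lemma gc_cs (W M : Mat N) : |∑ q ∈ gi N, gc q W * gc q M| ≤ 4 * (‖W‖ * ‖M‖) := by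
  have h1 := Finset.sum_mul_sq_le_sq_mul_sq (gi N) (fun q => gc q W) (fun q => gc q M)
  have h2 : (∑ q ∈ gi N, gc q W * gc q M) ^ 2 ≤ (4 * (‖W‖ * ‖M‖)) ^ 2 := by
    refine h1.trans ?_
    calc (∑ q ∈ gi N, gc q W ^ 2) * ∑ q ∈ gi N, gc q M ^ 2
        ≤ (4 * ‖W‖ ^ 2) * (4 * ‖M‖ ^ 2) :=
          mul_le_mul (gc_sq W) (gc_sq M) (Finset.sum_nonneg fun q _ => sq_nonneg _)
            (by positivity)
      _ = (4 * (‖W‖ * ‖M‖)) ^ 2 := by ring
  exact abs_le_of_sq_le_sq h2 (by positivity)

lemma gc_gen_sum (W : Mat N) : ∑ q ∈ gi N, (trace (gen q * (gen q * W))).re =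
    -(4 * ((N : ℝ) - 1)) * (trace W).re := by
  have h1 : ∑ q ∈ gi N, (trace (gen q * (gen q * W))).re =
      (trace ((∑ q ∈ gi N, gen q * gen q) * W)).re := by
    rw [Finset.sum_mul, trace_sum, Complex.re_sum]
    refine Finset.sum_congr rfl fun q _ => ?_
    rw [mul_assoc]
  rw [h1, gen_sum, smul_mul_assoc, one_mul, trace_smul, smul_eq_mul]
  have h2 : (-(4 * ((N : ℂ) - 1))) = ((-(4 * ((N : ℝ) - 1)) : ℝ) : ℂ) := by push_cast; ring
  rw [h2, Complex.re_ofReal_mul]

end gens

end

end Pool.Agent.T2H01.LN
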