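import Mathlib
import Pool.Agent.T2H01.LN.SD

/-!
# The Schwinger-Dyson equation: the special unitary one-parameter groups and the action
-/

open MeasureTheory Matrix Filter
open scoped Matrix.Norms.Frobenius Topology
open Pool.Agent.H906R3.YM Pool.Agent.W793.YM Pool.Agent.TH618.YM

namespace Pool.Agent.T2H01.LN

set_option linter.unusedSectionVars false
set_option linter.unusedVariables false

noncomputable section

/-! ### the one-parameter groups -/

section oneparam

variable {N : ℕ}

lemma smul_ct (t : ℝ) (A : Mat N) : (t • A)ᴴ = t • Aᴴ := by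
  exact (ctL N).map_smul t A

lemma exp_gen_mul (X : Mat N) (s t : ℝ) :
    (NormedSpace.exp ((s + t) • X) : Mat N) = NormedSpace.exp (s • X) * NormedSpace.exp (t • X) := by
  rw [add_smul]
  exact Matrix.exp_add_of_commute _ _ (((Commute.refl X).smul_left s).smul_right t)

lemma exp_gen_neg (X : Mat N) (t : ℝ) :
    (NormedSpace.exp (t • X) : Mat N) * NormedSpace.exp (-(t • X)) = 1 := by
  have h1 := exp_gen_mul X t (-t)
  rw [add_neg_cancel, zero_smul, NormedSpace.exp_zero, neg_smul] at h1
  exact h1.symm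

lemma exp_skew_unit {X : Mat N} (hX : Xᴴ = -X) (t : ℝ) :
    (NormedSpace.exp (t • X) : Mat N) ∈ Matrix.unitaryGroup (Fin N) ℂ := by
  rw [Matrix.mem_unitaryGroup_iff, star_eq_conjTranspose, ← Matrix.exp_conjTranspose, smul_ct, hX,
    smul_neg]
  exact exp_gen_neg X t

lemma refl_mul {P A B : Mat N} (h1 : P * A = A) (h2 : P * B = 0) (h3 : A * P = 0) (h4 : B * P = B)
    (c c' : ℂ) : (1 - (2 : ℂ) • P) * (c • A + c' • B) * (1 - (2 : ℂ) • P) = -(c • A + c' • B) := by
  simp only [sub_mul, mul_sub, mul_add, add_mul, one_mul, mul_one, smul_mul_assoc, mul_smul_comm,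
    h1, h2, h3, h4, smul_zero, zero_mul, mul_zero, sub_zero, zero_sub, add_zero, zero_add]
  module

lemma det_exp_gen {j k : Fin N} (h : j ≠ k) (b : Bool) (t : ℝ) :
    (NormedSpace.exp (t • gen ((j, k), b)) : Mat N).det = 1 := by
  set X : Mat N := gen ((j, k), b) with hX
  set D : Mat N := 1 - (2 : ℂ) • Matrix.single j j 1 with hD
  have hDD : D * D = 1 := by
    rw [hD, sub_mul, mul_sub, mul_sub, one_mul, one_mul, mul_one, smul_mul_smul_comm,
      Matrix.single_mul_single_same, mul_one]
    module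
  have hinv : D⁻¹ = D := Matrix.inv_eq_right_inv hDD
  have hu : IsUnit D := IsUnit.of_mul_eq_one _ hDD
  have p1 : Matrix.single j j (1 : ℂ) * Matrix.single j k 1 = Matrix.single j k 1 := by
    rw [Matrix.single_mul_single_same, mul_one]
  have p2 : Matrix.single j j (1 : ℂ) * Matrix.single k j 1 = 0 :=
    Matrix.single_mul_single_of_ne (h := h) ..
  have p3 : Matrix.single j k (1 : ℂ) * Matrix.single j j 1 = 0 :=
    Matrix.single_mul_single_of_ne (h := h.symm) ..
  have p4 : Matrix.single k j (1 : ℂ) * Matrix.single j j 1 = Matrix.single k j 1 := by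
    rw [Matrix.single_mul_single_same, mul_one]
  have hDX : D * X * D⁻¹ = -X := by
    rw [hinv, hX, hD]
    unfold gen
    cases b
    · simp only [Bool.false_eq_true, if_false]
      have h1 := refl_mul p1 p2 p3 p4 1 (-1)
      rw [one_smul, neg_one_smul, ← sub_eq_add_neg] at h1
      exact h1
    · simp only [if_true]
      rw [smul_add]
      exact refl_mul p1 p2 p3 p4 _ _
  have h1 : ∀ s : ℝ, (NormedSpace.exp (s • X) : Mat N).det ^ 2 = 1 := by
    intro s
    have h2 : (NormedSpace.exp (-(s • X)) : Mat N) = D * NormedSpace.exp (s • X) * D⁻¹ := by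
      rw [← Matrix.exp_conj D (s • X) hu, mul_smul_comm, smul_mul_assoc, hDX, smul_neg]
    have h3 := congrArg Matrix.det (exp_gen_neg X s)
    rw [h2, det_mul, det_mul, det_mul, det_one] at h3
    have h4 : D.det * D⁻¹.det = 1 := by
      rw [← det_mul, hinv, hDD, det_one]
    calc (NormedSpace.exp (s • X) : Mat N).det ^ 2
        = (NormedSpace.exp (s • X) : Mat N).det * (D.det * (NormedSpace.exp (s • X) : Mat N).det *
          D⁻¹.det) := by
          linear_combination (-(NormedSpace.exp (s • X) : Mat N).det ^ 2) * h4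
      _ = 1 := h3
  have h5 : (NormedSpace.exp (t • X) : Mat N) =
      NormedSpace.exp ((t / 2) • X) * NormedSpace.exp ((t / 2) • X) := by
    rw [← exp_gen_mul, add_halves]
  rw [h5, det_mul, ← sq, h1]

lemma exp_deriv (X : Mat N) : HasDerivAt (fun t : ℝ => (NormedSpace.exp (t • X) : Mat N)) X 0 := by
  have h2 := hasDerivAt_exp_smul_const (𝕂 := ℝ) X (0 : ℝ)
  rwa [zero_smul, NormedSpace.exp_zero, one_mul] at h2

end oneparam

/-! ### the derivative of the action -/

section act

variable {G : Type*} [Group G] [TopologicalSpace G] {N n d l : ℕ} {L : LD G N n}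

variable (L) in
/-- the staple of a plaquette -/
def stp (e : Ed d l) (U : Ed d l → G) (x : Fin d → ZMod l) (i j : Fin d) : Mat N :=
  (if ((x, i) : Ed d l) = e then L.rho (U (x, i) * U (x + eT i, j) * (U (x + eT j, i))⁻¹ *
      (U (x, j))⁻¹) else 0) +
  (if ((x + eT i, j) : Ed d l) = e then L.rho (U (x + eT i, j) * (U (x + eT j, i))⁻¹ *
      (U (x, j))⁻¹ * U (x, i)) else 0) +
  (if ((x + eT j, i) : Ed d l) = e then L.rho (U (x + eT j, i) * (U (x + eT i, j))⁻¹ *
      (U (x, i))⁻¹ * U (x, j)) else 0) +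
  (if ((x, j) : Ed d l) = e then L.rho (U (x, j) * U (x + eT j, i) * (U (x + eT i, j))⁻¹ *
      (U (x, i))⁻¹) else 0)

variable (L) in
/-- the sum of the staples -/
def stS (e : Ed d l) [NeZero l] (U : Ed d l → G) : Mat N :=
  ∑ x, ∑ i, ∑ j, if i < j then stp L e U x i j else 0

lemma rho_frob (g : G) : ‖L.rho g‖ ^ 2 = N := by
  have h1 : ‖L.rho g‖ ^ 2 = (trace ((L.rho g)ᴴ * L.rho g)).re := by
    rw [← sum_co_sq, frob_sq]
    have h1 : ∀ c, co c (L.rho g) = if c.2.2 then (L.rho g c.1 c.2.1).re else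
        (L.rho g c.1 c.2.1).im := fun c => rfl
    simp only [h1]
    rw [Fintype.sum_prod_type]
    simp only [Fintype.sum_prod_type, Fintype.sum_bool, if_true, Bool.false_eq_true, if_false]
  rw [h1, L.unit', trace_one, Fintype.card_fin]
  simp

lemma rho_frob' (g : G) : ‖L.rho g‖ = √N := by
  rw [← rho_frob (L := L) g, Real.sqrt_sq (norm_nonneg _)]

lemma stp_norm (e : Ed d l) (U : Ed d l → G) (x : Fin d → ZMod l) (i j : Fin d) :
    ‖stp L e U x i j‖ ≤ ((if ((x, i) : Ed d l) = e then 1 else 0) +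
      (if ((x + eT i, j) : Ed d l) = e then 1 else 0) +
      (if ((x + eT j, i) : Ed d l) = e then 1 else 0) +
      (if ((x, j) : Ed d l) = e then 1 else 0)) * √N := by
  have h1 : ∀ (p : Prop) [Decidable p] (g : G), ‖(if p then L.rho g else 0 : Mat N)‖ ≤
      (if p then 1 else 0) * √N := by
    intro p _ g
    split_ifs
    · rw [rho_frob', one_mul]
    · rw [norm_zero, zero_mul]
  unfold stp
  rw [add_mul, add_mul, add_mul]
  exact (norm_add_le _ _).trans (add_le_add ((norm_add_le _ _).trans (add_le_add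
    ((norm_add_le _ _).trans (add_le_add (h1 _ _) (h1 _ _))) (h1 _ _))) (h1 _ _))

lemma cnt [NeZero l] (a : Fin d → ZMod l) (i : Fin d) (e : Ed d l) :
    ∑ x : Fin d → ZMod l, (if ((x + a, i) : Ed d l) = e then (1 : ℝ) else 0) =
      if i = e.2 then 1 else 0 := by
  obtain ⟨y, k⟩ := e
  rw [Finset.sum_eq_single (y - a)]
  · rw [sub_add_cancel]
    by_cases h : i = k
    · subst h
      simp
    · simp [h]
  · intro x _ hx
    rw [if_neg]
    intro h1
    have h2 := (Prod.ext_iff.1 h1).1
    simp only at h2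
    exact hx (by rw [← h2, add_sub_cancel_right])
  · intro h; exact absurd (Finset.mem_univ _) h

lemma stS_norm [NeZero l] (e : Ed d l) (U : Ed d l → G) : ‖stS L e U‖ ≤ 2 * d * √N := by
  unfold stS
  have h1 : ‖∑ x, ∑ i, ∑ j, (if i < j then stp L e U x i j else 0)‖ ≤
      ∑ x, ∑ i, ∑ j, (if i < j then ((if ((x, i) : Ed d l) = e then 1 else 0) +
      (if ((x + eT i, j) : Ed d l) = e then 1 else 0) +
      (if ((x + eT j, i) : Ed d l) = e then 1 else 0) +
      (if ((x, j) : Ed d l) = e then (1 : ℝ) else 0)) else 0) * √N := by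
    refine (norm_sum_le _ _).trans (Finset.sum_le_sum fun x _ => ?_)
    refine (norm_sum_le _ _).trans (Finset.sum_le_sum fun i _ => ?_)
    refine (norm_sum_le _ _).trans (Finset.sum_le_sum fun j _ => ?_)
    by_cases hij : i < j
    · rw [if_pos hij, if_pos hij]
      exact stp_norm e U x i j
    · rw [if_neg hij, if_neg hij, norm_zero, zero_mul]
  refine h1.trans ?_
  simp only [← Finset.sum_mul]
  refine mul_le_mul_of_nonneg_right ?_ (Real.sqrt_nonneg _)
  rw [Finset.sum_comm]
  have h2 : ∀ i j : Fin d, ∑ x : Fin d → ZMod l, (if i < j then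
      ((if ((x, i) : Ed d l) = e then 1 else 0) +
      (if ((x + eT i, j) : Ed d l) = e then 1 else 0) +
      (if ((x + eT j, i) : Ed d l) = e then 1 else 0) +
      (if ((x, j) : Ed d l) = e then (1 : ℝ) else 0)) else 0) =
      (if i = e.2 then (if i < j then 2 else 0) else 0) +
        (if j = e.2 then (if i < j then 2 else 0) else 0) := by
    intro i j
    by_cases hij : i < j
    · simp only [if_pos hij, Finset.sum_add_distrib, cnt]
      have h3 := cnt (0 : Fin d → ZMod l) i e
      have h4 := cnt (0 : Fin d → ZMod l) j e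
      simp only [add_zero] at h3 h4
      rw [h3, h4]
      split_ifs <;> norm_num
    · simp only [if_neg hij, Finset.sum_const_zero, ite_self, add_zero]
  have h3 : ∑ i : Fin d, ∑ x : Fin d → ZMod l, ∑ j : Fin d, (if i < j then
      ((if ((x, i) : Ed d l) = e then 1 else 0) +
      (if ((x + eT i, j) : Ed d l) = e then 1 else 0) +
      (if ((x + eT j, i) : Ed d l) = e then 1 else 0) +
      (if ((x, j) : Ed d l) = e then (1 : ℝ) else 0)) else 0) =
      ∑ i : Fin d, ∑ j : Fin d, ((if i = e.2 then (if i < j then (2 : ℝ) else 0) else 0) +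
        (if j = e.2 then (if i < j then 2 else 0) else 0)) := by
    refine Finset.sum_congr rfl fun i _ => ?_
    rw [Finset.sum_comm]
    exact Finset.sum_congr rfl fun j _ => h2 i j
  rw [h3]
  simp only [Finset.sum_add_distrib]
  have h4 : ∑ i : Fin d, ∑ j : Fin d, (if i = e.2 then (if i < j then (2 : ℝ) else 0) else 0) =
      ∑ j : Fin d, if e.2 < j then (2 : ℝ) else 0 := by
    rw [Finset.sum_comm]
    refine Finset.sum_congr rfl fun j _ => ?_
    rw [Finset.sum_ite_eq' Finset.univ e.2]; simp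
  have h5 : ∑ i : Fin d, ∑ j : Fin d, (if j = e.2 then (if i < j then (2 : ℝ) else 0) else 0) =
      ∑ i : Fin d, if i < e.2 then (2 : ℝ) else 0 := by
    refine Finset.sum_congr rfl fun j _ => ?_
    rw [Finset.sum_ite_eq' Finset.univ e.2]; simp
  rw [h4, h5, ← Finset.sum_add_distrib]
  have h6 : ∀ k ∈ (Finset.univ : Finset (Fin d)), ((if e.2 < k then (2 : ℝ) else 0) +
      if k < e.2 then 2 else 0) ≤ 2 := by
    intro k _
    rcases lt_trichotomy k e.2 with h | h | h
    · rw [if_neg (not_lt.2 h.le), if_pos h, zero_add]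
    · rw [h]; simp
    · rw [if_pos h, if_neg (not_lt.2 h.le), add_zero]
  refine (Finset.sum_le_sum h6).trans ?_
  rw [Finset.sum_const, Finset.card_univ, Fintype.card_fin, nsmul_eq_mul, mul_comm]

variable (L) in
lemma stS_cont [IsTopologicalGroup G] [NeZero l] (e : Ed d l) :
    Continuous (fun U : Ed d l → G => stS L e U) := by
  unfold stS stp
  have hu : ∀ e' : Ed d l, Continuous fun U : Ed d l → G => U e' := fun e' => continuous_apply e'
  have hi : ∀ e' : Ed d l, Continuous fun U : Ed d l → G => (U e')⁻¹ := fun e' => (hu e').inv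
  refine continuous_finsetSum _ fun x _ => continuous_finsetSum _ fun i _ =>
    continuous_finsetSum _ fun j _ => ?_
  by_cases hij : i < j
  · simp only [if_pos hij]
    refine ((Continuous.add ?_ ?_).add ?_).add ?_
    all_goals
      split_ifs
      · refine L.cont.comp (((Continuous.mul ?_ ?_).mul ?_).mul ?_) <;>
          first | exact hu _ | exact hi _
      · exact continuous_const
  · simp only [if_neg hij]
    exact continuous_const

/-- the derivative of one link variable -/
lemma link_deriv {c : ℝ → G} {X : Mat N} (hc0 : c 0 = 1)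
    (hX : HasDerivAt (fun t => L.rho (c t)) X 0) (e e' : Ed d l) (U : Ed d l → G) :
    HasDerivAt (fun t => L.rho (sh e (c t) U e')) (if e' = e then X * L.rho (U e') else 0) 0 := by
  by_cases h : e' = e
  · subst h
    rw [if_pos rfl]
    have h1 : (fun t => L.rho (sh e' (c t) U e')) = fun t => L.rho (c t) * L.rho (U e') := by
      funext t
      rw [sh_same, map_mul]
    rw [h1]
    exact hX.mul_const _
  · rw [if_neg h]
    have h1 : (fun t => L.rho (sh e (c t) U e')) = fun t => L.rho (U e') := by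
      funext t
      rw [sh_ne h]
    rw [h1]
    exact hasDerivAt_const _ _

lemma tr_ct (A : Mat N) : (trace Aᴴ).re = (trace A).re := by
  rw [trace_conjTranspose]
  exact Complex.conj_re _

lemma tr_alg (p1 p2 p3 p4 : Prop) [Decidable p1] [Decidable p2] [Decidable p3] [Decidable p4]
    (X A1 A2 A3 A4 : Mat N) :
    (trace ((((if p1 then X * A1 else 0) * A2 + A1 * if p2 then X * A2 else 0) * A3ᴴ +
      A1 * A2 * (if p3 then X * A3 else 0)ᴴ) * A4ᴴ +
      A1 * A2 * A3ᴴ * (if p4 then X * A4 else 0)ᴴ)).re =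
    (trace (X * ((if p1 then A1 * A2 * A3ᴴ * A4ᴴ else 0) +
      (if p2 then A2 * A3ᴴ * A4ᴴ * A1 else 0) + (if p3 then A3 * A2ᴴ * A1ᴴ * A4 else 0) +
      (if p4 then A4 * A3 * A2ᴴ * A1ᴴ else 0)))).re := by
  have e1 : ∀ A : Mat N, A * (if p3 then X * A3 else 0)ᴴ * A4ᴴ =
      if p3 then A * (X * A3)ᴴ * A4ᴴ else 0 := by
    intro A; split_ifs <;> simp
  have e2 : ∀ A : Mat N, A * (if p4 then X * A4 else 0)ᴴ = if p4 then A * (X * A4)ᴴ else 0 := by
    intro A; split_ifs <;> simp
  have e3 : (if p1 then X * A1 else 0) * A2 * A3ᴴ * A4ᴴ =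
      if p1 then X * A1 * A2 * A3ᴴ * A4ᴴ else 0 := by split_ifs <;> simp
  have e4 : (A1 * if p2 then X * A2 else 0) * A3ᴴ * A4ᴴ =
      if p2 then A1 * (X * A2) * A3ᴴ * A4ᴴ else 0 := by split_ifs <;> simp
  rw [add_mul, add_mul, add_mul, e1, e2, e3, e4, mul_add, mul_add, mul_add, mul_ite, mul_ite,
    mul_ite, mul_ite, mul_zero]
  simp only [trace_add, Complex.add_re]
  have f1 : (if p1 then X * A1 * A2 * A3ᴴ * A4ᴴ else 0) =
      (if p1 then X * (A1 * A2 * A3ᴴ * A4ᴴ) else 0) := by
    simp only [Matrix.mul_assoc]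
  have f2 : trace (if p2 then A1 * (X * A2) * A3ᴴ * A4ᴴ else 0) =
      trace (if p2 then X * (A2 * A3ᴴ * A4ᴴ * A1) else 0) := by
    split_ifs
    · rw [Matrix.mul_assoc, Matrix.mul_assoc, trace_mul_comm A1]
      simp only [Matrix.mul_assoc]
    · rfl
  have f3 : (trace (if p3 then A1 * A2 * (X * A3)ᴴ * A4ᴴ else 0)).re =
      (trace (if p3 then X * (A3 * A2ᴴ * A1ᴴ * A4) else 0)).re := by
    split_ifs
    · rw [← tr_ct (A1 * A2 * (X * A3)ᴴ * A4ᴴ)]
      simp only [conjTranspose_mul, conjTranspose_conjTranspose]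
      rw [trace_mul_comm A4]
      simp only [Matrix.mul_assoc]
    · rfl
  have f4 : (trace (if p4 then A1 * A2 * A3ᴴ * (X * A4)ᴴ else 0)).re =
      (trace (if p4 then X * (A4 * A3 * A2ᴴ * A1ᴴ) else 0)).re := by
    split_ifs
    · rw [← tr_ct (A1 * A2 * A3ᴴ * (X * A4)ᴴ)]
      simp only [conjTranspose_mul, conjTranspose_conjTranspose]
      simp only [Matrix.mul_assoc]
    · rfl
  rw [f1, f2, f3, f4]

/-- the derivative of the trace of a plaquette -/
lemma plq_deriv {c : ℝ → G} {X : Mat N} (hc0 : c 0 = 1)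
    (hX : HasDerivAt (fun t => L.rho (c t)) X 0) (e : Ed d l) (U : Ed d l → G)
    (x : Fin d → ZMod l) (i j : Fin d) :
    HasDerivAt (fun t => (trace (L.rho (plqT (sh e (c t) U) x i j))).re)
      (trace (X * stp L e U x i j)).re 0 := by
  have h1 := link_deriv hc0 hX e (x, i) U
  have h2 := link_deriv hc0 hX e (x + eT i, j) U
  have h3 := hasDeriv_ct (link_deriv hc0 hX e (x + eT j, i) U)
  have h4 := hasDeriv_ct (link_deriv hc0 hX e (x, j) U)
  have h5 := ((h1.mul h2).mul h3).mul h4
  have hs : sh e (c 0) U = U := by rw [hc0, sh_one]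
  set T : Mat N →L[ℝ] ℝ := ip 1 with hT
  have hTa : ∀ A : Mat N, T A = (trace A).re := fun A => by
    rw [hT, ip_apply, conjTranspose_one, one_mul]
  have h6 := T.hasFDerivAt.comp_hasDerivAt (0 : ℝ) h5
  have h7 : (fun t => (trace (L.rho (plqT (sh e (c t) U) x i j))).re) =
      T ∘ (((fun t => L.rho (sh e (c t) U (x, i))) * fun t => L.rho (sh e (c t) U (x + eT i, j))) *
        (fun t => (L.rho (sh e (c t) U (x + eT j, i)))ᴴ)  *
          fun t => (L.rho (sh e (c t) U (x, j)))ᴴ) := by
    funext t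
    simp only [Function.comp_apply, Pi.mul_apply]
    rw [hTa]
    unfold plqT
    rw [map_mul, map_mul, map_mul, L.rho_inv, L.rho_inv]
  have h8 : (trace (X * stp L e U x i j)).re = T (((((if (x, i) = e then X * L.rho (U (x, i))
      else 0) * L.rho (U (x + eT i, j)) + L.rho (U (x, i)) *
      if (x + eT i, j) = e then X * L.rho (U (x + eT i, j)) else 0) *
      (L.rho (U (x + eT j, i)))ᴴ + L.rho (U (x, i)) * L.rho (U (x + eT i, j)) *
      (if (x + eT j, i) = e then X * L.rho (U (x + eT j, i)) else 0)ᴴ) * (L.rho (U (x, j)))ᴴ +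
      L.rho (U (x, i)) * L.rho (U (x + eT i, j)) * (L.rho (U (x + eT j, i)))ᴴ *
      (if (x, j) = e then X * L.rho (U (x, j)) else 0)ᴴ)) := by
    rw [hTa, tr_alg]
    unfold stp
    simp only [map_mul, L.rho_inv]
  rw [h7, h8]
  simp only [Pi.mul_apply, hs] at h6
  exact h6

/-- the derivative of the action -/
lemma act_deriv [NeZero l] {c : ℝ → G} {X : Mat N} (hc0 : c 0 = 1)
    (hX : HasDerivAt (fun t => L.rho (c t)) X 0) (e : Ed d l) (U : Ed d l → G) :
    HasDerivAt (fun t => act L (sh e (c t) U)) (-(trace (X * stS L e U)).re) 0 := by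
  have h1 : ∀ x i j, HasDerivAt (fun t => if i < j then we L (plqT (sh e (c t) U) x i j) else 0)
      (if i < j then -(trace (X * stp L e U x i j)).re else 0) 0 := by
    intro x i j
    split_ifs
    · have h2 := (plq_deriv hc0 hX e U x i j).const_sub (N : ℝ)
      refine h2.congr_of_eventuallyEq (Eventually.of_forall fun t => ?_)
      show we L _ = _
      unfold we
      rw [trace_sub, trace_one, Complex.sub_re, Fintype.card_fin]
      simp
    · exact hasDerivAt_const _ _
  have h2 : (trace (X * stS L e U)).re =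
      ∑ x, ∑ i, ∑ j, if i < j then (trace (X * stp L e U x i j)).re else 0 := by
    unfold stS
    simp only [Finset.mul_sum, trace_sum, Complex.re_sum]
    refine Finset.sum_congr rfl fun x _ => Finset.sum_congr rfl fun i _ =>
      Finset.sum_congr rfl fun j _ => ?_
    split_ifs
    · rfl
    · simp
  rw [h2]
  have h3 := HasDerivAt.fun_sum (u := Finset.univ) fun (x : Fin d → ZMod l) _ =>
    HasDerivAt.fun_sum (u := Finset.univ) fun (i : Fin d) _ =>
      HasDerivAt.fun_sum (u := Finset.univ) fun (j : Fin d) _ => h1 x i j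
  have h4 : -∑ x, ∑ i, ∑ j, (if i < j then (trace (X * stp L e U x i j)).re else 0) =
      ∑ x, ∑ i, ∑ j, if i < j then -(trace (X * stp L e U x i j)).re else 0 := by
    simp only [← Finset.sum_neg_distrib]
    refine Finset.sum_congr rfl fun x _ => Finset.sum_congr rfl fun i _ =>
      Finset.sum_congr rfl fun j _ => ?_
    split_ifs <;> simp
  rw [h4]
  exact h3

end act

end

end Pool.Agent.T2H01.LN
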