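import Mathlib
import Pool.Agent.T2H01.LN.SD2

/-!
# The Schwinger-Dyson bound for a loop at strong coupling
-/

open MeasureTheory Matrix Filter
open scoped Matrix.Norms.Frobenius Topology
open Pool.Agent.H906R3.YM Pool.Agent.W793.YM Pool.Agent.TH618.YM

namespace Pool.Agent.T2H01.LN

set_option linter.unusedSectionVars false
set_option linter.unusedVariables false

noncomputable section

section loops

variable {G : Type*} [Group G] {d l : ℕ}

lemma ln_sh {e : Ed d l} (g : G) (U : Ed d l → G) (i : Fin d) (k : ℕ) (x : Fin d → ZMod l)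
    (h : ∀ a < k, ((x + a • eT i, i) : Ed d l) ≠ e) : ln (sh e g U) i k x = ln U i k x := by
  induction k generalizing x with
  | zero => rfl
  | succ k ih =>
    rw [ln_succ, ln_succ]
    have h1 := h 0 (Nat.succ_pos k)
    rw [zero_smul, add_zero] at h1
    rw [sh_ne h1, ih]
    intro a ha
    have h2 := h (a + 1) (Nat.succ_lt_succ ha)
    rw [add_smul, one_smul, add_comm (a • eT i)] at h2
    rwa [add_assoc]

lemma nsmul_eT_apply (a : ℕ) (i k : Fin d) :
    (a • (eT i : Fin d → ZMod l)) k = if k = i then (a : ZMod l) else 0 := by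
  unfold eT
  rw [Pi.smul_apply]
  by_cases h : k = i
  · subst h
    rw [Pi.single_eq_same, if_pos rfl, nsmul_one]
  · rw [Pi.single_eq_of_ne h, if_neg h, smul_zero]

lemma rect_sh (g : G) (U : Ed d l → G) (x : Fin d → ZMod l) {i j : Fin d} (hij : i ≠ j)
    {R T : ℕ} (hR : 1 ≤ R) (hRl : R ≤ l) (hT : 1 ≤ T) (hTl : T < l) :
    rect (sh (x, i) g U) x i j R T = g * rect U x i j R T := by
  unfold rect
  obtain ⟨R', rfl⟩ : ∃ R', R = R' + 1 := ⟨R - 1, by omega⟩
  have hj : ∀ y : Fin d → ZMod l, ∀ k, ln (sh (x, i) g U) j k y = ln U j k y := by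
    intro y k
    refine ln_sh g U j k y fun a _ h => hij ?_
    exact (Prod.ext_iff.1 h).2.symm
  have h3 : ln (sh (x, i) g U) i (R' + 1) (x + T • eT j) = ln U i (R' + 1) (x + T • eT j) := by
    refine ln_sh g U i _ _ fun a _ h => ?_
    have h1 := congrFun (Prod.ext_iff.1 h).1 j
    simp only [Pi.add_apply, nsmul_eT_apply, if_true, if_neg hij.symm, add_zero,
      add_eq_left] at h1
    rw [ZMod.natCast_eq_zero_iff] at h1
    have := Nat.le_of_dvd (by omega) h1
    omega
  have h1 : ln (sh (x, i) g U) i (R' + 1) x = g * ln U i (R' + 1) x := by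
    rw [ln_succ, ln_succ, sh_same, mul_assoc]
    congr 2
    refine ln_sh g U i _ _ fun a ha h => ?_
    have h1 := congrFun (Prod.ext_iff.1 h).1 i
    have h2 : (eT i : Fin d → ZMod l) i = 1 := by unfold eT; rw [Pi.single_eq_same]
    simp only [Pi.add_apply, nsmul_eT_apply, if_true, h2, add_assoc, add_eq_left] at h1
    have h4 : ((1 + a : ℕ) : ZMod l) = 0 := by push_cast; exact h1
    rw [ZMod.natCast_eq_zero_iff] at h4
    have := Nat.le_of_dvd (by omega) h4
    omega
  rw [h1, hj, hj, h3]
  simp only [mul_assoc]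

end loops

section sdb

variable {G : Type*} [Group G] [TopologicalSpace G] [IsTopologicalGroup G] [CompactSpace G]
  [SecondCountableTopology G] [MeasurableSpace G] [BorelSpace G] (μ : Measure G)
  [IsProbabilityMeasure μ] [μ.IsMulLeftInvariant] [μ.IsMulRightInvariant]
  [μ.IsInvInvariant] {N n d l : ℕ} [NeZero l] {L : LD G N n}

lemma gc_cont (q : (Fin N × Fin N) × Bool) : Continuous (gc q : Mat N → ℝ) := by
  unfold gc
  exact Complex.continuous_re.comp (Continuous.matrix_trace (continuous_const.mul continuous_id))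

/-- the Schwinger-Dyson equation for one generator -/
lemma sd_one {q : (Fin N × Fin N) × Bool}
    (hc : ∃ c : ℝ → G, (∀ s t, c (s + t) = c s * c t) ∧
      HasDerivAt (fun t => L.rho (c t)) (gen q) 0)
    {W : (Ed d l → G) → Mat N} (hWc : Continuous W) (e : Ed d l)
    (hW : ∀ g U, W (sh e g U) = L.rho g * W U) (β : ℝ) :
    ∫ U, ((trace (gen q * (gen q * W U))).re + β * (gc q (W U) * gc q (stS L e U))) *
      Real.exp (-(β * act L U)) ∂ME μ (Ed d l) = 0 := by
  obtain ⟨c, hc1, hc2⟩ := hc
  have c0 : c 0 = 1 := by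
    have := hc1 0 0
    rw [add_zero] at this
    exact (mul_eq_left.mp this.symm)
  have hac : Continuous (act L : (Ed d l → G) → ℝ) := act_cont
  have hec : Continuous fun U : Ed d l → G => Real.exp (-(β * act L U)) :=
    Real.continuous_exp.comp (continuous_const.mul hac).neg
  refine ibp μ hc1 e (F := fun U => gc q (W U) * Real.exp (-(β * act L U))) ?_ ?_ ?_
  · exact ((gc_cont q).comp hWc).mul hec
  · refine Continuous.mul (Continuous.add ?_ ?_) hec
    · exact Complex.continuous_re.comp (Continuous.matrix_trace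
        (continuous_const.mul (continuous_const.mul hWc)))
    · exact continuous_const.mul (((gc_cont q).comp hWc).mul ((gc_cont q).comp (stS_cont L e)))
  · intro U
    have h1 : HasDerivAt (fun t => gc q (W (sh e (c t) U)))
        ((trace (gen q * (gen q * W U))).re) 0 := by
      have h2 := hc2.mul_const (W U)
      set T : Mat N →L[ℝ] ℝ := ip ((gen q)ᴴ) with hT
      have hTa : ∀ A : Mat N, T A = (trace (gen q * A)).re := fun A => by
        rw [hT, ip_apply, conjTranspose_conjTranspose]
      have h3 := T.hasFDerivAt.comp_hasDerivAt (0 : ℝ) h2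
      have h5 : T (gen q * W U) = (trace (gen q * (gen q * W U))).re := hTa _
      have h6 : HasDerivAt (⇑T ∘ fun y => L.rho (c y) * W U)
          ((trace (gen q * (gen q * W U))).re) 0 := by rw [← h5]; exact h3
      refine h6.congr_of_eventuallyEq (Eventually.of_forall fun t => ?_)
      show gc q (W (sh e (c t) U)) = T (L.rho (c t) * W U)
      rw [hTa, hW]
      rfl
    have h2 := (act_deriv c0 hc2 e U).const_mul β
    have h3 := h2.neg.exp
    have h4 := h1.mul h3
    have hs : sh e (c 0) U = U := by rw [c0, sh_one]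
    rw [hs] at h4
    have h5 : ((trace (gen q * (gen q * W U))).re + β * (gc q (W U) * gc q (stS L e U))) *
        Real.exp (-(β * act L U)) = (trace (gen q * (gen q * W U))).re *
        Real.exp (-(β * act L U)) + gc q (W U) * (Real.exp (-(β * act L U)) *
          -(β * -(trace (gen q * stS L e U)).re)) := by
      unfold gc
      ring
    rw [h5]
    have h6 : (-fun y => β * act L (sh e (c y) U)) (0 : ℝ) = -(β * act L U) := by
      show -(β * act L (sh e (c 0) U)) = _
      rw [hs]
    rw [h6] at h4
    exact h4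

lemma sd_bound (hN : 1 ≤ N)
    (hc : ∀ q ∈ gi N, ∃ c : ℝ → G, (∀ s t, c (s + t) = c s * c t) ∧
      HasDerivAt (fun t => L.rho (c t)) (gen q) 0)
    {W : (Ed d l → G) → Mat N} (hWc : Continuous W) (hWn : ∀ U, ‖W U‖ ≤ √N) (e : Ed d l)
    (hW : ∀ g U, W (sh e g U) = L.rho g * W U) {β : ℝ} (hβ : 0 ≤ β) :
    ((N : ℝ) - 1) * EX μ L β (fun U => (trace (W U)).re) ≤ 2 * d * N * β := by
  have hac : Continuous (act L : (Ed d l → G) → ℝ) := act_cont
  have hec : Continuous fun U : Ed d l → G => Real.exp (-(β * act L U)) :=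
    Real.continuous_exp.comp (continuous_const.mul hac).neg
  have h1 : ∫ U, ∑ q ∈ gi N, ((trace (gen q * (gen q * W U))).re +
      β * (gc q (W U) * gc q (stS L e U))) * Real.exp (-(β * act L U)) ∂ME μ (Ed d l) = 0 := by
    rw [integral_finsetSum]
    · exact Finset.sum_eq_zero fun q hq => sd_one μ (hc q hq) hWc e hW β
    · intro q hq
      refine integrable_cont μ (Continuous.mul (Continuous.add ?_ ?_) hec)
      · exact Complex.continuous_re.comp (Continuous.matrix_trace
          (continuous_const.mul (continuous_const.mul hWc)))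
      · exact continuous_const.mul (((gc_cont q).comp hWc).mul
          ((gc_cont q).comp (stS_cont L e)))
  have h2 : ∀ U : Ed d l → G, ∑ q ∈ gi N, ((trace (gen q * (gen q * W U))).re +
      β * (gc q (W U) * gc q (stS L e U))) * Real.exp (-(β * act L U)) =
      (-(4 * ((N : ℝ) - 1)) * (trace (W U)).re + β * ∑ q ∈ gi N, gc q (W U) * gc q (stS L e U)) *
        Real.exp (-(β * act L U)) := by
    intro U
    rw [← Finset.sum_mul, Finset.sum_add_distrib, gc_gen_sum, Finset.mul_sum]
  simp only [h2] at h1
  have hWt : Continuous fun U : Ed d l → G => (trace (W U)).re :=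
    Complex.continuous_re.comp (Continuous.matrix_trace hWc)
  have h3 : (∫ U, (4 * ((N : ℝ) - 1) * (trace (W U)).re) * Real.exp (-(β * act L U))
      ∂ME μ (Ed d l)) ≤ ∫ U, (8 * d * N * β) * Real.exp (-(β * act L U)) ∂ME μ (Ed d l) := by
    have h4 : ∫ U, (4 * ((N : ℝ) - 1) * (trace (W U)).re) * Real.exp (-(β * act L U))
        ∂ME μ (Ed d l) = ∫ U, ((4 * ((N : ℝ) - 1) * (trace (W U)).re) *
          Real.exp (-(β * act L U)) + (-(4 * ((N : ℝ) - 1)) * (trace (W U)).re +
            β * ∑ q ∈ gi N, gc q (W U) * gc q (stS L e U)) * Real.exp (-(β * act L U)))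
          ∂ME μ (Ed d l) := by
      rw [integral_add, h1, add_zero]
      · exact integrable_cont μ ((continuous_const.mul hWt).mul hec)
      · refine integrable_cont μ (((continuous_const.mul hWt).add (continuous_const.mul
          (continuous_finsetSum _ fun q _ => ?_))).mul hec)
        exact ((gc_cont q).comp hWc).mul ((gc_cont q).comp (stS_cont L e))
    rw [h4]
    refine integral_mono ?_ (integrable_cont μ (continuous_const.mul hec)) fun U => ?_
    · refine integrable_cont μ (((continuous_const.mul hWt).mul hec).add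
        (((continuous_const.mul hWt).add (continuous_const.mul
          (continuous_finsetSum _ fun q _ => ?_))).mul hec))
      exact ((gc_cont q).comp hWc).mul ((gc_cont q).comp (stS_cont L e))
    · show 4 * ((N : ℝ) - 1) * (trace (W U)).re * Real.exp (-(β * act L U)) +
        (-(4 * ((N : ℝ) - 1)) * (trace (W U)).re + β * ∑ q ∈ gi N, gc q (W U) * gc q (stS L e U)) *
        Real.exp (-(β * act L U)) ≤ 8 * d * N * β * Real.exp (-(β * act L U))
      rw [← add_mul]
      refine mul_le_mul_of_nonneg_right ?_ (Real.exp_pos _).le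
      have h5 : ∑ q ∈ gi N, gc q (W U) * gc q (stS L e U) ≤ 8 * d * N := by
        refine (le_abs_self _).trans ((gc_cs _ _).trans ?_)
        have h6 : ‖W U‖ * ‖stS L e U‖ ≤ √N * (2 * d * √N) :=
          mul_le_mul (hWn U) (stS_norm e U) (norm_nonneg _) (Real.sqrt_nonneg _)
        have h7 : √(N : ℝ) * √(N : ℝ) = N := Real.mul_self_sqrt (Nat.cast_nonneg N)
        calc 4 * (‖W U‖ * ‖stS L e U‖) ≤ 4 * (√N * (2 * d * √N)) := by linarith
          _ = 8 * d * (√N * √N) := by ring
          _ = 8 * d * N := by rw [h7]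
      nlinarith
  have hZ := Zt_pos μ (L := L) (d := d) (l := l) β
  unfold EX
  have h5 : Zt μ L β (fun _ : Ed d l → G => 1) =
      ∫ U, Real.exp (-(β * act L U)) ∂ME μ (Ed d l) := by
    unfold Zt
    simp only [one_mul]
  have h6 : ∫ U, (4 * ((N : ℝ) - 1) * (trace (W U)).re) * Real.exp (-(β * act L U))
      ∂ME μ (Ed d l) = 4 * ((N : ℝ) - 1) * Zt μ L β (fun U : Ed d l → G => (trace (W U)).re) := by
    unfold Zt
    rw [← integral_const_mul]
    refine integral_congr_ae (Eventually.of_forall fun U => ?_)
    simp only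
    ring
  rw [h6, integral_const_mul, ← h5] at h3
  rw [mul_div_assoc', div_le_iff₀ hZ]
  linarith

end sdb

end

end Pool.Agent.T2H01.LN
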