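import Mathlib
import Pool.Agent.T2H01.LN.Loop
import Pool.Agent.T2H01.LN.SD3

/-!
# Infinite volume: the eigenvalues of the Wilson loops at strong coupling
-/

open MeasureTheory Matrix Filter Module
open scoped Matrix.Norms.Frobenius Topology InnerProductSpace ENNReal
open Pool.Agent.H906R3.YM hiding Pl
open Pool.Agent.W793.YM Pool.Agent.TH618.YM Pool.Agent.Y14 Pool.Agent.T2H01.YM

namespace Pool.Agent.T2H01.LN

set_option linter.unusedSectionVars false
set_option linter.unusedVariables false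

noncomputable section

section per

variable {G : Type*} [Group G] {d l : ℕ}

lemma lnZ_pe (U : Ed d l → G) (i : Fin d) (k : ℕ) (x : Fin d → ℤ) :
    lnZ (pe U) i k x = ln U i k (cs l x) := by
  induction k generalizing x with
  | zero => rfl
  | succ k ih =>
    rw [lnZ, ln_succ, ih, cs_add, cs_single]
    rfl

lemma cs_single' (i : Fin d) (a : ℕ) :
    cs l (Pi.single i (a : ℤ)) = a • (eT i : Fin d → ZMod l) := by
  funext k
  rw [nsmul_eT_apply]
  unfold Pool.Agent.T2H01.YM.cs
  by_cases h : k = i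
  · subst h
    rw [Pi.single_eq_same, if_pos rfl]
    push_cast
    rfl
  · rw [Pi.single_eq_of_ne h, if_neg h]
    push_cast
    rfl

lemma lpZ_pe (U : Ed d l → G) (x : Fin d → ℤ) (i j : Fin d) (R T : ℕ) :
    lpZ (pe U) x i j R T = rect U (cs l x) i j R T := by
  unfold lpZ rect
  rw [lnZ_pe, lnZ_pe, lnZ_pe, lnZ_pe, cs_add, cs_add, cs_single', cs_single']

end per

section mean

variable {G : Type*} [Group G] [TopologicalSpace G] [IsTopologicalGroup G] [CompactSpace G]
  [SecondCountableTopology G] [MeasurableSpace G] [BorelSpace G] (μ : Measure G)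
  [IsProbabilityMeasure μ] [μ.IsMulLeftInvariant] [μ.IsMulRightInvariant] [μ.IsInvInvariant]
  {N n d : ℕ} {L : LD G N n}

lemma lnZ_cont (i : Fin d) (k : ℕ) (x : Fin d → ℤ) :
    Continuous fun V : LZ d → G => lnZ V i k x := by
  induction k generalizing x with
  | zero => exact continuous_const
  | succ k ih =>
    show Continuous fun V : LZ d → G => V (x, i) * lnZ V i k (x + Pi.single i 1)
    exact (continuous_apply _).mul (ih _)

lemma lpZ_cont (x : Fin d → ℤ) (i j : Fin d) (R T : ℕ) :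
    Continuous fun V : LZ d → G => lpZ V x i j R T :=
  (((lnZ_cont _ _ _).mul (lnZ_cont _ _ _)).mul (lnZ_cont _ _ _).inv).mul (lnZ_cont _ _ _).inv

lemma ln_cont {l : ℕ} (i : Fin d) (k : ℕ) (x : Fin d → ZMod l) :
    Continuous fun U : Ed d l → G => ln U i k x := by
  induction k generalizing x with
  | zero => exact continuous_const
  | succ k ih =>
    show Continuous fun U : Ed d l → G => U (x, i) * ln U i k (x + eT i)
    exact (continuous_apply _).mul (ih _)

lemma rect_cont {l : ℕ} (x : Fin d → ZMod l) (i j : Fin d) (R T : ℕ) :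
    Continuous fun U : Ed d l → G => rect U x i j R T :=
  (((ln_cont _ _ _).mul (ln_cont _ _ _)).mul (ln_cont _ _ _).inv).mul (ln_cont _ _ _).inv

/-- **The mean of the Wilson loops at strong coupling.** -/
lemma loop_mean (hN : 1 ≤ N)
    (hc : ∀ q ∈ gi N, ∃ c : ℝ → G, (∀ s t, c (s + t) = c s * c t) ∧
      HasDerivAt (fun t => L.rho (c t)) (gen q) 0)
    {β : ℝ} (hβ : 0 ≤ β) {ν : Measure (LZ d → G)} (hI : IV μ L β ν) {i j : Fin d} (hij : i ≠ j)
    (x : Fin d → ℤ) {R T : ℕ} (hR : 1 ≤ R) (hT : 1 ≤ T) :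
    ((N : ℝ) - 1) * ∫ V, (trace (L.rho (lpZ V x i j R T))).re ∂ν ≤ 2 * d * N * β := by
  obtain ⟨s, hs, hlim⟩ := hI.lim
  have hcont : Continuous fun V : LZ d → G => (trace (L.rho (lpZ V x i j R T))).re :=
    Complex.continuous_re.comp (Continuous.matrix_trace (L.cont.comp (lpZ_cont x i j R T)))
  have h1 := (hlim _ hcont).const_mul ((N : ℝ) - 1)
  refine le_of_tendsto h1 ?_
  filter_upwards [hs.eventually_ge_atTop (R + T)] with k hk
  simp only [lpZ_pe]
  refine sd_bound μ hN hc (L := L) (W := fun U : Ed d (2 * (s k + 1)) → G =>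
    L.rho (rect U (cs (2 * (s k + 1)) x) i j R T)) ?_ (fun U => (rho_frob' _).le)
    (cs (2 * (s k + 1)) x, i) ?_ hβ
  · exact L.cont.comp (rect_cont _ _ _ _ _)
  · intro g U
    rw [rect_sh g U _ hij hR (by omega) hT (by omega), map_mul]

lemma ofReal_integral_le {X : Type*} [MeasurableSpace X] (ν : Measure X) {f : X → ℝ}
    (hf : Integrable f ν) : ENNReal.ofReal (∫ x, f x ∂ν) ≤ ∫⁻ x, ENNReal.ofReal (f x) ∂ν := by
  have h1 := integral_eq_lintegral_pos_part_sub_lintegral_neg_part hf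
  refine ENNReal.ofReal_le_of_le_toReal ?_
  rw [h1]
  have := ENNReal.toReal_nonneg (a := ∫⁻ x, ENNReal.ofReal (-f x) ∂ν)
  linarith

/-- **The eigenvalues at strong coupling.** -/
theorem loop_nogap (hN : 2 ≤ N)
    (hc : ∀ q ∈ gi N, ∃ c : ℝ → G, (∀ s t, c (s + t) = c s * c t) ∧
      HasDerivAt (fun t => L.rho (c t)) (gen q) 0)
    {b : ℝ} (hb : 0 ≤ b) {ν : Measure (LZ d → G)} (hI : IV μ L (N * b) ν) {i j : Fin d}
    (hij : i ≠ j) (x : Fin d → ℤ) {R T : ℕ} (hR : 1 ≤ R) (hT : 1 ≤ T) :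
    ENNReal.ofReal ((1 - 4 * d * b * (N / (N - 1))) / 3) ≤
      ∫⁻ V, ENNReal.ofReal ((cnt2 (L.rho (lpZ V x i j R T)) : ℝ) / N) ∂ν := by
  have := hI.prob
  have hN0 : (0 : ℝ) < N := by
    have : 0 < N := by omega
    exact_mod_cast this
  have hN1 : (0 : ℝ) < (N : ℝ) - 1 := by
    have : (2 : ℝ) ≤ N := by exact_mod_cast hN
    linarith
  have h1 := loop_mean μ (by omega) hc (by positivity) hI hij x hR hT
  have hcont : Continuous fun V : LZ d → G => (trace (L.rho (lpZ V x i j R T))).re :=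
    Complex.continuous_re.comp (Continuous.matrix_trace (L.cont.comp (lpZ_cont x i j R T)))
  have hint0 : Integrable (fun V : LZ d → G => (trace (L.rho (lpZ V x i j R T))).re) ν :=
    hcont.integrable_of_hasCompactSupport (HasCompactSupport.of_compactSpace _)
  have hint : Integrable (fun V : LZ d → G =>
      2 / 3 * (1 / 2 - (trace (L.rho (lpZ V x i j R T))).re / N)) ν :=
    ((integrable_const _).sub (hint0.div_const _)).const_mul _
  have h2 : ∀ V : LZ d → G, 2 / 3 * (1 / 2 - (trace (L.rho (lpZ V x i j R T))).re / N) ≤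
      (cnt2 (L.rho (lpZ V x i j R T)) : ℝ) / N := by
    intro V
    have h3 := tr_cnt2 (L.unit' (lpZ V x i j R T))
    rw [le_div_iff₀ hN0]
    have h4 : (trace (L.rho (lpZ V x i j R T))).re / N * N =
        (trace (L.rho (lpZ V x i j R T))).re := div_mul_cancel₀ _ hN0.ne'
    linarith
  refine le_trans ?_ (lintegral_mono fun V => ENNReal.ofReal_le_ofReal (h2 V))
  refine le_trans (ENNReal.ofReal_le_ofReal ?_) (ofReal_integral_le ν hint)
  rw [integral_const_mul, integral_sub (integrable_const _) (hint0.div_const _),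
    integral_const, integral_div, probReal_univ, one_smul]
  have h5 : (∫ V, (trace (L.rho (lpZ V x i j R T))).re ∂ν) / N ≤ 2 * d * b * (N / (N - 1)) := by
    rw [div_le_iff₀ hN0]
    have h6 : ∫ V, (trace (L.rho (lpZ V x i j R T))).re ∂ν ≤
        2 * d * N * (N * b) / ((N : ℝ) - 1) := by
      rw [le_div_iff₀ hN1]
      linarith
    refine h6.trans (le_of_eq ?_)
    field_simp
  linarith

/-- the fraction at weak coupling -/
theorem loop_small {b : ℝ} (hb : 0 < b) {ν : Measure (LZ d → G)} (hI : IV μ L (N * b) ν)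
    {i j : Fin d} (hij : i ≠ j) (x : Fin d → ℤ) {R T : ℕ} (hR : 1 ≤ R) (hT : 1 ≤ T)
    (hb1 : 240 * ((R : ℝ) * T) ^ 2 ≤ b) :
    ∫⁻ V, ENNReal.ofReal ((cnt2 (L.rho (lpZ V x i j R T)) : ℝ) / N) ∂ν ≤
      ENNReal.ofReal (R * T * Real.exp (-N)) := by
  have := hI.prob
  have hRT : (0 : ℝ) < R * T := by
    have : (0 : ℝ) < R := by exact_mod_cast hR
    have : (0 : ℝ) < T := by exact_mod_cast hT
    positivity
  obtain ⟨S, hS⟩ : ∃ S : Set (LZ d → G), S = {V | ∃ z ∈ (L.rho (lpZ V x i j R T)).charpoly.roots,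
      240 * (1 : ℝ) * (R * T) ^ 2 / b ≤ ‖1 - z‖ ^ 2} := ⟨_, rfl⟩
  have h1 := loop_gap μ hb hI hij x hR hT (le_refl (1 : ℝ))
  rw [one_mul, ← hS] at h1
  refine le_trans ?_ h1
  have h2 : ∀ V : LZ d → G, ENNReal.ofReal ((cnt2 (L.rho (lpZ V x i j R T)) : ℝ) / N) ≤
      (toMeasurable ν S).indicator (fun _ => (1 : ℝ≥0∞)) V := by
    intro V
    by_cases hV : V ∈ S
    · rw [Set.indicator_of_mem (subset_toMeasurable ν S hV)]
      refine ENNReal.ofReal_le_one.2 ?_
      refine div_le_one_of_le₀ ?_ (Nat.cast_nonneg N)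
      exact_mod_cast cnt2_le _
    · have h3 : cnt2 (L.rho (lpZ V x i j R T)) = 0 := by
        refine cnt2_zero (L.unit' _) fun z hz => ?_
        rw [hS] at hV
        simp only [Set.mem_ofPred_eq, not_exists, not_and, not_le] at hV
        refine (hV z hz).trans_le ?_
        rw [div_le_one hb]
        linarith
      rw [h3, Nat.cast_zero, zero_div, ENNReal.ofReal_zero]
      exact zero_le
  refine (lintegral_mono h2).trans ?_
  rw [lintegral_indicator_const (measurableSet_toMeasurable ν S), one_mul, measure_toMeasurable]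

end mean

end

end Pool.Agent.T2H01.LN
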