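import Mathlib
import Pool.Agent.T2H01.LN.Net
import Pool.Agent.T2H01.LN.SD2

/-!
# The mean of one link variable in an external field
-/

open MeasureTheory Matrix Filter Module
open scoped Matrix.Norms.Frobenius Topology InnerProductSpace
open Pool.Agent.H906R3.YM hiding Pl
open Pool.Agent.W793.YM Pool.Agent.TH618.YM

namespace Pool.Agent.T2H01.LN

set_option linter.unusedSectionVars false
set_option linter.unusedVariables false

noncomputable section

/-! ### integration by parts on the group -/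

section ibpG

variable {G : Type*} [Group G] [TopologicalSpace G] [IsTopologicalGroup G] [CompactSpace G]
  [SecondCountableTopology G] [MeasurableSpace G] [BorelSpace G] (μ : Measure G)
  [IsProbabilityMeasure μ] [μ.IsMulLeftInvariant]

lemma intG {F : G → ℝ} (hF : Continuous F) : Integrable F μ :=
  hF.integrable_of_hasCompactSupport (HasCompactSupport.of_compactSpace _)

lemma ibpG {c : ℝ → G} (hc : ∀ s t, c (s + t) = c s * c t) {F F' : G → ℝ}
    (hF : Continuous F) (hF' : Continuous F')
    (hd : ∀ g, HasDerivAt (fun t => F (c t * g)) (F' g) 0) : ∫ g, F' g ∂μ = 0 := by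
  obtain ⟨C, hC⟩ : ∃ C, ∀ U, |F' U| ≤ C := by
    obtain ⟨C, hC⟩ := (isCompact_univ.image hF'.norm).bddAbove
    exact ⟨C, fun U => hC ⟨U, trivial, rfl⟩⟩
  have c0 : c 0 = 1 := by
    have := hc 0 0
    rw [add_zero] at this
    exact (mul_eq_left.mp this.symm)
  have hconst : ∀ t, ∫ g, F (c t * g) ∂μ = ∫ g, F g ∂μ := by
    intro t
    exact integral_mul_left_eq_self (μ := μ) F (c t)
  have hcm : ∀ h : G, Continuous fun g => h * g := fun h => continuous_const.mul continuous_id
  have hdt : ∀ (g : G) (t : ℝ),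
      HasDerivAt (fun t => F (c t * g)) (F' (c t * g)) t := by
    intro g t
    have h1 := hd (c t * g)
    have h2 : HasDerivAt (fun s : ℝ => s - t) 1 t := (hasDerivAt_id t).sub_const t
    have h3 : HasDerivAt (fun s => F (c s * (c t * g))) (F' (c t * g)) (t - t) := by
      rw [sub_self]; exact h1
    have h4 := HasDerivAt.scomp (h := fun s : ℝ => s - t) t h3 h2
    rw [one_smul] at h4
    refine h4.congr_of_eventuallyEq (Eventually.of_forall fun s => ?_)
    show F (c s * g) = F (c (s - t) * (c t * g))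
    rw [← mul_assoc, ← hc, sub_add_cancel]
  have hder := hasDerivAt_integral_of_dominated_loc_of_deriv_le (μ := μ)
    (F := fun t g => F (c t * g))
    (F' := fun t g => F' (c t * g)) (x₀ := (0 : ℝ)) (s := Set.univ)
    (bound := fun _ => C) Filter.univ_mem
    (Filter.Eventually.of_forall fun t => (hF.comp (hcm (c t))).aestronglyMeasurable)
    (intG μ (hF.comp (hcm (c 0))))
    ((hF'.comp (hcm (c 0))).aestronglyMeasurable)
    (Filter.Eventually.of_forall fun g t _ => hC _) (integrable_const _)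
    (Filter.Eventually.of_forall fun g t _ => hdt g t)
  have h1 := hder.2.deriv
  have h2 : (fun t => ∫ g, F (c t * g) ∂μ) = fun _ => ∫ g, F g ∂μ := funext hconst
  rw [h2, deriv_const] at h1
  rw [h1]
  simp only [c0, one_mul]

end ibpG

/-! ### the second-order term -/

section zm

variable {N : ℕ}

/-- the second-order term -/
def Zm (W : Mat N) : Mat N := ∑ q ∈ gi N, gc q W • gen q

lemma Zm_skew (W : Mat N) : (Zm W)ᴴ = -Zm W := by
  unfold Zm
  rw [conjTranspose_sum, ← Finset.sum_neg_distrib]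
  refine Finset.sum_congr rfl fun q _ => ?_
  rw [smul_ct, gen_skew, smul_neg]

lemma Zm_apply (W : Mat N) (a b : Fin N) :
    Zm W a b = if a = b then 0 else -2 * (W a b - star (W b a)) := by
  unfold Zm
  rw [Matrix.sum_apply]
  unfold gi
  rw [Finset.sum_filter, Fintype.sum_prod_type, Fintype.sum_prod_type]
  simp only [Fintype.sum_bool, gc_true, gc_false, gen, if_true, Bool.false_eq_true, if_false,
    Matrix.smul_apply, Matrix.add_apply, Matrix.sub_apply, Matrix.single_apply]
  by_cases hab : a = b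
  · subst hab
    rw [if_pos rfl]
    refine Finset.sum_eq_zero fun j _ => Finset.sum_eq_zero fun k _ => ?_
    by_cases hjk : j = k
    · simp [hjk]
    · have h1 : ¬(j = a ∧ k = a) := fun h => hjk (h.1.trans h.2.symm)
      have h2 : ¬(k = a ∧ j = a) := fun h => hjk (h.2.trans h.1.symm)
      simp [hjk, h1, h2]
  · rw [if_neg hab]
    have hsplit : ∀ j k : Fin N,
        (if j ≠ k then -((W k j).im + (W j k).im) •
          Complex.I • ((if j = a ∧ k = b then (1 : ℂ) else 0) + if k = a ∧ j = b then 1 else 0)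
          else 0) +
        (if j ≠ k then ((W k j).re - (W j k).re) • ((if j = a ∧ k = b then (1 : ℂ) else 0) -
            if k = a ∧ j = b then 1 else 0) else 0) =
        (if j = a then (if k = b then (-((W k j).im + (W j k).im) : ℝ) * Complex.I +
          ((W k j).re - (W j k).re : ℝ) else 0) else 0) +
        (if k = a then (if j = b then (-((W k j).im + (W j k).im) : ℝ) * Complex.I -
          ((W k j).re - (W j k).re : ℝ) else 0) else 0) := by
      intro j k
      by_cases hjk : j = k
      · subst hjk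
        by_cases h1 : j = a
        · subst h1; simp [hab]
        · simp [h1]
      · by_cases h1 : j = a
        · subst h1
          by_cases h2 : k = b
          · subst h2
            have h3 : ¬(k = j) := fun h => hjk h.symm
            simp [hjk, h3]
          · have h3 : ¬(k = j) := fun h => hjk h.symm
            simp [hjk, h2, h3]
        · by_cases h2 : k = a
          · subst h2
            by_cases h3 : j = b
            · subst h3
              simp [hjk]
              ring
            · simp [hjk, h3]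
          · simp [hjk, h1, h2]
    rw [Finset.sum_congr rfl fun j _ => Finset.sum_congr rfl fun k _ => hsplit j k]
    simp only [Finset.sum_add_distrib]
    have e1 : ∑ j : Fin N, ∑ k : Fin N, (if j = a then (if k = b then
        (((-((W k j).im + (W j k).im) : ℝ) : ℂ) * Complex.I + (((W k j).re - (W j k).re : ℝ) : ℂ))
        else 0) else 0) = ((-((W b a).im + (W a b).im) : ℝ) : ℂ) * Complex.I +
          (((W b a).re - (W a b).re : ℝ) : ℂ) := by
      rw [Finset.sum_eq_single a]
      · rw [Finset.sum_eq_single b]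
        · simp
        · intro k _ hk; simp [hk]
        · simp
      · intro j _ hj; simp [hj]
      · simp
    have e2 : ∑ j : Fin N, ∑ k : Fin N, (if k = a then (if j = b then
        (((-((W k j).im + (W j k).im) : ℝ) : ℂ) * Complex.I - (((W k j).re - (W j k).re : ℝ) : ℂ))
        else 0) else 0) = ((-((W a b).im + (W b a).im) : ℝ) : ℂ) * Complex.I -
          (((W a b).re - (W b a).re : ℝ) : ℂ) := by
      rw [Finset.sum_eq_single b]
      · rw [Finset.sum_eq_single a]
        · simp
        · intro k _ hk; simp [hk]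
        · simp
      · intro j _ hj; simp [hj]
      · simp
    rw [e1, e2]
    refine Complex.ext ?_ ?_
    · simp
      ring
    · simp
      ring

/-- a diagonal entry -/
lemma entry_le (A : Mat N) (j : Fin N) : ‖A j j‖ ≤ opn A := by
  have h1 := (op A).le_opNorm (EuclideanSpace.single j (1 : ℂ))
  rw [PiLp.norm_single, norm_one, mul_one] at h1
  refine le_trans ?_ h1
  have h2 : A j j = (op A (EuclideanSpace.single j (1 : ℂ))) j := by
    unfold op
    rw [show (EuclideanSpace.single j (1 : ℂ) : Ec N) = WithLp.toLp 2 (Pi.single j 1) from rfl,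
      Matrix.toEuclideanCLM_toLp]
    show A j j = (A *ᵥ Pi.single j 1) j
    rw [Matrix.mulVec_single_one]
    rfl
  rw [h2]
  exact PiLp.norm_apply_le _ j

lemma opn_diag {c : ℝ} (hc : 0 ≤ c) {v : Fin N → ℂ} (hv : ∀ j, ‖v j‖ ≤ c) :
    opn (Matrix.diagonal v) ≤ c := by
  refine ContinuousLinearMap.opNorm_le_bound _ hc fun x => ?_
  have h1 : ‖op (Matrix.diagonal v) x‖ ^ 2 ≤ (c * ‖x‖) ^ 2 := by
    rw [EuclideanSpace.norm_sq_eq, mul_pow, EuclideanSpace.norm_sq_eq, Finset.mul_sum]
    refine Finset.sum_le_sum fun j _ => ?_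
    have h2 : (op (Matrix.diagonal v) x) j = v j * x j := by
      unfold op
      show ((Matrix.toEuclideanCLM (n := Fin N) (𝕜 := ℂ) (Matrix.diagonal v)) x).ofLp j = _
      rw [Matrix.ofLp_toEuclideanCLM, Matrix.mulVec_diagonal]
    rw [h2, norm_mul, mul_pow]
    exact mul_le_mul_of_nonneg_right (pow_le_pow_left₀ (norm_nonneg _) (hv j) 2) (sq_nonneg _)
  exact (pow_le_pow_iff_left₀ (norm_nonneg _) (by positivity) two_ne_zero).1 h1

lemma opn_ct (A : Mat N) : opn Aᴴ = opn A := by
  unfold opn op
  rw [← Matrix.star_eq_conjTranspose, map_star]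
  exact LinearIsometryEquiv.norm_map ContinuousLinearMap.adjoint _

lemma opn_smul (c : ℂ) (A : Mat N) : opn (c • A) = ‖c‖ * opn A := by
  unfold opn op
  rw [map_smul, norm_smul]

lemma Zm_opn (W : Mat N) : opn (Zm W) ≤ 8 * opn W := by
  obtain ⟨S, hS⟩ : ∃ S, S = W - Wᴴ := ⟨_, rfl⟩
  have h1 : Zm W = (-2 : ℂ) • (S + -Matrix.diagonal fun j => S j j) := by
    ext a b
    rw [Zm_apply, Matrix.smul_apply, Matrix.add_apply, Matrix.neg_apply, Matrix.diagonal_apply, hS]
    by_cases h : a = b
    · subst h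
      simp
    · rw [if_neg h, if_neg h, neg_zero, add_zero, smul_eq_mul, Matrix.sub_apply,
        Matrix.conjTranspose_apply]
  have h2 : opn S ≤ 2 * opn W := by
    rw [hS, sub_eq_add_neg]
    refine (opn_add _ _).trans ?_
    rw [opn_neg, opn_ct]
    linarith
  have h3 : opn (Matrix.diagonal fun j => S j j) ≤ opn S :=
    opn_diag (opn_nonneg S) fun j => entry_le S j
  rw [h1, opn_smul]
  have h4 : opn (S + -Matrix.diagonal fun j => S j j) ≤ 2 * opn S := by
    refine (opn_add _ _).trans ?_
    rw [opn_neg]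
    linarith
  have h5 : ‖(-2 : ℂ)‖ = 2 := by simp
  rw [h5]
  linarith

end zm

/-! ### the mean of one link -/

section one

variable {G : Type*} [Group G] [TopologicalSpace G] [IsTopologicalGroup G] [CompactSpace G]
  [SecondCountableTopology G] [MeasurableSpace G] [BorelSpace G] (μ : Measure G)
  [IsProbabilityMeasure μ] [μ.IsMulLeftInvariant] [μ.IsMulRightInvariant] {N n : ℕ}
  {L : LD G N n}

/-- the real bilinear form of two vectors -/
def phi (u v : Ec N) : Mat N →L[ℝ] ℝ :=
  LinearMap.toContinuousLinearMap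
    { toFun := fun A => (⟪u, op A v⟫_ℂ).re
      map_add' := fun A B => by
        unfold op
        rw [map_add, _root_.add_apply, inner_add_right, Complex.add_re]
      map_smul' := fun c A => by
        have h1 : op (c • A) v = (c : ℂ) • op A v := by
          unfold op
          rw [show c • A = (c : ℂ) • A from rfl, map_smul]
          rfl
        rw [h1, inner_smul_right, Complex.re_ofReal_mul]
        rfl }

lemma phi_apply (u v : Ec N) (A : Mat N) : phi u v A = (⟪u, op A v⟫_ℂ).re := rfl

variable (L) in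
/-- the weight of one link -/
def wl (β : ℝ) (M : Mat N) (g : G) : ℝ := Real.exp (β * (trace (L.rho g * M)).re)

variable (L) in
lemma wl_cont (β : ℝ) (M : Mat N) : Continuous (wl L β M) := by
  unfold wl
  exact Real.continuous_exp.comp (continuous_const.mul (Complex.continuous_re.comp
    (Continuous.matrix_trace (L.cont.mul continuous_const))))

lemma wl_pos (β : ℝ) (M : Mat N) (g : G) : 0 < wl L β M g := Real.exp_pos _

lemma wl_int_pos (β : ℝ) (M : Mat N) : 0 < ∫ g, wl L β M g ∂μ := by
  unfold wl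
  refine integral_exp_pos ?_
  exact intG μ (wl_cont L β M)

/-- the Schwinger-Dyson equation for one link -/
lemma one_sd {q : (Fin N × Fin N) × Bool}
    (hc : ∃ c : ℝ → G, (∀ s t, c (s + t) = c s * c t) ∧
      HasDerivAt (fun t => L.rho (c t)) (gen q) 0) (u v : Ec N) (M : Mat N) (β : ℝ) :
    ∫ g, (phi u v (gen q * (gen q * L.rho g)) +
      β * (gc q (L.rho g * M) * phi u v (gen q * L.rho g))) * wl L β M g ∂μ = 0 := by
  obtain ⟨c, hc1, hc2⟩ := hc
  have c0 : c 0 = 1 := by
    have := hc1 0 0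
    rw [add_zero] at this
    exact (mul_eq_left.mp this.symm)
  have hgc : Continuous fun g : G => gc q (L.rho g * M) := by
    unfold gc
    exact Complex.continuous_re.comp (Continuous.matrix_trace
      (continuous_const.mul (L.cont.mul continuous_const)))
  refine ibpG μ hc1 (F := fun g => phi u v (gen q * L.rho g) * wl L β M g) ?_ ?_ ?_
  · exact ((phi u v).continuous.comp (continuous_const.mul L.cont)).mul (wl_cont L β M)
  · refine Continuous.mul (Continuous.add ?_ (continuous_const.mul (hgc.mul ?_))) (wl_cont L β M)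
    · exact (phi u v).continuous.comp (continuous_const.mul (continuous_const.mul L.cont))
    · exact (phi u v).continuous.comp (continuous_const.mul L.cont)
  · intro g
    have h0 : HasDerivAt (fun t => L.rho (c t * g)) (gen q * L.rho g) 0 := by
      refine (hc2.mul_const (L.rho g)).congr_of_eventuallyEq (Eventually.of_forall fun t => ?_)
      exact map_mul _ _ _
    have h1 : HasDerivAt (fun t => phi u v (gen q * L.rho (c t * g)))
        (phi u v (gen q * (gen q * L.rho g))) 0 :=
      (phi u v).hasFDerivAt.comp_hasDerivAt (0 : ℝ) (h0.const_mul (gen q))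
    have h2 : HasDerivAt (fun t => (trace (L.rho (c t * g) * M)).re) (gc q (L.rho g * M)) 0 := by
      set T : Mat N →L[ℝ] ℝ := ip 1 with hT
      have hTa : ∀ A : Mat N, T A = (trace A).re := fun A => by
        rw [hT, ip_apply, conjTranspose_one, one_mul]
      have h3 := T.hasFDerivAt.comp_hasDerivAt (0 : ℝ) (h0.mul_const M)
      have h4 : T (gen q * L.rho g * M) = gc q (L.rho g * M) := by
        rw [hTa]
        unfold gc
        rw [mul_assoc]
      have h6 : HasDerivAt (⇑T ∘ fun y => L.rho (c y * g) * M) (gc q (L.rho g * M)) 0 := by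
        rw [← h4]; exact h3
      refine h6.congr_of_eventuallyEq (Eventually.of_forall fun t => ?_)
      exact (hTa _).symm
    have h3 := (h2.const_mul β).exp
    have h4 := h1.mul h3
    rw [c0, one_mul] at h4
    have h5 : (phi u v (gen q * (gen q * L.rho g)) +
        β * (gc q (L.rho g * M) * phi u v (gen q * L.rho g))) * wl L β M g =
        phi u v (gen q * (gen q * L.rho g)) * Real.exp (β * (trace (L.rho g * M)).re) +
        phi u v (gen q * L.rho g) * (Real.exp (β * (trace (L.rho g * M)).re) *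
          (β * gc q (L.rho g * M))) := by
      unfold wl
      ring
    rw [h5]
    exact h4

/-- the sum over the generators -/
lemma one_sum (hc : ∀ q ∈ gi N, ∃ c : ℝ → G, (∀ s t, c (s + t) = c s * c t) ∧
      HasDerivAt (fun t => L.rho (c t)) (gen q) 0) (u v : Ec N) (M : Mat N) (β : ℝ) :
    4 * ((N : ℝ) - 1) * ∫ g, phi u v (L.rho g) * wl L β M g ∂μ =
      β * ∫ g, phi u v (Zm (L.rho g * M) * L.rho g) * wl L β M g ∂μ := by
  have hgc : ∀ q, Continuous fun g : G => gc q (L.rho g * M) := by
    intro q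
    unfold gc
    exact Complex.continuous_re.comp (Continuous.matrix_trace
      (continuous_const.mul (L.cont.mul continuous_const)))
  have h1 : ∫ g, ∑ q ∈ gi N, (phi u v (gen q * (gen q * L.rho g)) +
      β * (gc q (L.rho g * M) * phi u v (gen q * L.rho g))) * wl L β M g ∂μ = 0 := by
    rw [integral_finsetSum]
    · exact Finset.sum_eq_zero fun q hq => one_sd μ (hc q hq) u v M β
    · intro q hq
      refine intG μ (Continuous.mul (Continuous.add ?_ (continuous_const.mul ((hgc q).mul ?_)))
        (wl_cont L β M))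
      · exact (phi u v).continuous.comp (continuous_const.mul (continuous_const.mul L.cont))
      · exact (phi u v).continuous.comp (continuous_const.mul L.cont)
  have h2 : ∀ g : G, ∑ q ∈ gi N, (phi u v (gen q * (gen q * L.rho g)) +
      β * (gc q (L.rho g * M) * phi u v (gen q * L.rho g))) * wl L β M g =
      -(4 * ((N : ℝ) - 1)) * (phi u v (L.rho g) * wl L β M g) +
        β * (phi u v (Zm (L.rho g * M) * L.rho g) * wl L β M g) := by
    intro g
    rw [← Finset.sum_mul, Finset.sum_add_distrib, ← Finset.mul_sum]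
    have e1 : ∑ q ∈ gi N, phi u v (gen q * (gen q * L.rho g)) =
        -(4 * ((N : ℝ) - 1)) * phi u v (L.rho g) := by
      rw [← map_sum]
      have : ∑ q ∈ gi N, gen q * (gen q * L.rho g) = (-(4 * ((N : ℝ) - 1))) • L.rho g := by
        simp only [← mul_assoc]
        rw [← Finset.sum_mul, gen_sum, smul_mul_assoc, one_mul]
        ext a b
        rw [Matrix.smul_apply, Matrix.smul_apply, Complex.real_smul, smul_eq_mul]
        push_cast
        ring
      rw [this, map_smul, smul_eq_mul]
    have e2 : ∑ q ∈ gi N, gc q (L.rho g * M) * phi u v (gen q * L.rho g) =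
        phi u v (Zm (L.rho g * M) * L.rho g) := by
      unfold Zm
      rw [Finset.sum_mul, map_sum]
      refine Finset.sum_congr rfl fun q _ => ?_
      rw [smul_mul_assoc, map_smul, smul_eq_mul]
    rw [e1, e2]
    ring
  have hi1 : Integrable (fun g => phi u v (L.rho g) * wl L β M g) μ :=
    intG μ (((phi u v).continuous.comp L.cont).mul (wl_cont L β M))
  have hZc : Continuous fun g : G => Zm (L.rho g * M) := by
    unfold Zm
    exact continuous_finsetSum _ fun q _ => (hgc q).smul continuous_const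
  have hi2 : Integrable (fun g => phi u v (Zm (L.rho g * M) * L.rho g) * wl L β M g) μ :=
    intG μ (((phi u v).continuous.comp (hZc.mul L.cont)).mul (wl_cont L β M))
  simp only [h2] at h1
  rw [integral_add (hi1.const_mul _) (hi2.const_mul _), integral_const_mul,
    integral_const_mul] at h1
  linarith

lemma norm_sub_sq' {u v : Ec N} (hu : ‖u‖ = 1) (hv : ‖v‖ = 1) {U : Mat N} (hU : Uᴴ * U = 1) :
    ‖op U v - u‖ ^ 2 = 2 - 2 * phi u v U := by
  have h1 := @norm_sub_sq ℂ (Ec N) _ _ _ (op U v) u
  have h2 : ‖op U v‖ = 1 := by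
    have h3 : star (op U) * op U = 1 := by
      unfold op
      rw [← map_star, ← map_mul, Matrix.star_eq_conjTranspose, hU, map_one]
    have h4 : ⟪op U v, op U v⟫_ℂ = ⟪v, v⟫_ℂ := by
      rw [← ContinuousLinearMap.adjoint_inner_left]
      have : (ContinuousLinearMap.adjoint (op U)) (op U v) = (star (op U) * op U) v := rfl
      rw [this, h3]
      rfl
    have h5 : ‖op U v‖ ^ 2 = ‖v‖ ^ 2 := by
      have := congrArg Complex.re h4
      rw [← inner_self_eq_norm_sq (𝕜 := ℂ), ← inner_self_eq_norm_sq (𝕜 := ℂ)]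
      exact this
    rw [hv, one_pow] at h5
    exact (pow_eq_one_iff_of_nonneg (norm_nonneg _) two_ne_zero).1 h5
  rw [h1, h2, hu, phi_apply]
  have h6 : RCLike.re ⟪op U v, u⟫_ℂ = (⟪u, op U v⟫_ℂ).re := by
    rw [← inner_conj_symm]
    exact Complex.conj_re _
  rw [h6]
  ring

lemma skew_re {Z : Mat N} (hZ : Zᴴ = -Z) (u : Ec N) : (⟪u, op Z u⟫_ℂ).re = 0 := by
  have h1 : ⟪u, op Z u⟫_ℂ = ⟪(ContinuousLinearMap.adjoint (op Z)) u, u⟫_ℂ :=
    (ContinuousLinearMap.adjoint_inner_left _ _ _).symm
  have h2 : (ContinuousLinearMap.adjoint (op Z)) = -op Z := by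
    show star (op Z) = _
    unfold op
    rw [← map_star, Matrix.star_eq_conjTranspose, hZ, map_neg]
  rw [h2] at h1
  have h3 : (⟪(-op Z) u, u⟫_ℂ).re = -(⟪u, op Z u⟫_ℂ).re := by
    show (⟪-(op Z u), u⟫_ℂ).re = _
    rw [inner_neg_left, Complex.neg_re, ← inner_conj_symm]
    rw [Complex.conj_re]
  have h4 := congrArg Complex.re h1
  rw [h3] at h4
  linarith

lemma phi_skew {u v : Ec N} (hu : ‖u‖ = 1) {Z U : Mat N} (hZ : Zᴴ = -Z) :
    phi u v (Z * U) ≤ opn Z * ‖op U v - u‖ := by
  have h1 : phi u v (Z * U) = (⟪u, op Z (op U v - u)⟫_ℂ).re := by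
    rw [phi_apply, op_mul, map_sub, inner_sub_right, Complex.sub_re, skew_re hZ, sub_zero]
    rfl
  rw [h1]
  calc (⟪u, op Z (op U v - u)⟫_ℂ).re ≤ ‖⟪u, op Z (op U v - u)⟫_ℂ‖ := Complex.re_le_norm _
    _ ≤ ‖u‖ * ‖op Z (op U v - u)‖ := norm_inner_le_norm _ _
    _ = ‖op Z (op U v - u)‖ := by rw [hu, one_mul]
    _ ≤ opn Z * ‖op U v - u‖ := (op Z).le_opNorm _

lemma one_bound (hN : 2 ≤ N) (hc : ∀ q ∈ gi N, ∃ c : ℝ → G, (∀ s t, c (s + t) = c s * c t) ∧
      HasDerivAt (fun t => L.rho (c t)) (gen q) 0) {u v : Ec N} (hu : ‖u‖ = 1) (hv : ‖v‖ = 1)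
    {M : Mat N} {m : ℝ} (hM : opn M ≤ m) {β : ℝ} (hβ : 0 ≤ β) {a : ℝ} (ha : 0 < a) :
    (∫ g, phi u v (L.rho g) * wl L β M g ∂μ) / (∫ g, wl L β M g ∂μ) ≤
      (2 * β * m / (N - 1)) * ((1 - (∫ g, phi u v (L.rho g) * wl L β M g ∂μ) /
        (∫ g, wl L β M g ∂μ)) / a + a / 2) := by
  have hz := wl_int_pos μ (L := L) β M
  have hN1 : (0 : ℝ) < (N : ℝ) - 1 := by
    have : (2 : ℝ) ≤ N := by exact_mod_cast hN
    linarith
  have hm : 0 ≤ m := (opn_nonneg M).trans hM
  have h1 := one_sum μ hc u v M β
  have hgc : ∀ q, Continuous fun g : G => gc q (L.rho g * M) := by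
    intro q
    unfold gc
    exact Complex.continuous_re.comp (Continuous.matrix_trace
      (continuous_const.mul (L.cont.mul continuous_const)))
  have hZc : Continuous fun g : G => Zm (L.rho g * M) := by
    unfold Zm
    exact continuous_finsetSum _ fun q _ => (hgc q).smul continuous_const
  have hphc : Continuous fun g : G => phi u v (L.rho g) := (phi u v).continuous.comp L.cont
  have h2 : ∫ g, phi u v (Zm (L.rho g * M) * L.rho g) * wl L β M g ∂μ ≤
      ∫ g, (8 * m) * (((1 / a + a / 2) * wl L β M g) - (1 / a) * (phi u v (L.rho g) *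
        wl L β M g)) ∂μ := by
    refine integral_mono (intG μ (((phi u v).continuous.comp (hZc.mul L.cont)).mul
      (wl_cont L β M))) (intG μ (continuous_const.mul ((continuous_const.mul
        (wl_cont L β M)).sub (continuous_const.mul (hphc.mul (wl_cont L β M)))))) fun g => ?_
    show phi u v (Zm (L.rho g * M) * L.rho g) * wl L β M g ≤ (8 * m) *
      (((1 / a + a / 2) * wl L β M g) - (1 / a) * (phi u v (L.rho g) * wl L β M g))
    have e1 := phi_skew (v := v) (U := L.rho g) hu (Zm_skew (L.rho g * M))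
    have e2 : opn (Zm (L.rho g * M)) ≤ 8 * m := by
      refine (Zm_opn _).trans ?_
      rw [opn_unit_mul (L.unit' _) (L.unit _)]
      linarith
    have e3 := norm_sub_sq' hu hv (L.unit' g)
    have e4 : ‖op (L.rho g) v - u‖ ≤ (1 - phi u v (L.rho g)) / a + a / 2 := by
      have e5 : 0 ≤ (‖op (L.rho g) v - u‖ - a) ^ 2 := sq_nonneg _
      rw [div_add_div _ _ ha.ne' two_ne_zero, le_div_iff₀ (by positivity)]
      nlinarith
    have e6 : phi u v (Zm (L.rho g * M) * L.rho g) ≤
        8 * m * ((1 - phi u v (L.rho g)) / a + a / 2) :=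
      e1.trans (mul_le_mul e2 e4 (norm_nonneg _) (by positivity))
    calc phi u v (Zm (L.rho g * M) * L.rho g) * wl L β M g
        ≤ 8 * m * ((1 - phi u v (L.rho g)) / a + a / 2) * wl L β M g :=
          mul_le_mul_of_nonneg_right e6 (wl_pos β M g).le
      _ = _ := by ring
  have hi1 : Integrable (fun g => (1 / a + a / 2) * wl L β M g) μ :=
    intG μ (continuous_const.mul (wl_cont L β M))
  have hi2 : Integrable (fun g => (1 / a) * (phi u v (L.rho g) * wl L β M g)) μ :=
    intG μ (continuous_const.mul (hphc.mul (wl_cont L β M)))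
  rw [integral_const_mul, integral_sub hi1 hi2, integral_const_mul,
    integral_const_mul] at h2
  obtain ⟨z, hz'⟩ : ∃ z, z = ∫ g, wl L β M g ∂μ := ⟨_, rfl⟩
  obtain ⟨y, hy⟩ : ∃ y, y = ∫ g, phi u v (L.rho g) * wl L β M g ∂μ := ⟨_, rfl⟩
  rw [← hz'] at hz h2 ⊢
  rw [← hy] at h1 h2 ⊢
  have h3 : 4 * ((N : ℝ) - 1) * y ≤ β * (8 * m * ((1 / a + a / 2) * z - 1 / a * y)) := by
    rw [h1]
    exact mul_le_mul_of_nonneg_left h2 hβ
  rw [div_le_iff₀ hz]
  have h4 : 2 * β * m / (N - 1) * ((1 - y / z) / a + a / 2) * z =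
      (β * (8 * m * ((1 / a + a / 2) * z - 1 / a * y))) / (4 * ((N : ℝ) - 1)) := by
    field_simp
    ring
  rw [h4, le_div_iff₀ (by linarith)]
  linarith

lemma real_bound {p K : ℝ} (hK : 0 ≤ K) (h : ∀ a : ℝ, 0 < a → p ≤ K * ((1 - p) / a + a / 2)) :
    p ≤ min (3 / 2 * K) (1 - 1 / (2 + 2 * K ^ 2)) := by
  have hden : 0 < 2 + 2 * K ^ 2 := by positivity
  have h01 : 1 / (2 + 2 * K ^ 2) ≤ 1 / 2 := by
    refine one_div_le_one_div_of_le (by norm_num) ?_
    nlinarith [sq_nonneg K]
  rcases le_or_gt p 0 with hp | hp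
  · refine le_min (hp.trans (by positivity)) ?_
    linarith
  · have hK0 : 0 < K := by
      rcases hK.lt_or_eq with h1 | h1
      · exact h1
      · have := h 1 one_pos
        rw [← h1, zero_mul] at this
        linarith
    have h1 := h (p / K) (by positivity)
    have h2 : K * ((1 - p) / (p / K) + p / K / 2) = K ^ 2 * (1 - p) / p + p / 2 := by
      field_simp
    rw [h2] at h1
    have h3 : p / 2 ≤ K ^ 2 * (1 - p) / p := by linarith
    rw [le_div_iff₀ hp] at h3
    have h4 : p ^ 2 ≤ 2 * K ^ 2 * (1 - p) := by nlinarith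
    refine le_min ?_ ?_
    · have h5 : p ^ 2 ≤ (3 / 2 * K) ^ 2 := by nlinarith [sq_nonneg K]
      exact (pow_le_pow_iff_left₀ hp.le (by positivity) two_ne_zero).1 h5
    · have h5 : 1 / (2 + 2 * K ^ 2) ≤ 1 - p := by
        rw [div_le_iff₀ hden]
        nlinarith [sq_nonneg (1 - p)]
      linarith

lemma opn_le_phi {A : Mat N} {r : ℝ} (hr : 0 ≤ r)
    (h : ∀ u v : Ec N, ‖u‖ = 1 → ‖v‖ = 1 → phi u v A ≤ r) : opn A ≤ r := by
  refine ContinuousLinearMap.opNorm_le_bound _ hr fun v => ?_
  rcases eq_or_ne v 0 with hv | hv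
  · rw [hv, map_zero, norm_zero]
    simp
  rcases eq_or_ne (op A v) 0 with hw | hw
  · rw [hw, norm_zero]; positivity
  have hv' : 0 < ‖v‖ := norm_pos_iff.2 hv
  have hw' : 0 < ‖op A v‖ := norm_pos_iff.2 hw
  have h1 := h (((‖op A v‖⁻¹ : ℝ) : ℂ) • op A v) (((‖v‖⁻¹ : ℝ) : ℂ) • v) (by
    rw [norm_smul, Complex.norm_real, norm_inv, norm_norm, inv_mul_cancel₀ hw'.ne']) (by
    rw [norm_smul, Complex.norm_real, norm_inv, norm_norm, inv_mul_cancel₀ hv'.ne'])
  rw [phi_apply, map_smul, inner_smul_left, inner_smul_right, Complex.conj_ofReal,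
    Complex.re_ofReal_mul, Complex.re_ofReal_mul] at h1
  have h2 : (⟪op A v, op A v⟫_ℂ).re = ‖op A v‖ ^ 2 := by
    rw [← inner_self_eq_norm_sq (𝕜 := ℂ)]
    rfl
  rw [h2] at h1
  have h3 : ‖op A v‖⁻¹ * (‖v‖⁻¹ * ‖op A v‖ ^ 2) = ‖op A v‖ / ‖v‖ := by
    field_simp
  rw [h3, div_le_iff₀ hv'] at h1
  exact h1

/-- the basis of the matrices -/
def Eb (c : Fin N × Fin N × Bool) : Mat N :=
  if c.2.2 then Matrix.single c.1 c.2.1 1 else Matrix.single c.1 c.2.1 Complex.I

lemma sum_Eb (A : Mat N) : A = ∑ c, co c A • Eb c := by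
  have h1 : ∀ c, co c A = if c.2.2 then (A c.1 c.2.1).re else (A c.1 c.2.1).im := fun c => rfl
  ext i j
  rw [Matrix.sum_apply, Fintype.sum_prod_type, Finset.sum_eq_single i]
  · rw [Fintype.sum_prod_type, Finset.sum_eq_single j]
    · simp only [Fintype.sum_bool, h1, Eb, if_true, Bool.false_eq_true, if_false,
        Matrix.smul_apply, Matrix.single_apply_same, Complex.real_smul, mul_one]
      exact (Complex.re_add_im _).symm
    · intro k _ hk
      refine Finset.sum_eq_zero fun c _ => ?_
      rw [Matrix.smul_apply]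
      unfold Eb
      cases c <;> simp [Matrix.single_apply, hk]
    · intro h; exact absurd (Finset.mem_univ _) h
  · intro k _ hk
    refine Finset.sum_eq_zero fun c _ => ?_
    rw [Matrix.smul_apply]
    unfold Eb
    obtain ⟨c1, c2⟩ := c
    cases c2 <;> simp [Matrix.single_apply, hk]
  · intro h; exact absurd (Finset.mem_univ _) h

lemma ell_sum (ℓ : Mat N →L[ℝ] ℝ) (A : Mat N) : ℓ A = ∑ c, co c A * ℓ (Eb c) := by
  conv_lhs => rw [sum_Eb A]
  rw [map_sum]
  refine Finset.sum_congr rfl fun c _ => ?_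
  rw [map_smul, smul_eq_mul]

lemma co_Eb (c c' : Fin N × Fin N × Bool) : co c (Eb c') = if c = c' then 1 else 0 := by
  have h1 : ∀ (c : Fin N × Fin N × Bool) (A : Mat N),
    co c A = if c.2.2 then (A c.1 c.2.1).re else (A c.1 c.2.1).im := fun c A => rfl
  rw [h1]
  unfold Eb
  obtain ⟨i, j, b⟩ := c
  obtain ⟨i', j', b'⟩ := c'
  simp only [Prod.mk.injEq]
  by_cases hi : i = i'
  · by_cases hj : j = j'
    · subst hi hj
      cases b <;> cases b' <;> simp
    · have hj' : ¬(j' = j) := fun h => hj h.symm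
      cases b <;> cases b' <;> simp [Matrix.single_apply, hj, hj']
  · have hi' : ¬(i' = i) := fun h => hi h.symm
    cases b <;> cases b' <;> simp [Matrix.single_apply, hi, hi']

variable (L) in
/-- the mean of one link variable -/
def Qm (β : ℝ) (M : Mat N) : Mat N :=
  ∑ c, ((∫ g, co c (L.rho g) * wl L β M g ∂μ) / (∫ g, wl L β M g ∂μ)) • Eb c

lemma ell_Qm (ℓ : Mat N →L[ℝ] ℝ) (β : ℝ) (M : Mat N) : ℓ (Qm μ L β M) =
    (∫ g, ℓ (L.rho g) * wl L β M g ∂μ) / (∫ g, wl L β M g ∂μ) := by
  unfold Qm
  rw [map_sum]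
  have h1 : ∀ g : G, ℓ (L.rho g) * wl L β M g =
      ∑ c, (co c (L.rho g) * wl L β M g) * ℓ (Eb c) := by
    intro g
    rw [ell_sum ℓ (L.rho g), Finset.sum_mul]
    refine Finset.sum_congr rfl fun c _ => ?_
    ring
  simp only [h1]
  rw [integral_finsetSum, Finset.sum_div]
  · refine Finset.sum_congr rfl fun c _ => ?_
    rw [map_smul, smul_eq_mul, integral_mul_const]
    ring
  · intro c _
    exact intG μ ((((co c).continuous.comp L.cont).mul (wl_cont L β M)).mul continuous_const)

lemma phi_Qm (u v : Ec N) (β : ℝ) (M : Mat N) : phi u v (Qm μ L β M) =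
    (∫ g, phi u v (L.rho g) * wl L β M g ∂μ) / (∫ g, wl L β M g ∂μ) := ell_Qm μ _ β M

/-- **The mean of one link** is a strict contraction, uniformly in `N`. -/
theorem Qm_opn (hN : 2 ≤ N) (hc : ∀ q ∈ gi N, ∃ c : ℝ → G, (∀ s t, c (s + t) = c s * c t) ∧
      HasDerivAt (fun t => L.rho (c t)) (gen q) 0) {M : Mat N} {m : ℝ} (hM : opn M ≤ m) {β : ℝ}
    (hβ : 0 ≤ β) : opn (Qm μ L β M) ≤ min (3 / 2 * (2 * β * m / (N - 1)))
      (1 - 1 / (2 + 2 * (2 * β * m / (N - 1)) ^ 2)) := by
  have hN1 : (0 : ℝ) < (N : ℝ) - 1 := by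
    have : (2 : ℝ) ≤ N := by exact_mod_cast hN
    linarith
  have hm : 0 ≤ m := (opn_nonneg M).trans hM
  have hK : 0 ≤ 2 * β * m / ((N : ℝ) - 1) := by positivity
  refine opn_le_phi ?_ fun u v hu hv => ?_
  · refine le_min (by positivity) ?_
    have : 1 / (2 + 2 * (2 * β * m / ((N : ℝ) - 1)) ^ 2) ≤ 1 / 2 :=
      one_div_le_one_div_of_le (by norm_num) (by nlinarith [sq_nonneg (2 * β * m / ((N : ℝ) - 1))])
    linarith
  · rw [phi_Qm]
    exact real_bound hK fun a ha => one_bound μ hN hc hu hv hM hβ ha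

end one

end

end Pool.Agent.T2H01.LN
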