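import Mathlib
import Pool.Agent.T2H01.LN.Link
import Pool.Agent.T2H01.LN.SD3

/-!
# The perimeter law for Wilson loops, uniformly in `N`, at every coupling
-/

open MeasureTheory Matrix Filter Module
open scoped Matrix.Norms.Frobenius Topology InnerProductSpace
open Pool.Agent.H906R3.YM hiding Pl
open Pool.Agent.W793.YM Pool.Agent.TH618.YM

namespace Pool.Agent.T2H01.LN

set_option linter.unusedSectionVars false
set_option linter.unusedVariables false

noncomputable section

/-! ### plaquettes and one link -/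

section comb

variable {G : Type*} [Group G] [TopologicalSpace G] {N n d l : ℕ} {L : LD G N n}

variable (L) in
/-- the real part of the trace -/
def chi (g : G) : ℝ := (trace (L.rho g)).re

lemma chi_comm (g h : G) : chi L (g * h) = chi L (h * g) := by
  unfold chi
  rw [map_mul, map_mul, trace_mul_comm]

lemma chi_inv (g : G) : chi L g⁻¹ = chi L g := by
  unfold chi
  rw [L.rho_inv, tr_ct]

lemma eT_ne (hl : 2 ≤ l) (x : Fin d → ZMod l) (b : Fin d) : x + eT b ≠ x := by
  intro h
  have h1 := congrFun h b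
  have h2 : (eT b : Fin d → ZMod l) b = 1 := by unfold eT; rw [Pi.single_eq_same]
  rw [Pi.add_apply, h2] at h1
  have h3 : (1 : ZMod l) = 0 := by
    have := congrArg (fun z => z - x b) h1
    simpa using this
  have : Fact (1 < l) := ⟨by omega⟩
  exact one_ne_zero h3

/-- the trace of a plaquette as a function of one link -/
lemma plq_link (hl : 2 ≤ l) {a b : Fin d} (hab : a ≠ b) (e : Ed d l) (g : G) (U : Ed d l → G)
    (x : Fin d → ZMod l) :
    chi L (plqT (sh e g U) x a b) = chi L (plqT U x a b) +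
      ((trace (L.rho g * stp L e U x a b)).re - (trace (stp L e U x a b)).re) := by
  have hp12 : ((x, a) : Ed d l) ≠ (x + eT a, b) := fun h => hab (Prod.ext_iff.1 h).2
  have hp14 : ((x, a) : Ed d l) ≠ (x, b) := fun h => hab (Prod.ext_iff.1 h).2
  have hp32 : ((x + eT b, a) : Ed d l) ≠ (x + eT a, b) := fun h => hab (Prod.ext_iff.1 h).2
  have hp34 : ((x + eT b, a) : Ed d l) ≠ (x, b) := fun h => hab (Prod.ext_iff.1 h).2
  have hp13 : ((x, a) : Ed d l) ≠ (x + eT b, a) := fun h =>
    eT_ne hl x b (Prod.ext_iff.1 h).1.symm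
  have hp24 : ((x + eT a, b) : Ed d l) ≠ (x, b) := fun h => eT_ne hl x a (Prod.ext_iff.1 h).1
  have hm : ∀ h : G, (trace (L.rho g * L.rho h)).re = chi L (g * h) := fun h => by
    unfold chi; rw [map_mul]
  have hm1 : ∀ h : G, (trace (L.rho h)).re = chi L h := fun h => rfl
  by_cases h1 : ((x, a) : Ed d l) = e
  · subst h1
    have e1 : stp L (x, a) U x a b = L.rho (U (x, a) * U (x + eT a, b) * (U (x + eT b, a))⁻¹ *
        (U (x, b))⁻¹) := by
      unfold stp
      rw [if_pos rfl, if_neg hp12.symm, if_neg hp13.symm, if_neg hp14.symm]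
      simp
    rw [e1, hm, hm1]
    unfold plqT
    rw [sh_same, sh_ne hp12.symm, sh_ne hp13.symm, sh_ne hp14.symm]
    simp only [mul_assoc]
    ring
  by_cases h2 : ((x + eT a, b) : Ed d l) = e
  · subst h2
    have e1 : stp L (x + eT a, b) U x a b = L.rho (U (x + eT a, b) * (U (x + eT b, a))⁻¹ *
      (U (x, b))⁻¹ * U (x, a)) := by
      unfold stp
      rw [if_neg hp12, if_pos rfl, if_neg hp32, if_neg hp24.symm]
      simp
    rw [e1, hm, hm1]
    unfold plqT
    rw [sh_same, sh_ne hp12, sh_ne hp32, sh_ne hp24.symm]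
    have e2 : chi L (U (x, a) * (g * U (x + eT a, b)) * (U (x + eT b, a))⁻¹ * (U (x, b))⁻¹) =
        chi L (g * (U (x + eT a, b) * (U (x + eT b, a))⁻¹ * (U (x, b))⁻¹ * U (x, a))) := by
      rw [mul_assoc, mul_assoc, chi_comm]
      simp only [mul_assoc]
    have e3 : chi L (U (x, a) * U (x + eT a, b) * (U (x + eT b, a))⁻¹ * (U (x, b))⁻¹) =
        chi L (U (x + eT a, b) * (U (x + eT b, a))⁻¹ * (U (x, b))⁻¹ * U (x, a)) := by
      rw [mul_assoc, mul_assoc, chi_comm]
      simp only [mul_assoc]
    rw [e2, e3]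
    ring
  by_cases h3 : ((x + eT b, a) : Ed d l) = e
  · subst h3
    have e1 : stp L (x + eT b, a) U x a b = L.rho (U (x + eT b, a) * (U (x + eT a, b))⁻¹ *
      (U (x, a))⁻¹ * U (x, b)) := by
      unfold stp
      rw [if_neg hp13, if_neg hp32.symm, if_pos rfl, if_neg hp34.symm]
      simp
    rw [e1, hm, hm1]
    unfold plqT
    rw [sh_same, sh_ne hp13, sh_ne hp32.symm, sh_ne hp34.symm]
    have e2 : chi L (U (x, a) * U (x + eT a, b) * (g * U (x + eT b, a))⁻¹ * (U (x, b))⁻¹) =
        chi L (g * (U (x + eT b, a) * (U (x + eT a, b))⁻¹ * (U (x, a))⁻¹ * U (x, b))) := by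
      rw [← chi_inv]
      simp only [_root_.mul_inv_rev, inv_inv]
      rw [chi_comm]
      simp only [mul_assoc]
    have e3 : chi L (U (x, a) * U (x + eT a, b) * (U (x + eT b, a))⁻¹ * (U (x, b))⁻¹) =
        chi L (U (x + eT b, a) * (U (x + eT a, b))⁻¹ * (U (x, a))⁻¹ * U (x, b)) := by
      rw [← chi_inv]
      simp only [_root_.mul_inv_rev, inv_inv]
      rw [chi_comm]
      simp only [mul_assoc]
    rw [e2, e3]
    ring
  by_cases h4 : ((x, b) : Ed d l) = e
  · subst h4
    have e1 : stp L (x, b) U x a b = L.rho (U (x, b) * U (x + eT b, a) * (U (x + eT a, b))⁻¹ *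
      (U (x, a))⁻¹) := by
      unfold stp
      rw [if_neg hp14, if_neg hp24, if_neg hp34, if_pos rfl]
      simp
    rw [e1, hm, hm1]
    unfold plqT
    rw [sh_same, sh_ne hp14, sh_ne hp24, sh_ne hp34]
    have e2 : chi L (U (x, a) * U (x + eT a, b) * (U (x + eT b, a))⁻¹ * (g * U (x, b))⁻¹) =
        chi L (g * (U (x, b) * U (x + eT b, a) * (U (x + eT a, b))⁻¹ * (U (x, a))⁻¹)) := by
      rw [← chi_inv]
      simp only [_root_.mul_inv_rev, inv_inv, mul_assoc]
    have e3 : chi L (U (x, a) * U (x + eT a, b) * (U (x + eT b, a))⁻¹ * (U (x, b))⁻¹) =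
        chi L (U (x, b) * U (x + eT b, a) * (U (x + eT a, b))⁻¹ * (U (x, a))⁻¹) := by
      rw [← chi_inv]
      simp only [_root_.mul_inv_rev, inv_inv, mul_assoc]
    rw [e2, e3]
    ring
  · have e1 : stp L e U x a b = 0 := by
      unfold stp
      rw [if_neg h1, if_neg h2, if_neg h3, if_neg h4]
      simp
    rw [e1]
    unfold plqT
    rw [sh_ne h1, sh_ne h2, sh_ne h3, sh_ne h4]
    simp

/-- the action as a function of one link -/
lemma act_link [NeZero l] (hl : 2 ≤ l) (e : Ed d l) (g : G) (U : Ed d l → G) :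
    act L (sh e g U) = act L U + (trace (stS L e U)).re - (trace (L.rho g * stS L e U)).re := by
  have h1 : ∀ x a b, (if a < b then we L (plqT (sh e g U) x a b) else 0) =
      (if a < b then we L (plqT U x a b) else 0) +
        ((trace (if a < b then stp L e U x a b else 0)).re -
          (trace (L.rho g * if a < b then stp L e U x a b else 0)).re) := by
    intro x a b
    by_cases hab : a < b
    · rw [if_pos hab, if_pos hab, if_pos hab]
      have h2 := plq_link (L := L) hl hab.ne e g U x
      unfold chi at h2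
      unfold we
      rw [trace_sub, trace_sub, trace_one, Complex.sub_re, Complex.sub_re]
      linarith
    · rw [if_neg hab, if_neg hab, if_neg hab]
      simp
  unfold act
  rw [Finset.sum_congr rfl fun x _ => Finset.sum_congr rfl fun a _ =>
    Finset.sum_congr rfl fun b _ => h1 x a b]
  simp only [Finset.sum_add_distrib, Finset.sum_sub_distrib]
  have h3 : (trace (stS L e U)).re =
      ∑ x, ∑ a, ∑ b, (trace (if a < b then stp L e U x a b else 0)).re := by
    unfold stS
    simp only [trace_sum, Complex.re_sum]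
  have h4 : (trace (L.rho g * stS L e U)).re =
      ∑ x, ∑ a, ∑ b, (trace (L.rho g * if a < b then stp L e U x a b else 0)).re := by
    unfold stS
    simp only [Finset.mul_sum, trace_sum, Complex.re_sum]
  rw [h3, h4]
  ring

/-- the staples as functions of their own link -/
lemma stp_same (hl : 2 ≤ l) {a b : Fin d} (hab : a ≠ b) (e : Ed d l) (g : G) (U : Ed d l → G)
    (x : Fin d → ZMod l) : stp L e (sh e g U) x a b = L.rho g * stp L e U x a b := by
  have hp12 : ((x, a) : Ed d l) ≠ (x + eT a, b) := fun h => hab (Prod.ext_iff.1 h).2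
  have hp14 : ((x, a) : Ed d l) ≠ (x, b) := fun h => hab (Prod.ext_iff.1 h).2
  have hp32 : ((x + eT b, a) : Ed d l) ≠ (x + eT a, b) := fun h => hab (Prod.ext_iff.1 h).2
  have hp34 : ((x + eT b, a) : Ed d l) ≠ (x, b) := fun h => hab (Prod.ext_iff.1 h).2
  have hp13 : ((x, a) : Ed d l) ≠ (x + eT b, a) := fun h =>
    eT_ne hl x b (Prod.ext_iff.1 h).1.symm
  have hp24 : ((x + eT a, b) : Ed d l) ≠ (x, b) := fun h => eT_ne hl x a (Prod.ext_iff.1 h).1
  by_cases h1 : ((x, a) : Ed d l) = e
  · subst h1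
    unfold stp
    rw [if_pos rfl, if_neg hp12.symm, if_neg hp13.symm, if_neg hp14.symm, if_pos rfl,
      if_neg hp12.symm, if_neg hp13.symm, if_neg hp14.symm]
    rw [sh_same, sh_ne hp12.symm, sh_ne hp13.symm, sh_ne hp14.symm]
    simp only [add_zero, ← map_mul, mul_assoc]
  by_cases h2 : ((x + eT a, b) : Ed d l) = e
  · subst h2
    unfold stp
    rw [if_neg hp12, if_pos rfl, if_neg hp32, if_neg hp24.symm, if_neg hp12, if_pos rfl,
      if_neg hp32, if_neg hp24.symm]
    rw [sh_same, sh_ne hp12, sh_ne hp32, sh_ne hp24.symm]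
    simp only [add_zero, zero_add, ← map_mul, mul_assoc]
  by_cases h3 : ((x + eT b, a) : Ed d l) = e
  · subst h3
    unfold stp
    rw [if_neg hp13, if_neg hp32.symm, if_pos rfl, if_neg hp34.symm, if_neg hp13,
      if_neg hp32.symm, if_pos rfl, if_neg hp34.symm]
    rw [sh_same, sh_ne hp13, sh_ne hp32.symm, sh_ne hp34.symm]
    simp only [add_zero, zero_add, ← map_mul, mul_assoc]
  by_cases h4 : ((x, b) : Ed d l) = e
  · subst h4
    unfold stp
    rw [if_neg hp14, if_neg hp24, if_neg hp34, if_pos rfl, if_neg hp14, if_neg hp24,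
      if_neg hp34, if_pos rfl]
    rw [sh_same, sh_ne hp14, sh_ne hp24, sh_ne hp34]
    simp only [add_zero, zero_add, ← map_mul, mul_assoc]
  · unfold stp
    rw [if_neg h1, if_neg h2, if_neg h3, if_neg h4, if_neg h1, if_neg h2, if_neg h3, if_neg h4]
    simp

lemma stS_same [NeZero l] (hl : 2 ≤ l) (e : Ed d l) (g : G) (U : Ed d l → G) :
    stS L e (sh e g U) = L.rho g * stS L e U := by
  unfold stS
  simp only [Finset.mul_sum]
  refine Finset.sum_congr rfl fun x _ => Finset.sum_congr rfl fun a _ =>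
    Finset.sum_congr rfl fun b _ => ?_
  by_cases hab : a < b
  · rw [if_pos hab, if_pos hab, stp_same hl hab.ne]
  · rw [if_neg hab, if_neg hab, mul_zero]

/-- collinear links -/
def col (e e' : Ed d l) : Prop := e'.2 = e.2 ∧ e' ≠ e ∧ ∀ b, b ≠ e.2 → e'.1 b = e.1 b

lemma stp_col (hl : 2 ≤ l) {a b : Fin d} (hab : a ≠ b) {e e' : Ed d l} (hc : col e e') (g : G)
    (U : Ed d l → G) (x : Fin d → ZMod l) : stp L e (sh e' g U) x a b = stp L e U x a b := by
  have h10 : ∀ z : ZMod l, z + 1 ≠ z := by
    intro z h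
    have : Fact (1 < l) := ⟨by omega⟩
    have h3 : (1 : ZMod l) = 0 := by
      have := congrArg (fun y => y - z) h
      simpa using this
    exact one_ne_zero h3
  have heT : ∀ c : Fin d, (eT c : Fin d → ZMod l) c = 1 := fun c => by
    unfold eT; rw [Pi.single_eq_same]
  have heT' : ∀ c c' : Fin d, c' ≠ c → (eT c : Fin d → ZMod l) c' = 0 := fun c c' h => by
    unfold eT; rw [Pi.single_eq_of_ne h]
  have H : (((x, a) : Ed d l) = e ∨ ((x + eT a, b) : Ed d l) = e ∨ ((x + eT b, a) : Ed d l) = e ∨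
      ((x, b) : Ed d l) = e) → ((x, a) : Ed d l) ≠ e' ∧ ((x + eT a, b) : Ed d l) ≠ e' ∧
      ((x + eT b, a) : Ed d l) ≠ e' ∧ ((x, b) : Ed d l) ≠ e' := by
    obtain ⟨hc1, hc2, hc3⟩ := hc
    rintro (h | h | h | h)
    · subst h
      refine ⟨fun h => hc2 h.symm, fun h => ?_, fun h => ?_, fun h => ?_⟩
      · rw [← h] at hc1; exact hab hc1.symm
      · rw [← h] at hc3
        have := hc3 b hab.symm
        simp only [Pi.add_apply, heT] at this
        exact h10 _ this
      · rw [← h] at hc1; exact hab hc1.symm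
    · subst h
      refine ⟨fun h => ?_, fun h => hc2 h.symm, fun h => ?_, fun h => ?_⟩
      · rw [← h] at hc1; exact hab hc1
      · rw [← h] at hc1; exact hab hc1
      · rw [← h] at hc3
        have := hc3 a hab
        simp only [Pi.add_apply, heT] at this
        exact h10 _ this.symm
    · subst h
      refine ⟨fun h => ?_, fun h => ?_, fun h => hc2 h.symm, fun h => ?_⟩
      · rw [← h] at hc3
        have := hc3 b hab.symm
        simp only [Pi.add_apply, heT] at this
        exact h10 _ this.symm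
      · rw [← h] at hc1; exact hab hc1.symm
      · rw [← h] at hc1; exact hab hc1.symm
    · subst h
      refine ⟨fun h => ?_, fun h => ?_, fun h => ?_, fun h => hc2 h.symm⟩
      · rw [← h] at hc1; exact hab hc1
      · rw [← h] at hc3
        have := hc3 a hab
        simp only [Pi.add_apply, heT] at this
        exact h10 _ this
      · rw [← h] at hc1; exact hab hc1
  by_cases hex : (((x, a) : Ed d l) = e ∨ ((x + eT a, b) : Ed d l) = e ∨
      ((x + eT b, a) : Ed d l) = e ∨ ((x, b) : Ed d l) = e)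
  · obtain ⟨h1, h2, h3, h4⟩ := H hex
    unfold stp
    rw [sh_ne h1, sh_ne h2, sh_ne h3, sh_ne h4]
  · push Not at hex
    unfold stp
    rw [if_neg hex.1, if_neg hex.2.1, if_neg hex.2.2.1, if_neg hex.2.2.2, if_neg hex.1,
      if_neg hex.2.1, if_neg hex.2.2.1, if_neg hex.2.2.2]

lemma stS_col [NeZero l] (hl : 2 ≤ l) {e e' : Ed d l} (hc : col e e') (g : G)
    (U : Ed d l → G) : stS L e (sh e' g U) = stS L e U := by
  unfold stS
  refine Finset.sum_congr rfl fun x _ => Finset.sum_congr rfl fun a _ =>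
    Finset.sum_congr rfl fun b _ => ?_
  by_cases hab : a < b
  · rw [if_pos hab, if_pos hab, stp_col hl hab.ne hc]
  · rw [if_neg hab, if_neg hab]

end comb

end

end Pool.Agent.T2H01.LN
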