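import Mathlib
import Pool.Agent.T2H01.LN.Chain

/-!
# The perimeter law: replacing the links by their means
-/

open MeasureTheory Matrix Filter Module
open scoped Matrix.Norms.Frobenius Topology InnerProductSpace
open Pool.Agent.H906R3.YM hiding Pl
open Pool.Agent.W793.YM Pool.Agent.TH618.YM

namespace Pool.Agent.T2H01.LN

set_option linter.unusedSectionVars false
set_option linter.unusedVariables false

noncomputable section

/-! ### the operator norm of the staples -/

section stap

variable {G : Type*} [Group G] [TopologicalSpace G] {N n d l : ℕ} {L : LD G N n}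

lemma opn_zero : opn (0 : Mat N) = 0 := by
  unfold opn op
  rw [map_zero, norm_zero]

lemma opn_sum {ι : Type*} (s : Finset ι) (F : ι → Mat N) :
    opn (∑ k ∈ s, F k) ≤ ∑ k ∈ s, opn (F k) := by
  unfold opn op
  rw [map_sum]
  exact norm_sum_le _ _

lemma stp_opn (e : Ed d l) (U : Ed d l → G) (x : Fin d → ZMod l) (i j : Fin d) :
    opn (stp L e U x i j) ≤ ((if ((x, i) : Ed d l) = e then 1 else 0) +
      (if ((x + eT i, j) : Ed d l) = e then 1 else 0) +
      (if ((x + eT j, i) : Ed d l) = e then 1 else 0) +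
      (if ((x, j) : Ed d l) = e then 1 else 0)) := by
  have h1 : ∀ (p : Prop) [Decidable p] (g : G), opn (if p then L.rho g else 0 : Mat N) ≤
      (if p then 1 else 0) := by
    intro p _ g
    split_ifs
    · exact opn_unit (L.unit' g)
    · exact opn_zero.le
  unfold stp
  exact (opn_add _ _).trans (add_le_add ((opn_add _ _).trans (add_le_add
    ((opn_add _ _).trans (add_le_add (h1 _ _) (h1 _ _))) (h1 _ _))) (h1 _ _))

lemma stS_opn [NeZero l] (e : Ed d l) (U : Ed d l → G) : opn (stS L e U) ≤ 2 * ((d : ℝ) - 1) := by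
  unfold stS
  have h1 : opn (∑ x, ∑ i, ∑ j, (if i < j then stp L e U x i j else 0)) ≤
      ∑ x, ∑ i, ∑ j, (if i < j then ((if ((x, i) : Ed d l) = e then 1 else 0) +
      (if ((x + eT i, j) : Ed d l) = e then 1 else 0) +
      (if ((x + eT j, i) : Ed d l) = e then 1 else 0) +
      (if ((x, j) : Ed d l) = e then (1 : ℝ) else 0)) else 0) := by
    refine (opn_sum _ _).trans (Finset.sum_le_sum fun x _ => ?_)
    refine (opn_sum _ _).trans (Finset.sum_le_sum fun i _ => ?_)
    refine (opn_sum _ _).trans (Finset.sum_le_sum fun j _ => ?_)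
    by_cases hij : i < j
    · rw [if_pos hij, if_pos hij]
      exact stp_opn e U x i j
    · rw [if_neg hij, if_neg hij, opn_zero]
  refine h1.trans ?_
  rw [Finset.sum_comm]
  have h2 : ∀ i j : Fin d, ∑ x : Fin d → ZMod l, (if i < j then
      ((if ((x, i) : Ed d l) = e then 1 else 0) +
      (if ((x + eT i, j) : Ed d l) = e then 1 else 0) +
      (if ((x + eT j, i) : Ed d l) = e then 1 else 0) +
      (if ((x, j) : Ed d l) = e then (1 : ℝ) else 0)) else 0) =
      (if i = e.2 then (if i < j then 2 else 0) else 0) +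
        (if j = e.2 then (if i < j then 2 else 0) else 0) := by
    intro i j
    by_cases hij : i < j
    · simp only [if_pos hij, Finset.sum_add_distrib, cnt]
      have h3 := cnt (0 : Fin d → ZMod l) i e
      have h4 := cnt (0 : Fin d → ZMod l) j e
      simp only [add_zero] at h3 h4
      rw [h3, h4]
      split_ifs <;> norm_num
    · simp only [if_neg hij, Finset.sum_const_zero, ite_self, add_zero]
  have h3 : ∑ i : Fin d, ∑ x : Fin d → ZMod l, ∑ j : Fin d, (if i < j then
      ((if ((x, i) : Ed d l) = e then 1 else 0) +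
      (if ((x + eT i, j) : Ed d l) = e then 1 else 0) +
      (if ((x + eT j, i) : Ed d l) = e then 1 else 0) +
      (if ((x, j) : Ed d l) = e then (1 : ℝ) else 0)) else 0) =
      ∑ i : Fin d, ∑ j : Fin d, ((if i = e.2 then (if i < j then (2 : ℝ) else 0) else 0) +
        (if j = e.2 then (if i < j then 2 else 0) else 0)) := by
    refine Finset.sum_congr rfl fun i _ => ?_
    rw [Finset.sum_comm]
    exact Finset.sum_congr rfl fun j _ => h2 i j
  rw [h3]
  simp only [Finset.sum_add_distrib]
  have h4 : ∑ i : Fin d, ∑ j : Fin d, (if i = e.2 then (if i < j then (2 : ℝ) else 0) else 0) =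
      ∑ j : Fin d, if e.2 < j then (2 : ℝ) else 0 := by
    rw [Finset.sum_comm]
    refine Finset.sum_congr rfl fun j _ => ?_
    rw [Finset.sum_ite_eq' Finset.univ e.2]; simp
  have h5 : ∑ i : Fin d, ∑ j : Fin d, (if j = e.2 then (if i < j then (2 : ℝ) else 0) else 0) =
      ∑ i : Fin d, if i < e.2 then (2 : ℝ) else 0 := by
    refine Finset.sum_congr rfl fun j _ => ?_
    rw [Finset.sum_ite_eq' Finset.univ e.2]; simp
  rw [h4, h5, ← Finset.sum_add_distrib]
  have h6 : ∀ k ∈ (Finset.univ : Finset (Fin d)), ((if e.2 < k then (2 : ℝ) else 0) +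
      if k < e.2 then 2 else 0) = 2 - if k = e.2 then 2 else 0 := by
    intro k _
    rcases lt_trichotomy k e.2 with h | h | h
    · rw [if_neg (not_lt.2 h.le), if_pos h, zero_add, if_neg h.ne, sub_zero]
    · rw [h]; simp
    · rw [if_pos h, if_neg (not_lt.2 h.le), add_zero, if_neg h.ne', sub_zero]
  rw [Finset.sum_congr rfl h6, Finset.sum_sub_distrib, Finset.sum_const, Finset.card_univ,
    Fintype.card_fin, nsmul_eq_mul, Finset.sum_ite_eq' Finset.univ e.2]
  simp
  linarith

lemma opn_tr (A : Mat N) : (trace A).re ≤ N * opn A := by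
  rw [trace, Complex.re_sum]
  calc ∑ j, (diag A j).re ≤ ∑ _j : Fin N, opn A :=
        Finset.sum_le_sum fun j _ => (Complex.re_le_norm _).trans (entry_le A j)
    _ = N * opn A := by rw [Finset.sum_const, Finset.card_univ, Fintype.card_fin, nsmul_eq_mul]

end stap

/-! ### the mean of a link on the lattice -/

section mean

variable {G : Type*} [Group G] [TopologicalSpace G] [IsTopologicalGroup G] [CompactSpace G]
  [SecondCountableTopology G] [MeasurableSpace G] [BorelSpace G] (μ : Measure G)
  [IsProbabilityMeasure μ] [μ.IsMulLeftInvariant] [μ.IsMulRightInvariant]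
  [μ.IsInvInvariant] {N n d l : ℕ} [NeZero l] {L : LD G N n}

/-- right multiplication by a matrix -/
def rmul (B : Mat N) : Mat N →L[ℝ] Mat N :=
  LinearMap.toContinuousLinearMap
    { toFun := fun A => A * B
      map_add' := fun A A' => add_mul A A' B
      map_smul' := fun c A => by rw [RingHom.id_apply, smul_mul_assoc] }

lemma mat_ext {A B : Mat N} (h : ∀ ℓ : Mat N →L[ℝ] ℝ, ℓ A = ℓ B) : A = B := by
  rw [sum_Eb A, sum_Eb B]
  exact Finset.sum_congr rfl fun c _ => by rw [h (co c)]

/-- invariance of the mean -/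
lemma Qm_inv (β : ℝ) (h : G) (M : Mat N) :
    Qm μ L β (L.rho h * M) * L.rho h = Qm μ L β M := by
  refine mat_ext fun ℓ => ?_
  have h1 : ℓ (Qm μ L β (L.rho h * M) * L.rho h) =
      (ℓ.comp (rmul (L.rho h))) (Qm μ L β (L.rho h * M)) := rfl
  rw [h1, ell_Qm, ell_Qm]
  have h2 : ∫ g, (ℓ.comp (rmul (L.rho h))) (L.rho g) * wl L β (L.rho h * M) g ∂μ =
      ∫ g, ℓ (L.rho g) * wl L β M g ∂μ := by
    rw [← integral_mul_right_eq_self (μ := μ) (fun g => ℓ (L.rho g) * wl L β M g) h]
    refine integral_congr_ae (Eventually.of_forall fun g => ?_)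
    show ℓ (L.rho g * L.rho h) * wl L β (L.rho h * M) g = ℓ (L.rho (g * h)) * wl L β M (g * h)
    unfold wl
    rw [map_mul L.rho, Matrix.mul_assoc]
  have h3 : ∫ g, wl L β (L.rho h * M) g ∂μ = ∫ g, wl L β M g ∂μ := by
    rw [← integral_mul_right_eq_self (μ := μ) (fun g => wl L β M g) h]
    refine integral_congr_ae (Eventually.of_forall fun g => ?_)
    show wl L β (L.rho h * M) g = wl L β M (g * h)
    unfold wl
    rw [map_mul, mul_assoc]
  rw [h2, h3]

variable (L) in
/-- the conditional mean of the link `e` -/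
def Qe (β : ℝ) (e : Ed d l) (U : Ed d l → G) : Mat N := Qm μ L β (stS L e U) * L.rho (U e)

lemma Qe_same (hl : 2 ≤ l) (β : ℝ) (e : Ed d l) (g : G) (U : Ed d l → G) :
    Qe μ L β e (sh e g U) = Qe μ L β e U := by
  unfold Qe
  rw [stS_same hl, sh_same, map_mul, ← mul_assoc, Qm_inv]

lemma Qe_col (hl : 2 ≤ l) (β : ℝ) {e e' : Ed d l} (hc : col e e') (g : G) (U : Ed d l → G) :
    Qe μ L β e (sh e' g U) = Qe μ L β e U := by
  unfold Qe
  rw [stS_col hl hc, sh_ne hc.2.1.symm]

lemma Qe_opn (hN : 2 ≤ N) (hc : ∀ q ∈ gi N, ∃ c : ℝ → G, (∀ s t, c (s + t) = c s * c t) ∧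
      HasDerivAt (fun t => L.rho (c t)) (gen q) 0) {β : ℝ} (hβ : 0 ≤ β) (e : Ed d l)
    (U : Ed d l → G) : opn (Qe μ L β e U) ≤ min (3 / 2 * (4 * β * (d - 1) / (N - 1)))
      (1 - 1 / (2 + 2 * (4 * β * (d - 1) / (N - 1)) ^ 2)) := by
  unfold Qe
  rw [opn_mul_unit (L.unit' _) (L.unit _)]
  have h1 := Qm_opn μ hN hc (stS_opn (L := L) e U) hβ
  have h2 : 2 * β * (2 * ((d : ℝ) - 1)) / ((N : ℝ) - 1) = 4 * β * (d - 1) / (N - 1) := by ring
  rw [h2] at h1
  exact h1

lemma par_cont (β : ℝ) (e : Ed d l) {f : G → ℝ} (hf : Continuous f) :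
    Continuous fun U : Ed d l → G => ∫ g, f g * wl L β (stS L e U) g ∂μ := by
  have h1 : Continuous (Function.uncurry fun (U : Ed d l → G) (g : G) =>
      f g * wl L β (stS L e U) g) := by
    unfold wl
    refine (hf.comp continuous_snd).mul (Real.continuous_exp.comp (continuous_const.mul
      (Complex.continuous_re.comp (Continuous.matrix_trace ((L.cont.comp continuous_snd).mul
        ((stS_cont L e).comp continuous_fst))))))
  have h2 := continuous_parametric_integral_of_continuous (μ := μ) h1 isCompact_univ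
  simpa only [Measure.restrict_univ] using h2

lemma Qe_cont (β : ℝ) (e : Ed d l) : Continuous fun U : Ed d l → G => Qe μ L β e U := by
  unfold Qe Qm
  refine Continuous.mul (continuous_finsetSum _ fun c _ => ?_)
    (L.cont.comp (continuous_apply e))
  refine Continuous.smul (Continuous.div (par_cont μ β e ((co c).continuous.comp L.cont)) ?_
    fun U => (wl_int_pos μ β _).ne') continuous_const
  have h1 := par_cont μ (L := L) β e (f := fun _ : G => 1) continuous_const
  simpa only [one_mul] using h1

/-- averaging over one link -/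
lemma avg (e : Ed d l) {F : (Ed d l → G) → ℝ} (hF : Continuous F) :
    ∫ U, F U ∂ME μ (Ed d l) = ∫ U, ∫ g, F (sh e g U) ∂μ ∂ME μ (Ed d l) := by
  have hsh : Continuous fun p : (Ed d l → G) × G => sh e p.2 p.1 := by
    unfold sh
    refine Continuous.mul ?_ continuous_fst
    exact (continuous_mulSingle e).comp continuous_snd
  have h1 : Integrable (Function.uncurry fun (U : Ed d l → G) (g : G) => F (sh e g U))
      ((ME μ (Ed d l)).prod μ) := by
    have h2 : Continuous (Function.uncurry fun (U : Ed d l → G) (g : G) => F (sh e g U)) :=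
      hF.comp hsh
    exact h2.integrable_of_hasCompactSupport (HasCompactSupport.of_compactSpace _)
  rw [integral_integral_swap h1]
  have h2 : ∀ g : G, ∫ U, F (sh e g U) ∂ME μ (Ed d l) = ∫ U, F U ∂ME μ (Ed d l) := fun g =>
    integral_mul_left_eq_self (μ := ME μ (Ed d l)) F (Pi.mulSingle e g)
  simp only [h2]
  rw [integral_const, probReal_univ, one_smul]

/-- the linear form of a sandwich -/
def ell3 (A B : Mat N) : Mat N →L[ℝ] ℝ :=
  LinearMap.toContinuousLinearMap
    { toFun := fun X => (trace (A * X * B)).re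
      map_add' := fun X Y => by rw [mul_add, add_mul, trace_add, Complex.add_re]
      map_smul' := fun c X => by
        rw [mul_smul_comm, smul_mul_assoc, trace_smul, RingHom.id_apply]
        simp }

lemma ell3_apply (A B X : Mat N) : ell3 A B X = (trace (A * X * B)).re := rfl

/-- **One link** is replaced by its conditional mean. -/
lemma step (hl : 2 ≤ l) (β : ℝ) (e : Ed d l) {A B : (Ed d l → G) → Mat N} (hA : Continuous A)
    (hB : Continuous B) (hA1 : ∀ g U, A (sh e g U) = A U) (hB1 : ∀ g U, B (sh e g U) = B U) :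
    Zt μ L β (fun U => (trace (A U * L.rho (U e) * B U)).re) =
      Zt μ L β (fun U => (trace (A U * Qe μ L β e U * B U)).re) := by
  have hac : Continuous (act L : (Ed d l → G) → ℝ) := act_cont
  have hec : Continuous fun U : Ed d l → G => Real.exp (-(β * act L U)) :=
    Real.continuous_exp.comp (continuous_const.mul hac).neg
  have hUe : Continuous fun U : Ed d l → G => L.rho (U e) := L.cont.comp (continuous_apply e)
  unfold Zt
  rw [avg μ e (F := fun U => (trace (A U * L.rho (U e) * B U)).re * Real.exp (-(β * act L U)))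
    ((Complex.continuous_re.comp (Continuous.matrix_trace ((hA.mul hUe).mul hB))).mul hec),
    avg μ e (F := fun U => (trace (A U * Qe μ L β e U * B U)).re * Real.exp (-(β * act L U)))
    ((Complex.continuous_re.comp (Continuous.matrix_trace
      ((hA.mul (Qe_cont μ β e)).mul hB))).mul hec)]
  refine integral_congr_ae (Eventually.of_forall fun U => ?_)
  obtain ⟨c, hc⟩ : ∃ c : ℝ, c = Real.exp (-(β * (act L U + (trace (stS L e U)).re))) := ⟨_, rfl⟩
  have hw : ∀ g : G, Real.exp (-(β * act L (sh e g U))) = c * wl L β (stS L e U) g := by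
    intro g
    rw [act_link hl, hc]
    unfold wl
    rw [← Real.exp_add]
    congr 1
    ring
  simp only [hw, hA1, hB1, sh_same, Qe_same μ hl]
  have h1 : ∀ g : G, (trace (A U * L.rho (g * U e) * B U)).re * (c * wl L β (stS L e U) g) =
      c * (ell3 (A U) (L.rho (U e) * B U) (L.rho g) * wl L β (stS L e U) g) := by
    intro g
    rw [ell3_apply, map_mul]
    have : A U * (L.rho g * L.rho (U e)) * B U = A U * L.rho g * (L.rho (U e) * B U) := by
      simp only [Matrix.mul_assoc]
    rw [this]
    ring
  simp only [h1]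
  rw [integral_const_mul, integral_const_mul, integral_const_mul]
  have hz := wl_int_pos μ (L := L) β (stS L e U)
  have h2 := ell_Qm μ (L := L) (ell3 (A U) (L.rho (U e) * B U)) β (stS L e U)
  rw [eq_div_iff hz.ne'] at h2
  rw [← h2, ell3_apply]
  unfold Qe
  have h3 : A U * Qm μ L β (stS L e U) * (L.rho (U e) * B U) =
      A U * (Qm μ L β (stS L e U) * L.rho (U e)) * B U := by
    simp only [Matrix.mul_assoc]
  rw [h3]
  ring

end mean

end

end Pool.Agent.T2H01.LN
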