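import Mathlib
import Pool.Agent.T2H01.LN.Step
import Pool.Agent.T2H01.LN.Mean

/-!
# The perimeter law, uniformly in `N`
-/

open MeasureTheory Matrix Filter Module
open scoped Matrix.Norms.Frobenius Topology InnerProductSpace ENNReal
open Pool.Agent.H906R3.YM hiding Pl
open Pool.Agent.W793.YM Pool.Agent.TH618.YM Pool.Agent.T2H01.YM

namespace Pool.Agent.T2H01.LN

set_option linter.unusedSectionVars false
set_option linter.unusedVariables false

noncomputable section

section tor

variable {G : Type*} [Group G] [TopologicalSpace G] [IsTopologicalGroup G] [CompactSpace G]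
  [SecondCountableTopology G] [MeasurableSpace G] [BorelSpace G] (μ : Measure G)
  [IsProbabilityMeasure μ] [μ.IsMulLeftInvariant] [μ.IsMulRightInvariant]
  [μ.IsInvInvariant] {N n d l : ℕ} [NeZero l] {L : LD G N n}

/-- the links of the bottom side -/
def bl (x : Fin d → ZMod l) (i : Fin d) (k : ℕ) : Ed d l := (x + k • eT i, i)

lemma bl_col (x : Fin d → ZMod l) (i : Fin d) {m k : ℕ} (hm : m < l) (hk : k < l) (hmk : m ≠ k) :
    col (bl x i m) (bl x i k) := by
  refine ⟨rfl, fun h => ?_, fun b hb => ?_⟩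
  · have h1 := congrFun (Prod.ext_iff.1 h).1 i
    unfold bl at h1
    simp only [Pi.add_apply, nsmul_eT_apply, if_true, add_right_inj] at h1
    rw [ZMod.natCast_eq_natCast_iff', Nat.mod_eq_of_lt hk, Nat.mod_eq_of_lt hm] at h1
    exact hmk h1.symm
  · unfold bl at hb ⊢
    simp only at hb ⊢
    rw [Pi.add_apply, Pi.add_apply, nsmul_eT_apply, nsmul_eT_apply, if_neg hb, if_neg hb]

variable (L) in
/-- the product of the conditional means -/
def PQ (β : ℝ) (x : Fin d → ZMod l) (i : Fin d) : ℕ → (Ed d l → G) → Mat N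
  | 0, _ => 1
  | k + 1, U => PQ β x i k U * Qe μ L β (bl x i k) U

lemma PQ_cont (β : ℝ) (x : Fin d → ZMod l) (i : Fin d) (k : ℕ) :
    Continuous (PQ μ L β x i k) := by
  induction k with
  | zero => exact continuous_const
  | succ k ih => exact Continuous.mul ih (Qe_cont μ β _)

lemma PQ_sh (hl : 2 ≤ l) (β : ℝ) (x : Fin d → ZMod l) (i : Fin d) {k m : ℕ} (hk : k < l)
    (hm : m ≤ k) (g : G) (U : Ed d l → G) :
    PQ μ L β x i m (sh (bl x i k) g U) = PQ μ L β x i m U := by
  induction m with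
  | zero => rfl
  | succ m ih =>
    show PQ μ L β x i m _ * Qe μ L β (bl x i m) _ = PQ μ L β x i m U * Qe μ L β (bl x i m) U
    rw [ih (by omega), Qe_col μ hl β (bl_col x i (by omega) hk (by omega))]

variable (L) in
/-- the rest of the loop -/
def rst (x : Fin d → ZMod l) (i j : Fin d) (R T : ℕ) (U : Ed d l → G) : G :=
  ln U j T (x + R • eT i) * (ln U i R (x + T • eT j))⁻¹ * (ln U j T x)⁻¹

lemma rst_cont (x : Fin d → ZMod l) (i j : Fin d) (R T : ℕ) :
    Continuous fun U : Ed d l → G => rst x i j R T U := by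
  unfold rst
  exact ((ln_cont _ _ _).mul (ln_cont _ _ _).inv).mul (ln_cont _ _ _).inv

lemma rst_sh (x : Fin d → ZMod l) {i j : Fin d} (hij : i ≠ j) (R : ℕ) {T : ℕ} (hT : 1 ≤ T)
    (hTl : T < l) (k : ℕ) (g : G) (U : Ed d l → G) :
    rst x i j R T (sh (bl x i k) g U) = rst x i j R T U := by
  unfold rst
  have hj : ∀ y : Fin d → ZMod l, ∀ m, ln (sh (bl x i k) g U) j m y = ln U j m y := by
    intro y m
    refine ln_sh g U j m y fun a _ h => hij ?_
    exact (Prod.ext_iff.1 h).2.symm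
  have h3 : ln (sh (bl x i k) g U) i R (x + T • eT j) = ln U i R (x + T • eT j) := by
    refine ln_sh g U i _ _ fun a _ h => ?_
    have h1 := congrFun (Prod.ext_iff.1 h).1 j
    unfold bl at h1
    simp only [Pi.add_apply, nsmul_eT_apply, if_true, if_neg hij.symm, add_zero,
      add_eq_left] at h1
    rw [ZMod.natCast_eq_zero_iff] at h1
    have := Nat.le_of_dvd (by omega) h1
    omega
  rw [hj, hj, h3]

/-- the loop with `k` links replaced -/
lemma chain (hl : 2 ≤ l) (β : ℝ) (x : Fin d → ZMod l) {i j : Fin d} (hij : i ≠ j) {R T : ℕ}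
    (hRl : R ≤ l) (hT : 1 ≤ T) (hTl : T < l) (k : ℕ) (hk : k ≤ R) :
    Zt μ L β (fun U => (trace (L.rho (rect U x i j R T))).re) =
      Zt μ L β (fun U => (trace (PQ μ L β x i k U *
        (L.rho (ln U i (R - k) (x + k • eT i)) * L.rho (rst x i j R T U)))).re) := by
  induction k with
  | zero =>
    congr 1
    funext U
    show _ = (trace ((1 : Mat N) * _)).re
    rw [one_mul, Nat.sub_zero, zero_smul, add_zero, ← map_mul]
    unfold rect rst
    simp only [mul_assoc]
  | succ k ih =>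
    rw [ih (by omega)]
    have h1 := step μ (L := L) hl β (bl x i k) (A := PQ μ L β x i k)
      (B := fun U => L.rho (ln U i (R - (k + 1)) (x + (k + 1) • eT i)) *
        L.rho (rst x i j R T U)) (PQ_cont μ β x i k)
      ((L.cont.comp (ln_cont _ _ _)).mul (L.cont.comp (rst_cont x i j R T)))
      (fun g U => PQ_sh μ hl β x i (by omega) le_rfl g U) (fun g U => by
        rw [rst_sh x hij R hT hTl k g U]
        congr 2
        refine ln_sh g U i _ _ fun a ha h => ?_
        have h1 := congrFun (Prod.ext_iff.1 h).1 i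
        unfold bl at h1
        simp only [Pi.add_apply, nsmul_eT_apply, if_true, add_assoc, add_right_inj] at h1
        have h4 : ((k + 1 + a : ℕ) : ZMod l) = (k : ℕ) := by rw [Nat.cast_add]; exact h1
        rw [ZMod.natCast_eq_natCast_iff', Nat.mod_eq_of_lt (by omega : k < l)] at h4
        have h5 : k + 1 + a < l := by omega
        rw [Nat.mod_eq_of_lt h5] at h4
        omega)
    have h2 : ∀ U : Ed d l → G, PQ μ L β x i k U * (L.rho (ln U i (R - k) (x + k • eT i)) *
        L.rho (rst x i j R T U)) = PQ μ L β x i k U * L.rho (U (bl x i k)) *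
        (L.rho (ln U i (R - (k + 1)) (x + (k + 1) • eT i)) * L.rho (rst x i j R T U)) := by
      intro U
      have h3 : R - k = (R - (k + 1)) + 1 := by omega
      rw [h3, ln_succ, map_mul]
      have h4 : x + k • eT i + eT i = x + (k + 1) • (eT i : Fin d → ZMod l) := by
        rw [add_smul, one_smul, add_assoc]
      rw [h4]
      unfold bl
      simp only [Matrix.mul_assoc]
    simp only [h2]
    rw [h1]
    rfl

lemma PQ_opn {r : ℝ} (hr : 0 ≤ r) (β : ℝ) (hQ : ∀ (e : Ed d l) U, opn (Qe μ L β e U) ≤ r)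
    (x : Fin d → ZMod l) (i : Fin d) (k : ℕ) (U : Ed d l → G) : opn (PQ μ L β x i k U) ≤ r ^ k := by
  induction k with
  | zero =>
    show opn (1 : Mat N) ≤ _
    rw [pow_zero]
    exact opn_unit (by rw [conjTranspose_one, one_mul])
  | succ k ih =>
    show opn (PQ μ L β x i k U * Qe μ L β (bl x i k) U) ≤ _
    rw [pow_succ]
    exact (opn_mul _ _).trans (mul_le_mul ih (hQ _ U) (opn_nonneg _) (by positivity))

lemma EX_le_const {β c : ℝ} {F : (Ed d l → G) → ℝ} (hF : Continuous F) (h : ∀ U, F U ≤ c) :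
    EX μ L β F ≤ c := by
  unfold EX
  rw [div_le_iff₀ (Zt_pos μ β), ← Zt_smul μ c]
  refine Zt_mono μ hF (continuous_const.mul continuous_const) fun U => ?_
  simpa using h U

/-- **Perimeter law** for the side `R`. -/
lemma perim_R (hl : 2 ≤ l) {r : ℝ} (hr : 0 ≤ r) {β : ℝ}
    (hQ : ∀ (e : Ed d l) U, opn (Qe μ L β e U) ≤ r) (x : Fin d → ZMod l) {i j : Fin d}
    (hij : i ≠ j) {R T : ℕ} (hRl : R ≤ l) (hT : 1 ≤ T) (hTl : T < l) :
    EX μ L β (fun U => (trace (L.rho (rect U x i j R T))).re) ≤ N * r ^ R := by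
  have h1 := chain μ (L := L) hl β x hij hRl hT hTl R le_rfl
  have h2 : EX μ L β (fun U => (trace (L.rho (rect U x i j R T))).re) =
      EX μ L β (fun U => (trace (PQ μ L β x i R U *
        (L.rho (ln U i (R - R) (x + R • eT i)) * L.rho (rst x i j R T U)))).re) := by
    unfold EX
    rw [h1]
  rw [h2]
  refine EX_le_const μ ?_ fun U => ?_
  · exact Complex.continuous_re.comp (Continuous.matrix_trace ((PQ_cont μ β x i R).mul
      ((L.cont.comp (ln_cont _ _ _)).mul (L.cont.comp (rst_cont x i j R T)))))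
  · refine (opn_tr _).trans (mul_le_mul_of_nonneg_left ?_ (Nat.cast_nonneg N))
    rw [← map_mul, opn_mul_unit (L.unit' _) (L.unit _)]
    exact PQ_opn μ hr β hQ x i R U

lemma perim_T (hl : 2 ≤ l) {r : ℝ} (hr : 0 ≤ r) {β : ℝ}
    (hQ : ∀ (e : Ed d l) U, opn (Qe μ L β e U) ≤ r) (x : Fin d → ZMod l) {i j : Fin d}
    (hij : i ≠ j) {R T : ℕ} (hTl : T ≤ l) (hR : 1 ≤ R) (hRl : R < l) :
    EX μ L β (fun U => (trace (L.rho (rect U x i j R T))).re) ≤ N * r ^ T := by
  have h1 := perim_R μ hl hr hQ x hij.symm hTl hR hRl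
  have h2 : ∀ U : Ed d l → G, (trace (L.rho (rect U x i j R T))).re =
      (trace (L.rho (rect U x j i T R))).re := by
    intro U
    rw [rect_swap, L.rho_inv, tr_ct]
  simp only [h2]
  exact h1

end tor

/-! ### the rate -/

/-- the rate of the perimeter law -/
def rt (d : ℕ) (b : ℝ) : ℝ :=
  min (12 * (d - 1) * b) (1 - 1 / (2 + 128 * ((d - 1) * b) ^ 2))

lemma rt_nonneg {d : ℕ} (hd : 1 ≤ d) {b : ℝ} (hb : 0 ≤ b) : 0 ≤ rt d b := by
  unfold rt
  have h1 : (0 : ℝ) ≤ (d : ℝ) - 1 := by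
    have : (1 : ℝ) ≤ d := by exact_mod_cast hd
    linarith
  refine le_min (by positivity) ?_
  have : 1 / (2 + 128 * (((d : ℝ) - 1) * b) ^ 2) ≤ 1 / 2 :=
    one_div_le_one_div_of_le (by norm_num) (by nlinarith [sq_nonneg (((d : ℝ) - 1) * b)])
  linarith

lemma rt_lt_one (d : ℕ) (b : ℝ) : rt d b < 1 := by
  unfold rt
  refine (min_le_right _ _).trans_lt ?_
  have : 0 < 1 / (2 + 128 * (((d : ℝ) - 1) * b) ^ 2) := by positivity
  linarith

section Qb

variable {G : Type*} [Group G] [TopologicalSpace G] [IsTopologicalGroup G] [CompactSpace G]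
  [SecondCountableTopology G] [MeasurableSpace G] [BorelSpace G] (μ : Measure G)
  [IsProbabilityMeasure μ] [μ.IsMulLeftInvariant] [μ.IsMulRightInvariant]
  [μ.IsInvInvariant] {N n d l : ℕ} [NeZero l] {L : LD G N n}

lemma Qe_rt (hN : 2 ≤ N) (hc : ∀ q ∈ gi N, ∃ c : ℝ → G, (∀ s t, c (s + t) = c s * c t) ∧
      HasDerivAt (fun t => L.rho (c t)) (gen q) 0) {b : ℝ} (hb : 0 ≤ b) (e : Ed d l)
    (U : Ed d l → G) : opn (Qe μ L (N * b) e U) ≤ rt d b := by
  have hd : (1 : ℝ) ≤ d := by
    have : 1 ≤ d := by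
      have := e.2.2
      omega
    exact_mod_cast this
  have hN2 : (2 : ℝ) ≤ N := by exact_mod_cast hN
  have hN1 : (0 : ℝ) < (N : ℝ) - 1 := by linarith
  refine (Qe_opn μ hN hc (by positivity) e U).trans ?_
  obtain ⟨K, hK⟩ : ∃ K, K = 4 * ((N : ℝ) * b) * (d - 1) / (N - 1) := ⟨_, rfl⟩
  rw [← hK]
  have hd1 : 0 ≤ (d : ℝ) - 1 := by linarith
  have hK0 : 0 ≤ K := by rw [hK]; positivity
  have hK1 : K ≤ 8 * ((d - 1) * b) := by
    rw [hK, div_le_iff₀ hN1]
    have h3 : 0 ≤ ((d : ℝ) - 1) * b := by positivity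
    nlinarith
  unfold rt
  refine le_min ((min_le_left _ _).trans (by linarith)) ((min_le_right _ _).trans ?_)
  have h4 : K ^ 2 ≤ (8 * (((d : ℝ) - 1) * b)) ^ 2 := pow_le_pow_left₀ hK0 hK1 2
  have h5 : 1 / (2 + 128 * (((d : ℝ) - 1) * b) ^ 2) ≤ 1 / (2 + 2 * K ^ 2) := by
    refine one_div_le_one_div_of_le (by positivity) ?_
    nlinarith
  linarith

end Qb

/-! ### infinite volume -/

section inf

variable {G : Type*} [Group G] [TopologicalSpace G] [IsTopologicalGroup G] [CompactSpace G]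
  [SecondCountableTopology G] [MeasurableSpace G] [BorelSpace G] (μ : Measure G)
  [IsProbabilityMeasure μ] [μ.IsMulLeftInvariant] [μ.IsMulRightInvariant] [μ.IsInvInvariant]
  {N n d : ℕ} {L : LD G N n}

/-- **The perimeter law**, uniformly in `N`, at all couplings. -/
theorem loop_perim (hN : 2 ≤ N) (hc : ∀ q ∈ gi N, ∃ c : ℝ → G, (∀ s t, c (s + t) = c s * c t) ∧
      HasDerivAt (fun t => L.rho (c t)) (gen q) 0) {b : ℝ} (hb : 0 ≤ b)
    {ν : Measure (LZ d → G)} (hI : IV μ L (N * b) ν) {i j : Fin d} (hij : i ≠ j)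
    (x : Fin d → ℤ) {R T : ℕ} (hR : 1 ≤ R) (hT : 1 ≤ T) :
    ∫ V, (trace (L.rho (lpZ V x i j R T))).re ∂ν ≤ N * rt d b ^ max R T := by
  have hd : 1 ≤ d := by
    have := i.2
    omega
  obtain ⟨s, hs, hlim⟩ := hI.lim
  have hcont : Continuous fun V : LZ d → G => (trace (L.rho (lpZ V x i j R T))).re :=
    Complex.continuous_re.comp (Continuous.matrix_trace (L.cont.comp (lpZ_cont x i j R T)))
  refine le_of_tendsto (hlim _ hcont) ?_
  filter_upwards [hs.eventually_ge_atTop (R + T)] with k hk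
  simp only [lpZ_pe]
  have hQ : ∀ (e : Ed d (2 * (s k + 1))) U, opn (Qe μ L (N * b) e U) ≤ rt d b :=
    fun e U => Qe_rt μ hN hc hb e U
  rcases le_total R T with h | h
  · rw [max_eq_right h]
    exact perim_T μ (by omega) (rt_nonneg hd hb) hQ _ hij (by omega) hR (by omega)
  · rw [max_eq_left h]
    exact perim_R μ (by omega) (rt_nonneg hd hb) hQ _ hij (by omega) hT (by omega)

/-- **The eigenvalues**: the bound from the perimeter law. -/
theorem loop_nogap' (hN : 2 ≤ N)
    (hc : ∀ q ∈ gi N, ∃ c : ℝ → G, (∀ s t, c (s + t) = c s * c t) ∧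
      HasDerivAt (fun t => L.rho (c t)) (gen q) 0)
    {b : ℝ} (hb : 0 ≤ b) {ν : Measure (LZ d → G)} (hI : IV μ L (N * b) ν) {i j : Fin d}
    (hij : i ≠ j) (x : Fin d → ℤ) {R T : ℕ} (hR : 1 ≤ R) (hT : 1 ≤ T) :
    ENNReal.ofReal ((1 - 2 * rt d b ^ max R T) / 3) ≤
      ∫⁻ V, ENNReal.ofReal ((cnt2 (L.rho (lpZ V x i j R T)) : ℝ) / N) ∂ν := by
  have := hI.prob
  have hN0 : (0 : ℝ) < N := by
    have : 0 < N := by omega
    exact_mod_cast this
  have h1 := loop_perim μ hN hc hb hI hij x hR hT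
  have hcont : Continuous fun V : LZ d → G => (trace (L.rho (lpZ V x i j R T))).re :=
    Complex.continuous_re.comp (Continuous.matrix_trace (L.cont.comp (lpZ_cont x i j R T)))
  have hint0 : Integrable (fun V : LZ d → G => (trace (L.rho (lpZ V x i j R T))).re) ν :=
    hcont.integrable_of_hasCompactSupport (HasCompactSupport.of_compactSpace _)
  have hint : Integrable (fun V : LZ d → G =>
      2 / 3 * (1 / 2 - (trace (L.rho (lpZ V x i j R T))).re / N)) ν :=
    ((integrable_const _).sub (hint0.div_const _)).const_mul _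
  have h2 : ∀ V : LZ d → G, 2 / 3 * (1 / 2 - (trace (L.rho (lpZ V x i j R T))).re / N) ≤
      (cnt2 (L.rho (lpZ V x i j R T)) : ℝ) / N := by
    intro V
    have h3 := tr_cnt2 (L.unit' (lpZ V x i j R T))
    rw [le_div_iff₀ hN0]
    have h4 : (trace (L.rho (lpZ V x i j R T))).re / N * N =
        (trace (L.rho (lpZ V x i j R T))).re := div_mul_cancel₀ _ hN0.ne'
    linarith
  refine le_trans ?_ (lintegral_mono fun V => ENNReal.ofReal_le_ofReal (h2 V))
  refine le_trans (ENNReal.ofReal_le_ofReal ?_) (ofReal_integral_le ν hint)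
  rw [integral_const_mul, integral_sub (integrable_const _) (hint0.div_const _),
    integral_const, integral_div, probReal_univ, one_smul]
  have h5 : (∫ V, (trace (L.rho (lpZ V x i j R T))).re ∂ν) / N ≤ rt d b ^ max R T := by
    rw [div_le_iff₀ hN0]
    linarith
  linarith

end inf

end

end Pool.Agent.T2H01.LN
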