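import Mathlib
import Pool.Agent.T2H01.LN.Perim
import Pool.Agent.T2H01.LN.Anal

/-!
# Zeros of the partition function with a local insertion
-/

open MeasureTheory Matrix Filter Module
open scoped Matrix.Norms.Frobenius Topology InnerProductSpace ENNReal
open Pool.Agent.H906R3.YM hiding Pl
open Pool.Agent.W793.YM Pool.Agent.TH618.YM Pool.Agent.T2H01.YM

namespace Pool.Agent.T2H01.LN

set_option linter.unusedSectionVars false
set_option linter.unusedVariables false

noncomputable section

section far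

variable {N : ℕ}

lemma frob_opn (A : Mat N) : ‖A‖ ^ 2 ≤ N * opn A ^ 2 := by
  have h1 : ‖A‖ ^ 2 = ∑ k : Fin N, ‖op A (EuclideanSpace.single k (1 : ℂ))‖ ^ 2 := by
    rw [frob_sq, Finset.sum_comm]
    refine Finset.sum_congr rfl fun k _ => ?_
    rw [EuclideanSpace.norm_sq_eq]
    refine Finset.sum_congr rfl fun j _ => ?_
    have h2 : (op A (EuclideanSpace.single k (1 : ℂ))) j = A j k := by
      unfold op
      rw [show (EuclideanSpace.single k (1 : ℂ) : Ec N) = WithLp.toLp 2 (Pi.single k 1) from rfl,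
        Matrix.toEuclideanCLM_toLp]
      show (A *ᵥ Pi.single k 1) j = A j k
      rw [Matrix.mulVec_single_one]
      rfl
    rw [h2, ← Complex.normSq_eq_norm_sq, Complex.normSq_apply]
    ring
  rw [h1]
  have h2 : ∀ k ∈ (Finset.univ : Finset (Fin N)),
      ‖op A (EuclideanSpace.single k (1 : ℂ))‖ ^ 2 ≤ opn A ^ 2 := by
    intro k _
    have h3 := (op A).le_opNorm (EuclideanSpace.single k (1 : ℂ))
    rw [PiLp.norm_single, norm_one, mul_one] at h3
    exact pow_le_pow_left₀ (norm_nonneg _) h3 2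
  refine (Finset.sum_le_sum h2).trans ?_
  rw [Finset.sum_const, Finset.card_univ, Fintype.card_fin, nsmul_eq_mul]

/-- the distance to 1 beyond 1 -/
def far (A : Mat N) : ℝ := max 0 (opn (1 - A) ^ 2 - 1)

lemma far_cont : Continuous (far : Mat N → ℝ) := by
  unfold far
  exact continuous_const.max (((opn_cont.comp (continuous_const.sub continuous_id)).pow 2).sub
    continuous_const)

lemma far_nonneg (A : Mat N) : 0 ≤ far A := le_max_left _ _

lemma opn_one_sub {U : Mat N} (hU : Uᴴ * U = 1) : opn (1 - U) ≤ 2 := by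
  rw [sub_eq_add_neg]
  refine (opn_add _ _).trans ?_
  rw [opn_neg]
  have h1 := opn_unit hU
  have h2 : opn (1 : Mat N) ≤ 1 := opn_unit (by rw [conjTranspose_one, one_mul])
  linarith

lemma far_le {U : Mat N} (hU : Uᴴ * U = 1) : far U ≤ 3 := by
  unfold far
  refine max_le (by norm_num) ?_
  have h1 := opn_one_sub hU
  have h2 := opn_nonneg (1 - U)
  nlinarith

lemma far_zero {U : Mat N} (h : opn (1 - U) ≤ 1) : far U = 0 := by
  unfold far
  refine max_eq_left ?_
  have h2 := opn_nonneg (1 - U)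
  nlinarith

lemma frob_tr {U : Mat N} (hU : Uᴴ * U = 1) : ‖1 - U‖ ^ 2 = 2 * (N - (trace U).re) := by
  have h1 : ‖1 - U‖ ^ 2 = (trace ((1 - U)ᴴ * (1 - U))).re := by
    rw [← sum_co_sq, frob_sq]
    have h1 : ∀ (c : Fin N × Fin N × Bool) (A : Mat N),
      co c A = if c.2.2 then (A c.1 c.2.1).re else (A c.1 c.2.1).im := fun c A => rfl
    simp only [h1]
    rw [Fintype.sum_prod_type]
    simp only [Fintype.sum_prod_type, Fintype.sum_bool, if_true, Bool.false_eq_true, if_false]
  have h2 : (1 - U)ᴴ * (1 - U) = 1 + 1 - U - Uᴴ := by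
    rw [conjTranspose_sub, conjTranspose_one, sub_mul, mul_sub, mul_sub, one_mul, mul_one,
      one_mul, hU]
    abel
  rw [h1, h2, trace_sub, trace_sub, trace_add, trace_one, Fintype.card_fin, Complex.sub_re,
    Complex.sub_re, tr_ct, Complex.add_re]
  simp
  ring

lemma far_ge (hN : 0 < N) {U : Mat N} (hU : Uᴴ * U = 1) :
    1 - 2 * ((trace U).re / N) ≤ far U := by
  have hN0 : (0 : ℝ) < N := by exact_mod_cast hN
  have h1 := frob_opn (1 - U)
  rw [frob_tr hU] at h1
  have h2 : 2 * (1 - (trace U).re / N) ≤ opn (1 - U) ^ 2 := by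
    have h3 : 2 * (1 - (trace U).re / N) = 2 * (N - (trace U).re) / N := by
      field_simp
    rw [h3, div_le_iff₀ hN0]
    linarith
  refine le_trans ?_ (le_max_right _ _)
  linarith

end far

section tor

variable {G : Type*} [Group G] [TopologicalSpace G] [IsTopologicalGroup G] [CompactSpace G]
  [SecondCountableTopology G] [MeasurableSpace G] [BorelSpace G] (μ : Measure G)
  [IsProbabilityMeasure μ] [μ.IsMulLeftInvariant] [μ.IsMulRightInvariant]
  [μ.IsInvInvariant] {N n d : ℕ} {L : LD G N n}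

lemma EX_mono' {l : ℕ} [NeZero l] {β : ℝ} {F H : (Ed d l → G) → ℝ} (hF : Continuous F)
    (hH : Continuous H) (h : ∀ U, F U ≤ H U) : EX μ L β F ≤ EX μ L β H := by
  unfold EX
  exact div_le_div_of_nonneg_right (Zt_mono μ hF hH h) (Zt_pos μ β).le

lemma EX_sum' {l : ℕ} [NeZero l] {ι : Type*} (s : Finset ι) {β : ℝ}
    {F : ι → (Ed d l → G) → ℝ} (hF : ∀ k, Continuous (F k)) :
    EX μ L β (fun U => ∑ k ∈ s, F k U) = ∑ k ∈ s, EX μ L β (F k) := by
  classical
  unfold EX
  rw [← Finset.sum_div]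
  congr 1
  induction s using Finset.induction_on with
  | empty =>
    simp only [Finset.sum_empty]
    unfold Zt
    simp
  | insert a s ha ih =>
    simp only [Finset.sum_insert ha]
    rw [Zt_add μ (hF a) (continuous_finsetSum _ fun k _ => hF k), ih]

lemma EX_smul' {l : ℕ} [NeZero l] {β : ℝ} (c : ℝ) (F : (Ed d l → G) → ℝ) :
    EX μ L β (fun U => c * F U) = c * EX μ L β F := by
  unfold EX
  rw [Zt_smul, mul_div_assoc]

/-- weak coupling on the torus -/
lemma far_weak {m : ℕ} [NeZero m] (hm : 2 ≤ m) {b : ℝ} {i j : Fin d} (hij : i ≠ j)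
    (x : Fin d → ℤ) {R T : ℕ} (hR : 1 ≤ R) (hT : 1 ≤ T) (hb : 240 * ((R : ℝ) * T) ^ 2 ≤ b) :
    EX μ L (N * b) (fun U : Ed d (2 * m) → G => far (L.rho (lpZ (pe U) x i j R T))) ≤
      3 * (R * T * Real.exp (-N)) := by
  have hRT : (0 : ℝ) < R * T := by
    have : (0 : ℝ) < R := by exact_mod_cast hR
    have : (0 : ℝ) < T := by exact_mod_cast hT
    positivity
  have hb0 : 0 < b := lt_of_lt_of_le (by positivity) hb
  have hpe : Continuous (pe : (Ed d (2 * m) → G) → LZ d → G) :=
    continuous_pi fun e => continuous_apply _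
  have hfc : Continuous fun U : Ed d (2 * m) → G => far (L.rho (lpZ (pe U) x i j R T)) :=
    far_cont.comp (L.cont.comp ((lpZ_cont x i j R T).comp hpe))
  -- the bound with `s < 1 / (R T)`
  have h1 : ∀ s : ℝ, 0 ≤ s → s < 1 / (R * T) →
      EX μ L (N * b) (fun U : Ed d (2 * m) → G => far (L.rho (lpZ (pe U) x i j R T))) ≤
        3 * (R * T * (5 ^ (4 * N) * Real.exp (-(N * b * s ^ 2 / 32)))) := by
    intro s hs hst
    obtain ⟨t, ht⟩ : ∃ t : ℝ, t = 1 / (R * T) := ⟨_, rfl⟩
    rw [← ht] at hst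
    obtain ⟨ψ, hψ⟩ : ∃ ψ : ℝ → ℝ, ψ = fun r => min 1 (max 0 ((r - s) / (t - s))) := ⟨_, rfl⟩
    have hψc : Continuous ψ := by
      rw [hψ]
      fun_prop
    have hψ1 : ∀ r, ψ r ≤ 1 := fun r => by rw [hψ]; exact min_le_left _ _
    have hψ0 : ∀ r, r ≤ s → ψ r ≤ 0 := fun r hr => by
      rw [hψ]
      refine (min_le_right _ _).trans (max_le le_rfl ?_)
      exact div_nonpos_of_nonpos_of_nonneg (by linarith) (by linarith)
    have hψn : ∀ r, 0 ≤ ψ r := fun r => by
      rw [hψ]
      exact le_min zero_le_one (le_max_left _ _)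
    have hψt : ∀ r, t ≤ r → ψ r = 1 := fun r hr => by
      rw [hψ]
      refine min_eq_left (le_max_of_le_right ?_)
      rw [le_div_iff₀ (by linarith)]
      linarith
    have hpc : ∀ p : ℕ × ℕ, Continuous fun U : Ed d (2 * m) → G =>
        ψ (D1 L (plZ (pe U) (x + Pi.single i (p.1 : ℤ) + Pi.single j (p.2 : ℤ)) i j)) :=
      fun p => hψc.comp ((D1_cont L _ i j).comp hpe)
    have hpt : ∀ U : Ed d (2 * m) → G, far (L.rho (lpZ (pe U) x i j R T)) ≤
        3 * ∑ p ∈ Finset.range R ×ˢ Finset.range T,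
          ψ (D1 L (plZ (pe U) (x + Pi.single i (p.1 : ℤ) + Pi.single j (p.2 : ℤ)) i j)) := by
      intro U
      by_cases hex : ∃ p ∈ Finset.range R ×ˢ Finset.range T,
          t ≤ D1 L (plZ (pe U) (x + Pi.single i (p.1 : ℤ) + Pi.single j (p.2 : ℤ)) i j)
      · obtain ⟨p, hp, hpt⟩ := hex
        have h2 := Finset.single_le_sum (f := fun p : ℕ × ℕ =>
          ψ (D1 L (plZ (pe U) (x + Pi.single i (p.1 : ℤ) + Pi.single j (p.2 : ℤ)) i j)))
          (fun q _ => hψn _) hp
        simp only [hψt _ hpt] at h2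
        have h3 := far_le (L.unit' (lpZ (pe U) x i j R T))
        linarith
      · push Not at hex
        have h2 := D1_lp L (pe U) x i j R T
        rw [← Finset.sum_product'] at h2
        have h3 := Finset.sum_le_sum fun p hp => (hex p hp).le
        rw [Finset.sum_const, Finset.card_product, Finset.card_range, Finset.card_range,
          nsmul_eq_mul] at h3
        have h4 : ((R * T : ℕ) : ℝ) * t = 1 := by
          rw [ht]; push_cast; field_simp
        rw [h4] at h3
        rw [far_zero (h2.trans h3)]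
        have h5 : 0 ≤ ∑ p ∈ Finset.range R ×ˢ Finset.range T,
          ψ (D1 L (plZ (pe U) (x + Pi.single i (p.1 : ℤ) + Pi.single j (p.2 : ℤ)) i j)) :=
          Finset.sum_nonneg fun p _ => hψn _
        linarith
    have hsc : Continuous fun U : Ed d (2 * m) → G => 3 * ∑ p ∈ Finset.range R ×ˢ Finset.range T,
          ψ (D1 L (plZ (pe U) (x + Pi.single i (p.1 : ℤ) + Pi.single j (p.2 : ℤ)) i j)) :=
      continuous_const.mul (continuous_finsetSum _ fun p _ => hpc p)
    refine (EX_mono' μ hfc hsc hpt).trans ?_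
    rw [EX_smul' μ (L := L) (β := N * b) (3 : ℝ), EX_sum' μ (L := L) (β := N * b) _ hpc]
    refine mul_le_mul_of_nonneg_left ?_ (by norm_num)
    have h2 : ∀ p ∈ Finset.range R ×ˢ Finset.range T, EX μ L (N * b) (fun U : Ed d (2 * m) → G =>
        ψ (D1 L (plZ (pe U) (x + Pi.single i (p.1 : ℤ) + Pi.single j (p.2 : ℤ)) i j))) ≤
        5 ^ (4 * N) * Real.exp (-(N * b * s ^ 2 / 32)) := by
      intro p _
      simp only [plZ_pe]
      exact plaq_op μ (L := L) hm (by positivity) hij _ hψc hs hψ1 hψ0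
    refine (Finset.sum_le_sum h2).trans ?_
    rw [Finset.sum_const, Finset.card_product, Finset.card_range, Finset.card_range, nsmul_eq_mul]
    push_cast
    exact le_rfl
  have h2 : Tendsto (fun s : ℝ => 3 * ((R : ℝ) * T * (5 ^ (4 * N) *
      Real.exp (-(N * b * s ^ 2 / 32))))) (𝓝[<] (1 / (R * T)))
      (𝓝 (3 * (R * T * (5 ^ (4 * N) * Real.exp (-(N * b * (1 / (R * T)) ^ 2 / 32)))))) := by
    have h3 : Continuous fun s : ℝ => 3 * ((R : ℝ) * T * (5 ^ (4 * N) *
        Real.exp (-(N * b * s ^ 2 / 32)))) := by fun_prop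
    exact (h3.tendsto _).mono_left nhdsWithin_le_nhds
  have h3 : Set.Ioo 0 (1 / ((R : ℝ) * T)) ∈ 𝓝[<] (1 / ((R : ℝ) * T)) :=
    Ioo_mem_nhdsLT (by positivity)
  have h4 := ge_of_tendsto h2 (by
    filter_upwards [h3] with s hs
    exact h1 s hs.1.le hs.2)
  refine h4.trans ?_
  refine mul_le_mul_of_nonneg_left (mul_le_mul_of_nonneg_left ?_ hRT.le) (by norm_num)
  have h5 := num_bound N (le_refl (1 : ℝ))
  rw [mul_one, one_mul] at h5
  refine le_trans ?_ h5
  refine mul_le_mul_of_nonneg_left (Real.exp_le_exp.2 ?_) (by positivity)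
  have h6 : 240 ≤ b * (1 / (R * T)) ^ 2 := by
    rw [one_div, inv_pow, ← div_eq_mul_inv, le_div_iff₀ (by positivity)]
    exact hb
  have hN : (0 : ℝ) ≤ N := Nat.cast_nonneg N
  nlinarith

/-- strong coupling on the torus -/
lemma far_strong (hN : 2 ≤ N) (hc : ∀ q ∈ gi N, ∃ c : ℝ → G, (∀ s t, c (s + t) = c s * c t) ∧
      HasDerivAt (fun t => L.rho (c t)) (gen q) 0) {l : ℕ} [NeZero l] (hl : 2 ≤ l) {b : ℝ}
    (hb : 0 ≤ b) {i j : Fin d} (hij : i ≠ j) (x : Fin d → ℤ) {R T : ℕ} (hR : 1 ≤ R)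
    (hRl : R < l) (hT : 1 ≤ T) (hTl : T < l) : 1 - 2 * rt d b ^ max R T ≤
      EX μ L (N * b) (fun U : Ed d l → G => far (L.rho (lpZ (pe U) x i j R T))) := by
  have hd : 1 ≤ d := by
    have := i.2
    omega
  have hN0 : (0 : ℝ) < N := by
    have : 0 < N := by omega
    exact_mod_cast this
  have hpe : Continuous (pe : (Ed d l → G) → LZ d → G) :=
    continuous_pi fun e => continuous_apply _
  have hlc : Continuous fun U : Ed d l → G => L.rho (lpZ (pe U) x i j R T) :=
    L.cont.comp ((lpZ_cont x i j R T).comp hpe)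
  have hfc : Continuous fun U : Ed d l → G => far (L.rho (lpZ (pe U) x i j R T)) :=
    far_cont.comp hlc
  have htc : Continuous fun U : Ed d l → G => (trace (L.rho (lpZ (pe U) x i j R T))).re :=
    Complex.continuous_re.comp (Continuous.matrix_trace hlc)
  have hQ : ∀ (e : Ed d l) U, opn (Qe μ L (N * b) e U) ≤ rt d b :=
    fun e U => Qe_rt μ hN hc hb e U
  have h1 : EX μ L (N * b) (fun U : Ed d l → G => (trace (L.rho (lpZ (pe U) x i j R T))).re) ≤
      N * rt d b ^ max R T := by
    simp only [lpZ_pe]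
    rcases le_total R T with h | h
    · rw [max_eq_right h]
      exact perim_T μ hl (rt_nonneg hd hb) hQ _ hij (by omega) hR hRl
    · rw [max_eq_left h]
      exact perim_R μ hl (rt_nonneg hd hb) hQ _ hij (by omega) hT hTl
  have h2 : EX μ L (N * b) (fun U : Ed d l → G =>
      1 + (-(2 / N)) * (trace (L.rho (lpZ (pe U) x i j R T))).re) ≤
      EX μ L (N * b) (fun U : Ed d l → G => far (L.rho (lpZ (pe U) x i j R T))) := by
    refine EX_mono' μ (continuous_const.add (continuous_const.mul htc)) hfc fun U => ?_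
    have h3 := far_ge (by omega : 0 < N) (L.unit' (lpZ (pe U) x i j R T))
    refine le_trans (le_of_eq ?_) h3
    ring
  refine le_trans ?_ h2
  have h3 : EX μ L (N * b) (fun U : Ed d l → G =>
      1 + (-(2 / N)) * (trace (L.rho (lpZ (pe U) x i j R T))).re) =
      1 + (-(2 / N)) * EX μ L (N * b) (fun U : Ed d l → G =>
        (trace (L.rho (lpZ (pe U) x i j R T))).re) := by
    have htc2 : Continuous fun U : Ed d l → G =>
        (-(2 / N)) * (trace (L.rho (lpZ (pe U) x i j R T))).re := continuous_const.mul htc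
    have hone : Continuous fun _ : Ed d l → G => (1 : ℝ) := continuous_const
    unfold EX
    rw [Zt_add μ hone htc2, Zt_smul, add_div, mul_div_assoc,
      div_self (Zt_pos μ (L := L) (d := d) (l := l) (N * b)).ne']
  rw [h3]
  have h4 : (2 / (N : ℝ)) * EX μ L (N * b) (fun U : Ed d l → G =>
      (trace (L.rho (lpZ (pe U) x i j R T))).re) ≤ 2 / N * (N * rt d b ^ max R T) :=
    mul_le_mul_of_nonneg_left h1 (by positivity)
  have h5 : 2 / (N : ℝ) * (N * rt d b ^ max R T) = 2 * rt d b ^ max R T := by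
    field_simp
  linarith

/-! ### complex couplings -/

variable (L) in
/-- the integral at complex coupling -/
def Zc {l : ℕ} [NeZero l] (F : (Ed d l → G) → ℝ) (z : ℂ) : ℂ :=
  ∫ U, (F U : ℂ) * Complex.exp (-(N * z * act L U)) ∂(ME μ (Ed d l))

lemma Zc_diff {l : ℕ} [NeZero l] {F : (Ed d l → G) → ℝ} (hF : Continuous F) :
    Differentiable ℂ (Zc μ L F) := by
  have hac : Continuous (act L : (Ed d l → G) → ℝ) := act_cont
  obtain ⟨A, hA⟩ : ∃ A : ℝ, ∀ U : Ed d l → G, |act L U| ≤ A := by
    obtain ⟨C, hC⟩ := (isCompact_univ.image hac.norm).bddAbove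
    exact ⟨C, fun U => hC ⟨U, trivial, rfl⟩⟩
  obtain ⟨B, hB⟩ : ∃ B : ℝ, ∀ U : Ed d l → G, |F U| ≤ B := by
    obtain ⟨C, hC⟩ := (isCompact_univ.image hF.norm).bddAbove
    exact ⟨C, fun U => hC ⟨U, trivial, rfl⟩⟩
  have hA0 : 0 ≤ A := (abs_nonneg _).trans (hA fun _ => 1)
  have hB0 : 0 ≤ B := (abs_nonneg _).trans (hB fun _ => 1)
  intro z0
  have hN : (0 : ℝ) ≤ N := Nat.cast_nonneg N
  have hcont : ∀ z : ℂ, Continuous fun U : Ed d l → G =>
      (F U : ℂ) * Complex.exp (-(N * z * act L U)) := by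
    intro z
    refine (Complex.continuous_ofReal.comp hF).mul (Complex.continuous_exp.comp ?_)
    exact (continuous_const.mul (Complex.continuous_ofReal.comp hac)).neg
  have hcont' : ∀ z : ℂ, Continuous fun U : Ed d l → G =>
      (F U : ℂ) * (Complex.exp (-(N * z * act L U)) * (-(N * act L U))) := by
    intro z
    refine (Complex.continuous_ofReal.comp hF).mul ((Complex.continuous_exp.comp ?_).mul ?_)
    · exact (continuous_const.mul (Complex.continuous_ofReal.comp hac)).neg
    · exact (continuous_const.mul (Complex.continuous_ofReal.comp hac)).neg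
  have h1 := hasDerivAt_integral_of_dominated_loc_of_deriv_le (μ := ME μ (Ed d l))
    (F := fun (z : ℂ) (U : Ed d l → G) => (F U : ℂ) * Complex.exp (-(N * z * act L U)))
    (F' := fun (z : ℂ) (U : Ed d l → G) =>
      (F U : ℂ) * (Complex.exp (-(N * z * act L U)) * (-(N * act L U))))
    (x₀ := z0) (s := Metric.ball z0 1)
    (bound := fun _ => B * (Real.exp (N * (‖z0‖ + 1) * A) * (N * A))) (Metric.ball_mem_nhds _ one_pos)
    (Eventually.of_forall fun z => (hcont z).aestronglyMeasurable)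
    ((hcont z0).integrable_of_hasCompactSupport (HasCompactSupport.of_compactSpace _))
    ((hcont' z0).aestronglyMeasurable)
    (Eventually.of_forall fun U z hz => by
      rw [norm_mul, norm_mul, Complex.norm_exp, Complex.norm_real, norm_neg, norm_mul,
        Complex.norm_natCast, Complex.norm_real]
      refine mul_le_mul (hB U) (mul_le_mul (Real.exp_le_exp.2 ?_)
        (mul_le_mul_of_nonneg_left (hA U) hN) (by positivity) (Real.exp_pos _).le)
        (by positivity) hB0
      have hz1 : ‖z‖ ≤ ‖z0‖ + 1 := by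
        rw [Metric.mem_ball, dist_eq_norm] at hz
        calc ‖z‖ = ‖z0 + (z - z0)‖ := by rw [add_sub_cancel]
          _ ≤ ‖z0‖ + ‖z - z0‖ := norm_add_le _ _
          _ ≤ ‖z0‖ + 1 := by linarith
      calc (-((N : ℂ) * z * (act L U : ℂ))).re ≤ ‖-((N : ℂ) * z * (act L U : ℂ))‖ :=
            Complex.re_le_norm _
        _ = N * ‖z‖ * |act L U| := by
            rw [norm_neg, norm_mul, norm_mul, Complex.norm_natCast, Complex.norm_real]
            rfl
        _ ≤ N * (‖z0‖ + 1) * A := by
            refine mul_le_mul (mul_le_mul_of_nonneg_left hz1 hN) (hA U) (abs_nonneg _)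
              (by positivity))
    (integrable_const _)
    (Eventually.of_forall fun U z hz => by
      have h2 : HasDerivAt (fun z : ℂ => -((N : ℂ) * z * (act L U : ℂ)))
          (-((N : ℂ) * 1 * (act L U : ℂ))) z :=
        (((hasDerivAt_id z).const_mul (N : ℂ)).mul_const (act L U : ℂ)).neg
      rw [mul_one] at h2
      exact h2.cexp.const_mul (F U : ℂ))
  exact h1.2.differentiableAt

lemma Zc_real {l : ℕ} [NeZero l] (F : (Ed d l → G) → ℝ) (b : ℝ) :
    Zc μ L F (b : ℂ) = (Zt μ L (N * b) F : ℂ) := by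
  unfold Zc Zt
  rw [← integral_complex_ofReal]
  refine integral_congr_ae (Eventually.of_forall fun U => ?_)
  simp only
  push_cast
  rfl

end tor

end

end Pool.Agent.T2H01.LN
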